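import Pool.Agent.H72.W.NXB

set_option autoImplicit false
open Finset

/-! # The reference window of chart I (49's trick)

`refD D p` : the window `D` with alternating colours of the right wall, so that there is no tie point on the
right wall of `P^p`. Regions (`InP`, `NearP`, `LyA`, `Fill`, `Ring`, ..) are unchanged (`Iff.rfl`). `natc_ref` :
the colours off the rows to the right of `P` are unchanged. `not_CA_R`, `CA_ref`, `TieP_ref`, `KA_ref`,
`RA_ref`, `RO_ref` : the ties of `refD D p` are those of `D` which are not on the right wall. `FRt_col` : the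
column `x + sh p = w`, `0 ≤ y < h` is frozen. `SolR` : it is solid, opposite to `cb` in the lower half and to
`ct` in the upper half. -/

namespace Pool.Agent.H72.W.N

open Pool.Agent.H75.Perc Pool.Agent.H75.TwoArm Pool.Agent.Q1 Pool.Agent.H33.Q1
open Pool.Agent.H69.Q1
open Pool.Agent.H54.W (Win Out)
open Pool.Agent.H54.W.Win
open Pool.Agent.H42.Sp (Sd Ix kt rt kt_odd rt_even kt_Tg rt_Tg)
open Pool.Agent.H13.R45 (ev gp ev_true ev_false Tg)
open Pool.Agent.H74.R45 (exists_lt)

/-- the reference window -/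
def refD (D : Win) (p : Bool) : Win where
  h := D.h
  w := D.w
  lo := D.lo
  a := D.a
  cl := D.cl
  cr := fun y => decide ((D.w - sh p + y) % 2 = 0)
  cb := D.cb
  ct := D.ct
  hh := D.hh
  hlo := D.hlo
  aw := D.aw
  fe := D.fe
  ud := D.ud
  du := D.du
  scl := D.scl
  cup := D.cup
  cdn := D.cdn
  pup := D.pup
  pdn := D.pdn

variable {D : Win} {p q : Bool} {x y : ℤ} {s : Sd} {c : Bool}

@[simp] lemma ref_h : (refD D p).h = D.h := rfl
@[simp] lemma ref_w : (refD D p).w = D.w := rfl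
@[simp] lemma ref_lo : (refD D p).lo = D.lo := rfl
@[simp] lemma ref_a : (refD D p).a = D.a := rfl
@[simp] lemma ref_cl : (refD D p).cl = D.cl := rfl
@[simp] lemma ref_cb : (refD D p).cb = D.cb := rfl
@[simp] lemma ref_ct : (refD D p).ct = D.ct := rfl
lemma ref_cr : (refD D p).cr y = decide ((D.w - sh p + y) % 2 = 0) := rfl

/-! ### The regions are the same -/

lemma InP_ref : InP (refD D q) p x y ↔ InP D p x y := Iff.rfl
lemma InB_ref : InB (refD D q) x y ↔ InB D x y := Iff.rfl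
lemma PT_ref : PT (refD D q) x y ↔ PT D x y := Iff.rfl
lemma NearP_ref : NearP (refD D q) x y ↔ NearP D x y := Iff.rfl
lemma Fill_ref : Fill (refD D q) p x y ↔ Fill D p x y := Iff.rfl
lemma Ring_ref : Ring (refD D q) p x y ↔ Ring D p x y := Iff.rfl
lemma LyP_ref : LyP (refD D q) s x y ↔ LyP D s x y := by cases s <;> exact Iff.rfl
lemma LyA_ref : LyA (refD D q) p s x y ↔ LyA D p s x y := LyP_ref
lemma nP_ref : nP (refD D q) = nP D := rfl
lemma ps_ref : ps (refD D q) p x y = ps D p x y := rfl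
lemma GB_ref : GB (refD D q) = GB D := rfl
lemma EN_ref : EN (refD D q) p = EN D p := rfl

/-- the colours off the rows to the right of the window -/
lemma natc_ref (h : y < 0 ∨ D.h ≤ y ∨ x < D.a y) : natc (refD D q) p x y = natc D p x y := by
  rw [natc_def, natc_def]
  by_cases c1 : y < 0
  · rw [if_pos c1, if_pos c1]; rfl
  rw [if_neg c1, if_neg c1]
  by_cases c2 : D.h ≤ y
  · rw [if_pos (show (refD D q).h ≤ y from c2), if_pos c2]; rfl
  rw [if_neg (show ¬ (refD D q).h ≤ y from c2), if_neg c2]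
  have h3 : x < D.a y := by omega
  rw [if_pos (show x < (refD D q).a y from h3), if_pos h3]; rfl

/-- the colours to the right of the window -/
lemma natc_ref_R (h1 : 0 ≤ y) (h2 : y < D.h) (h3 : D.a y ≤ x) :
    natc (refD D q) p x y = decide ((D.w - sh q + y) % 2 = 0) := by
  rw [natc_def, if_neg (by omega), if_neg (show ¬ (refD D q).h ≤ y by rw [ref_h]; omega),
    if_neg (show ¬ x < (refD D q).a y by rw [ref_a]; omega)]
  rfl

/-- colours of the positions -/
lemma colq_ref {t : ℤ} (h : t = 0 ∨ D.h + 1 ≤ t) : colq (refD D q) t = colq D t := by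
  have := D.hh
  unfold colq
  rw [ref_h]
  by_cases c1 : t = 0
  · rw [if_pos c1, if_pos c1]; rfl
  have c2 : ¬ t ≤ D.h := by omega
  rw [if_neg c1, if_neg c1, if_neg c2, if_neg c2]
  rfl

lemma colp_ref {t : ℤ} (h1 : D.h + 1 ≤ t) (h2 : t ≤ 2 * D.h + 2) :
    colp (refD D q) t = colp D t := by
  have := D.hh
  unfold colp
  rw [nP_ref]
  unfold nP
  rcases lt_or_eq_of_le h2 with h3 | h3
  · rw [Int.emod_eq_of_lt (by omega) h3]
    exact colq_ref (Or.inr h1)
  · rw [h3, Int.emod_self]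
    exact colq_ref (Or.inl rfl)

/-- **the cut `2` is a change of the colour** -/
lemma cut_ref (hh : 2 ≤ D.h) : colp (refD D q) (2 - 1) ≠ colp (refD D q) 2 := by
  unfold colp
  rw [nP_ref]
  unfold nP
  rw [Int.emod_eq_of_lt (by omega) (by omega), Int.emod_eq_of_lt (by omega) (by omega),
    colq_cr (by norm_num) (by rw [ref_h]; omega), colq_cr (by norm_num) (by rw [ref_h]; omega),
    ref_cr, ref_cr, Ne, decide_eq_decide]
  omega

/-! ### No ties on the right wall -/

/-- **no tie point on the right wall** -/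
theorem not_CA_R (g : ℤ × ℤ) : ¬ CA (refD D p) p (.R, g) := by
  obtain ⟨x, y⟩ := g
  rintro ⟨⟨h1, h2, h3⟩, ⟨h4, h5, h6⟩, k1, k2, k3, k4⟩
  simp only [ref_h, ref_w] at h1 h2 h3 h4 h5 h6
  have a1 := D.aw y h4 h5
  have a2 := D.aw (y - 1) h1 h2
  have e1 := sh_nonneg p
  have e2 := sh_le p
  rw [natc_ref_R h4 h5 (by omega), decide_eq_true_iff] at k1
  rw [natc_ref_R h1 h2 (by omega), decide_eq_true_iff] at k3
  omega

/-- **the other ties are unchanged** -/
theorem CA_ref (hs : s ≠ .R) (g : ℤ × ℤ) : CA (refD D q) p (s, g) ↔ CA D p (s, g) := by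
  obtain ⟨x, y⟩ := g
  have key : ∀ {A B : Prop}, (A → B → (y < 0 ∨ D.h ≤ y ∨ x < D.a y)) →
      (A → B → (y - 1 < 0 ∨ D.h ≤ y - 1 ∨ x < D.a (y - 1))) →
      (A ∧ B ∧ Col4 (refD D q) p x y ↔ A ∧ B ∧ Col4 D p x y) := by
    intro A B hA hB
    refine and_congr_right fun h1 => and_congr_right fun h2 => ?_
    have h3 := hA h1 h2
    have h4 := hB h1 h2
    unfold Col4
    rw [natc_ref h3, natc_ref h4, natc_ref (x := x - 1) (y := y) (by omega),
      natc_ref (x := x - 1) (y := y - 1) (by omega)]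
  have e1 := sh_nonneg p
  have e2 := sh_le p
  cases s
  · refine key ?_ ?_
    · rintro - ⟨h1, h2, h3, -, -⟩
      simp only [ref_a] at h3
      omega
    · rintro ⟨h1, h2, h3, -, -⟩ -
      simp only [ref_a] at h3
      omega
  · exact absurd rfl hs
  · refine key ?_ ?_
    · rintro - ⟨h1, h2, h3, h4, h5⟩
      simp only [ref_a, ref_h, ref_w] at h1 h2 h3 h4 h5
      by_cases c : y < 0
      · exact Or.inl c
      · have := h5 (by omega); omega
    · rintro - ⟨h1, h2, h3, h4, h5⟩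
      simp only [ref_a, ref_h, ref_w] at h1 h2 h3 h4 h5
      by_cases c : y - 1 < 0
      · exact Or.inl c
      · have h6 := h5 (by omega)
        have := drop_lo (D := D) (Y := y) (by omega) h2 (by omega) (Z := y - 1) (by omega) (by omega)
        omega
  · refine key ?_ ?_
    · rintro - ⟨h1, h2, h3, h4, h5⟩
      simp only [ref_a, ref_h, ref_w] at h1 h2 h3 h4 h5
      by_cases c : D.h ≤ y
      · exact Or.inr (Or.inl c)
      · have h6 := h5 (by omega)
        have := rise_hi (D := D) (Y := y - 1) h1 (by omega) (by omega) (Z := y) (by omega) (by omega)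
        omega
    · rintro - ⟨h1, h2, h3, h4, h5⟩
      simp only [ref_a, ref_h, ref_w] at h1 h2 h3 h4 h5
      by_cases c : D.h ≤ y - 1
      · exact Or.inr (Or.inl c)
      · have h6 := h5 (by omega)
        omega

lemma TieP_not_R {u v : ℤ} : ¬ TieP (refD D p) p .R c u v := fun h => not_CA_R _ h.2.1

lemma TieP_ref {u v : ℤ} (hs : s ≠ .R) : TieP (refD D q) p s c u v ↔ TieP D p s c u v := by
  unfold TieP
  rw [CA_ref hs]

/-- **kept tiles** -/
theorem KA_ref : KA (refD D p) p x y ↔ ∃ k, k.1 ≠ .R ∧ CA D p k ∧ kt k = (x, y) := by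
  constructor
  · rintro ⟨⟨s, g⟩, h1, h2⟩
    have hs : s ≠ .R := by rintro rfl; exact not_CA_R _ h1
    exact ⟨(s, g), hs, (CA_ref hs g).1 h1, h2⟩
  · rintro ⟨⟨s, g⟩, hs, h1, h2⟩
    exact ⟨(s, g), (CA_ref hs g).2 h1, h2⟩

/-- **removed tiles** -/
theorem RA_ref : RA' (refD D p) p x y ↔ ∃ k, k.1 ≠ .R ∧ CA D p k ∧ rt k = (x, y) := by
  constructor
  · rintro ⟨⟨s, g⟩, h1, h2⟩
    have hs : s ≠ .R := by rintro rfl; exact not_CA_R _ h1
    exact ⟨(s, g), hs, (CA_ref hs g).1 h1, h2⟩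
  · rintro ⟨⟨s, g⟩, hs, h1, h2⟩
    exact ⟨(s, g), (CA_ref hs g).2 h1, h2⟩

/-- **removed tiles which are open** -/
theorem RO_ref : RO' (refD D p) p x y ↔ ∃ k, k.1 ≠ .R ∧ CA D p k ∧ rt k = (x, y) ∧ ev k.2 = true := by
  constructor
  · rintro ⟨⟨s, g⟩, h1, h2⟩
    have hs : s ≠ .R := by rintro rfl; exact not_CA_R _ h1
    exact ⟨(s, g), hs, (CA_ref hs g).1 h1, h2⟩
  · rintro ⟨⟨s, g⟩, hs, h1, h2⟩
    exact ⟨(s, g), (CA_ref hs g).2 h1, h2⟩

/-- **ties** -/
theorem mem_TA_ref {u v : ℤ} : lt (u, v) ∈ TA (refD D p) p ↔ ∃ s c, s ≠ .R ∧ TieP D p s c u v := by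
  rw [mem_TA]
  constructor
  · rintro ⟨s, c, h⟩
    have hs : s ≠ .R := by rintro rfl; exact TieP_not_R h
    exact ⟨s, c, hs, (TieP_ref hs).1 h⟩
  · rintro ⟨s, c, hs, h⟩
    exact ⟨s, c, (TieP_ref hs).2 h⟩

theorem TA_ref_sub : TA (refD D p) p ⊆ TA D p := by
  intro e he
  obtain ⟨u, v, rfl⟩ := exists_lt (odd_TA he)
  obtain ⟨s, c, -, h⟩ := mem_TA_ref.1 he
  exact mem_TA.2 ⟨s, c, h⟩

/-! ### The frozen column -/

/-- tiles of the column to the right of the window -/
lemma LyA_R : LyA D p .R x y ↔ 0 ≤ y ∧ y < D.h ∧ x = D.w - sh p := by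
  constructor
  · rintro ⟨h1, h2, h3⟩; exact ⟨h1, h2, by omega⟩
  · rintro ⟨h1, h2, h3⟩; exact ⟨h1, h2, by omega⟩

/-- **the column is frozen** -/
theorem FRt_col (h1 : 0 ≤ y) (h2 : y < D.h) : FRt (refD D p) p (D.w - sh p) y := by
  have hR : LyA D p .R (D.w - sh p) y := LyA_R.2 ⟨h1, h2, rfl⟩
  refine ⟨hR.ring, ?_, ?_⟩
  · intro h
    obtain ⟨⟨s, g⟩, hs, h3, h4⟩ := KA_ref.1 h
    have h5 := CA.kt_ly h3
    rw [h4] at h5
    exact hs (h5.unique hR)
  · intro h
    obtain ⟨⟨s, g⟩, hs, h3, h4⟩ := RA_ref.1 h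
    have h5 := CA.rt_ly h3
    rw [h4] at h5
    exact hs (h5.unique hR)

/-- frozen tiles of the window off the column are frozen tiles of the reference, and conversely -/
theorem FRt_ref (h : x + sh p < D.w ∨ y < 0 ∨ D.h ≤ y) : FRt (refD D p) p x y ↔ FRt D p x y := by
  have hR : ¬ LyA D p .R x y := by
    intro h'
    obtain ⟨h1, h2, h3⟩ := LyA_R.1 h'
    omega
  unfold FRt
  rw [Ring_ref, KA_ref, RA_ref]
  refine and_congr_right fun _ => and_congr (not_congr ?_) (not_congr ?_)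
  · constructor
    · rintro ⟨k, -, h1, h2⟩; exact ⟨k, h1, h2⟩
    · rintro ⟨k, h1, h2⟩
      refine ⟨k, ?_, h1, h2⟩
      intro hk
      have h3 := CA.kt_ly h1
      rw [h2, hk] at h3
      exact hR h3
  · constructor
    · rintro ⟨k, -, h1, h2⟩; exact ⟨k, h1, h2⟩
    · rintro ⟨k, h1, h2⟩
      refine ⟨k, ?_, h1, h2⟩
      intro hk
      have h3 := CA.rt_ly h1
      rw [h2, hk] at h3
      exact hR h3

/-- **the column is solid**, opposite to `cb` in the lower half and to `ct` in the upper half -/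
def SolR (D : Win) (p : Bool) (S : Finset (ℤ × ℤ)) : Prop :=
  ∀ y, 0 ≤ y → y < D.h →
    (lt (D.w - sh p, y) ∈ S ↔ (if 2 * y < D.h then D.cb = false else D.ct = false))

end Pool.Agent.H72.W.N
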