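import Pool.Agent.H42.Sp.Tie
import Pool.Agent.H72.W.NRing
import Pool.Agent.H72.W.NPos

set_option autoImplicit false
open Finset

/-! # The tied form of the natural windows of the class `H54.W.Win`, all walls of both arcs

Successor of `H13/Sp/XA`. Tiles of the plane `(x, y)`, columns of `P`: `X = x + sh p`. `NearP` : the tile or
one of its eight neighbours is in `P`. `Fill` : tile which is not near `P^p`. `Ring` : tile near `P^p` and
outside of it. `LyA s` : the ring tiles with exactly one neighbour in `P^p` (to the E, W, N, S for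
`s = L, R, F, C`). `CA D p k` : tie point `k.2` of the kind `k.1` : its two inner tiles are layer tiles of this
kind, and the colour of its four tiles is wired iff the point is odd. As in `H42/Sp/Tie` : `kt k` is the kept
tile (`x + y` odd), `rt k` the removed one (open iff the point is even). `FRt` : the other ring tiles
(frozen). `ps D p x y` : position of a tile outside of `P^p` (see `NPos`). -/

namespace Pool.Agent.H72.W.N

open Pool.Agent.H75.Perc Pool.Agent.H75.TwoArm Pool.Agent.Q1 Pool.Agent.H33.Q1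
open Pool.Agent.H69.Q1
open Pool.Agent.H54.W (Win Out)
open Pool.Agent.H54.W.Win
open Pool.Agent.H42.Sp (Sd Ix kt rt kt_odd rt_even kt_Tg rt_Tg)
open Pool.Agent.H13.R45 (ev gp ev_true ev_false Tg)
open Pool.Agent.H74.R45 (exists_lt)

section Defs

variable (D : Win) (p : Bool)

/-- tiles of `P` -/
def PT (X Y : ℤ) : Prop := 0 ≤ Y ∧ Y < D.h ∧ D.a Y ≤ X ∧ X < D.w

/-- the tile `(X, Y)` or one of its eight neighbours is in `P` -/
def NearP (X Y : ℤ) : Prop :=
  ∃ Z, Y ≤ Z + 1 ∧ Z ≤ Y + 1 ∧ 0 ≤ Z ∧ Z < D.h ∧ D.a Z ≤ X + 1 ∧ X ≤ D.w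

/-- layer tiles, in the coordinates of `P` -/
def LyP : Sd → ℤ → ℤ → Prop
  | .L, X, Y => 0 ≤ Y ∧ Y < D.h ∧ X + 1 = D.a Y ∧ (1 ≤ Y → D.a Y ≤ D.a (Y - 1)) ∧
      (Y + 1 < D.h → D.a Y ≤ D.a (Y + 1))
  | .R, X, Y => 0 ≤ Y ∧ Y < D.h ∧ X = D.w
  | .F, X, Y => -1 ≤ Y ∧ Y + 1 < D.h ∧ D.a (Y + 1) ≤ X ∧ X < D.w ∧ (0 ≤ Y → X + 1 < D.a Y)
  | .C, X, Y => 1 ≤ Y ∧ Y ≤ D.h ∧ D.a (Y - 1) ≤ X ∧ X < D.w ∧ (Y < D.h → X + 1 < D.a Y)

/-- tiles which are not near `P^p` -/
def Fill (x y : ℤ) : Prop := ¬ NearP D (x + sh p) y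

/-- tiles near `P^p` and outside of it -/
def Ring (x y : ℤ) : Prop := NearP D (x + sh p) y ∧ ¬ InP D p x y

/-- layer tiles -/
def LyA (s : Sd) (x y : ℤ) : Prop := LyP D s (x + sh p) y

/-- the colour of the four tiles at the point `(x, y)` is wired iff `x + y` is odd -/
def Col4 (x y : ℤ) : Prop :=
  ((x + y) % 2 = 1 ↔ natc D p x y = true) ∧ ((x + y) % 2 = 1 ↔ natc D p (x - 1) y = true) ∧
  ((x + y) % 2 = 1 ↔ natc D p x (y - 1) = true) ∧ ((x + y) % 2 = 1 ↔ natc D p (x - 1) (y - 1) = true)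

/-- the tie points -/
def CA : Ix → Prop
  | (.L, (x, y)) => LyA D p .L x (y - 1) ∧ LyA D p .L x y ∧ Col4 D p x y
  | (.R, (x, y)) => LyA D p .R (x - 1) (y - 1) ∧ LyA D p .R (x - 1) y ∧ Col4 D p x y
  | (.F, (x, y)) => LyA D p .F (x - 1) y ∧ LyA D p .F x y ∧ Col4 D p x y
  | (.C, (x, y)) => LyA D p .C (x - 1) (y - 1) ∧ LyA D p .C x (y - 1) ∧ Col4 D p x y

/-- kept tiles -/
def KA (x y : ℤ) : Prop := ∃ k, CA D p k ∧ kt k = (x, y)

/-- removed tiles -/
def RA' (x y : ℤ) : Prop := ∃ k, CA D p k ∧ rt k = (x, y)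

/-- removed tiles which are open -/
def RO' (x y : ℤ) : Prop := ∃ k, CA D p k ∧ rt k = (x, y) ∧ ev k.2 = true

/-- frozen tiles -/
def FRt (x y : ℤ) : Prop := Ring D p x y ∧ ¬ KA D p x y ∧ ¬ RA' D p x y

/-- labels of the kept tiles -/
noncomputable def TA : Finset (ℤ × ℤ) := TB D (KA D p)

/-- frozen labels -/
noncomputable def FR : Finset (ℤ × ℤ) := TB D (FRt D p)

/-- random labels -/
noncomputable def EA : Finset (ℤ × ℤ) := EN D p ∪ TA D p

/-- open labels of the box which are not frozen -/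
noncomputable def WAb : Finset (ℤ × ℤ) := TB D fun x y => (Fill D p x y ∧ natc D p x y = true) ∨ RO' D p x y

/-- open labels -/
noncomputable def WA {D : Win} (O : OutB D) (p : Bool) (S : Finset (ℤ × ℤ)) : Finset (ℤ × ℤ) :=
  WAb D p ∪ S ∪ O.Wo

/-- position of a tile outside of `P^p` -/
def ps (_p : Bool) (x y : ℤ) : ℤ :=
  if y < 0 then 0 else if D.h ≤ y then D.h + 1
  else if x < D.a y then 2 * D.h + 1 - y else y + 1

end Defs

variable {D : Win} {p : Bool} {x y X Y : ℤ}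

/-! ### Facts about `P` -/

lemma inP_iff : InP D p x y ↔ PT D (x + sh p) y := Iff.rfl

lemma PT.near (h : PT D x Y) : NearP D x Y := by
  obtain ⟨h1, h2, h3, h4⟩ := h
  exact ⟨Y, by omega, by omega, h1, h2, by omega, by omega⟩

lemma Fill.not_inP (h : Fill D p x y) : ¬ InP D p x y := fun h' => h (PT.near h')

/-- around a drop from the row `Y` to the row `Y + 1` -/
lemma drop_rng (h0 : 0 ≤ Y) (h1 : Y + 1 < D.h) (h : D.a (Y + 1) < D.a Y) : 3 ≤ Y ∧ Y + 5 ≤ D.h := by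
  have := D.fe (Y + 1) (by omega) h1 (by rw [add_sub_cancel_right]; omega)
  omega

/-- around a rise from the row `Y - 1` to the row `Y` -/
lemma rise_rng (h0 : 1 ≤ Y) (h1 : Y < D.h) (h : D.a (Y - 1) < D.a Y) : 4 ≤ Y ∧ Y + 4 ≤ D.h := by
  have := D.fe Y (by omega) h1 (by omega)
  omega

/-- below a drop `a` is at least as large -/
lemma drop_lo (h0 : 0 ≤ Y) (h1 : Y + 1 < D.h) (h : D.a (Y + 1) < D.a Y) {Z : ℤ} (h2 : Y ≤ Z + 3)
    (h3 : Z ≤ Y) : D.a Y ≤ D.a Z := by
  have hr := drop_rng h0 h1 h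
  have key : ∀ y, 0 < y → y ≤ Y → Y ≤ y + 2 → D.a y ≤ D.a (y - 1) := by
    intro y k1 k2 k3
    by_contra hc
    have := D.ud y (Y + 1) k1 (by omega) h1 (by omega) (by rwa [add_sub_cancel_right])
    omega
  rcases (by omega : Z = Y ∨ Z = Y - 1 ∨ Z = Y - 2 ∨ Z = Y - 3) with rfl | rfl | rfl | rfl
  · exact le_rfl
  · exact key Y (by omega) le_rfl (by omega)
  · have k1 := key Y (by omega) le_rfl (by omega)
    have k2 := key (Y - 1) (by omega) (by omega) (by omega)
    rw [show Y - 1 - 1 = Y - 2 by ring] at k2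
    omega
  · have k1 := key Y (by omega) le_rfl (by omega)
    have k2 := key (Y - 1) (by omega) (by omega) (by omega)
    have k3 := key (Y - 2) (by omega) (by omega) (by omega)
    rw [show Y - 1 - 1 = Y - 2 by ring] at k2
    rw [show Y - 2 - 1 = Y - 3 by ring] at k3
    omega

/-- above a drop `a` is at most as large -/
lemma drop_hi (h0 : 0 ≤ Y) (h1 : Y + 1 < D.h) (h : D.a (Y + 1) < D.a Y) {Z : ℤ} (h2 : Y + 1 ≤ Z)
    (h3 : Z ≤ Y + 4) : D.a Z ≤ D.a (Y + 1) := by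
  have hr := drop_rng h0 h1 h
  have key : ∀ z, Y + 1 < z → z ≤ Y + 4 → D.a z ≤ D.a (z - 1) := by
    intro z k1 k2
    by_contra hc
    have := D.du (Y + 1) z (by omega) k1 (by omega) (by rwa [add_sub_cancel_right]) (by omega)
    omega
  have k1 := key (Y + 2) (by omega) (by omega)
  have k2 := key (Y + 3) (by omega) (by omega)
  have k3 := key (Y + 4) (by omega) (by omega)
  rw [show Y + 2 - 1 = Y + 1 by ring] at k1
  rw [show Y + 3 - 1 = Y + 2 by ring] at k2
  rw [show Y + 4 - 1 = Y + 3 by ring] at k3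
  rcases (by omega : Z = Y + 1 ∨ Z = Y + 2 ∨ Z = Y + 3 ∨ Z = Y + 4) with rfl | rfl | rfl | rfl <;>
    omega

/-- above a rise `a` is at least as large -/
lemma rise_hi (h0 : 1 ≤ Y) (h1 : Y < D.h) (h : D.a (Y - 1) < D.a Y) {Z : ℤ} (h2 : Y ≤ Z)
    (h3 : Z ≤ Y + 3) : D.a Y ≤ D.a Z := by
  have hr := rise_rng h0 h1 h
  have key : ∀ z, Y < z → z ≤ Y + 3 → D.a (z - 1) ≤ D.a z := by
    intro z k1 k2
    by_contra hc
    have := D.ud Y z (by omega) k1 (by omega) h (by omega)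
    omega
  have k1 := key (Y + 1) (by omega) (by omega)
  have k2 := key (Y + 2) (by omega) (by omega)
  have k3 := key (Y + 3) (by omega) (by omega)
  rw [show Y + 1 - 1 = Y by ring] at k1
  rw [show Y + 2 - 1 = Y + 1 by ring] at k2
  rw [show Y + 3 - 1 = Y + 2 by ring] at k3
  rcases (by omega : Z = Y ∨ Z = Y + 1 ∨ Z = Y + 2 ∨ Z = Y + 3) with rfl | rfl | rfl | rfl <;> omega

/-- below a rise `a` is at most as large -/
lemma rise_lo (h0 : 1 ≤ Y) (h1 : Y < D.h) (h : D.a (Y - 1) < D.a Y) {Z : ℤ} (h2 : Y ≤ Z + 4)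
    (h3 : Z + 1 ≤ Y) : D.a Z ≤ D.a (Y - 1) := by
  have hr := rise_rng h0 h1 h
  have key : ∀ y, Y ≤ y + 3 → y < Y → D.a (y - 1) ≤ D.a y := by
    intro y k1 k2
    by_contra hc
    have := D.du y Y (by omega) k2 h1 (by omega) h
    omega
  have k1 := key (Y - 1) (by omega) (by omega)
  have k2 := key (Y - 2) (by omega) (by omega)
  have k3 := key (Y - 3) (by omega) (by omega)
  rw [show Y - 1 - 1 = Y - 2 by ring] at k1
  rw [show Y - 2 - 1 = Y - 3 by ring] at k2
  rw [show Y - 3 - 1 = Y - 4 by ring] at k3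
  rcases (by omega : Z = Y - 1 ∨ Z = Y - 2 ∨ Z = Y - 3 ∨ Z = Y - 4) with rfl | rfl | rfl | rfl <;>
    omega

/-! ### Positions -/

lemma ps_rng' : 0 ≤ ps D p x y ∧ ps D p x y ≤ 2 * D.h + 1 := by
  have hh := D.hh
  unfold ps
  by_cases c1 : y < 0
  · rw [if_pos c1]; omega
  rw [if_neg c1]
  by_cases c2 : D.h ≤ y
  · rw [if_pos c2]; omega
  rw [if_neg c2]
  by_cases c3 : x < D.a y
  · rw [if_pos c3]; omega
  · rw [if_neg c3]; omega

lemma ps_rng : 0 ≤ ps D p x y ∧ ps D p x y < nP D := by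
  have := ps_rng' (D := D) (p := p) (x := x) (y := y)
  unfold nP; omega

lemma colq_cr {s : ℤ} (h1 : 1 ≤ s) (h2 : s ≤ D.h) : colq D s = D.cr (s - 1) := by
  unfold colq; rw [if_neg (by omega), if_pos h2]

lemma colq_cl {s : ℤ} (h1 : D.h + 2 ≤ s) : colq D s = D.cl (2 * D.h + 1 - s) := by
  have := D.hh
  unfold colq; rw [if_neg (by omega), if_neg (by omega), if_neg (by omega)]

lemma colq_0 : colq D 0 = D.cb := by unfold colq; rw [if_pos rfl]

lemma colq_t : colq D (D.h + 1) = D.ct := by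
  have := D.hh
  unfold colq; rw [if_neg (by omega), if_neg (by omega), if_pos rfl]

theorem colp_ps : colp D (ps D p x y) = natc D p x y := by
  have hh := D.hh
  have h1 := ps_rng (D := D) (p := p) (x := x) (y := y)
  unfold colp
  rw [Int.emod_eq_of_lt h1.1 h1.2, natc_def]
  clear h1
  unfold ps
  by_cases c1 : y < 0
  · rw [if_pos c1, if_pos c1, colq_0]
  rw [if_neg c1, if_neg c1]
  by_cases c2 : D.h ≤ y
  · rw [if_pos c2, if_pos c2, colq_t]
  rw [if_neg c2, if_neg c2]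
  by_cases c3 : x < D.a y
  · rw [if_pos c3, if_pos c3, colq_cl (by omega)]; congr 1; omega
  · rw [if_neg c3, if_neg c3, colq_cr (by omega) (by omega)]; congr 1; omega

/-! ### Fill tiles -/

/-- a fill tile in a row of `P` is to the left or to the right of it -/
lemma fill_out (h0 : 0 ≤ y) (h1 : y < D.h) (hf : Fill D p x y) :
    x + sh p + 1 < D.a y ∨ D.w < x + sh p := by
  by_contra hc
  push Not at hc
  exact hf ⟨y, by omega, by omega, h0, h1, by omega, by omega⟩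

/-- a fill tile is at the left iff `x < a y` -/
lemma fill_side (h0 : 0 ≤ y) (h1 : y < D.h) (hf : Fill D p x y) :
    (x < D.a y ↔ x + sh p + 1 < D.a y) ∧ (¬ x < D.a y ↔ D.w < x + sh p) := by
  have h2 := fill_out h0 h1 hf
  have h3 := D.aw y h0 h1
  have h4 := sh_nonneg p
  have h5 := sh_le p
  constructor <;> constructor <;> intro h <;> omega

/-- left of a left fill tile there are only fill tiles -/
lemma fill_left {x' : ℤ} (h0 : 0 ≤ y) (h1 : y < D.h) (hf : Fill D p x y) (hx : x < D.a y)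
    (hx' : x' ≤ x) : Fill D p x' y := by
  have h6 := ((fill_side h0 h1 hf).1).1 hx
  have h7 := D.aw y h0 h1
  rintro ⟨Z, h2, h3, h4, h5, h8, h9⟩
  exact hf ⟨Z, h2, h3, h4, h5, by omega, by omega⟩

/-- right of a right fill tile there are only fill tiles -/
lemma fill_right {x' : ℤ} (h0 : 0 ≤ y) (h1 : y < D.h) (hf : Fill D p x y) (hx : ¬ x < D.a y)
    (hx' : x ≤ x') : Fill D p x' y := by
  have h6 := ((fill_side h0 h1 hf).2).1 hx
  rintro ⟨Z, h2, h3, h4, h5, h8, h9⟩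
  omega

/-- columns at the left of the window -/
lemma fill_colL (hx : x + sh p + 2 ≤ D.lo) : Fill D p x y := by
  rintro ⟨Z, -, -, h4, h5, h6, -⟩
  have := D.hlo Z h4 h5
  omega

/-- columns at the right of the window -/
lemma fill_colR (hx : D.w + 1 ≤ x + sh p) : Fill D p x y := by
  rintro ⟨Z, -, -, h4, h5, -, h6⟩
  omega

/-- rows below the window -/
lemma fill_bot (hy : y < -1) : Fill D p x y := by
  rintro ⟨Z, h1, h2, h4, -, -, -⟩
  omega

/-- rows above the window -/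
lemma fill_top (hy : D.h < y) : Fill D p x y := by
  rintro ⟨Z, h1, h2, -, h4, -, -⟩
  omega

/-! ### Layer tiles -/

/-- direction towards `P` -/
def dr : Sd → ℤ × ℤ
  | .L => (1, 0)
  | .R => (-1, 0)
  | .F => (0, 1)
  | .C => (0, -1)

/-- the inner neighbour of a layer tile is in `P` -/
lemma lyP_in {s : Sd} (h : LyP D s x Y) : PT D (x + (dr s).1) (Y + (dr s).2) := by
  cases s
  · obtain ⟨h1, h2, h3, h4, h5⟩ := h
    have := D.aw Y h1 h2
    unfold PT dr; simp only; rw [add_zero]; omega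
  · obtain ⟨h1, h2, h3⟩ := h
    have := D.aw Y h1 h2
    unfold PT dr; simp only; rw [add_zero]; omega
  · obtain ⟨h1, h2, h3, h4, h5⟩ := h
    unfold PT dr; simp only; rw [add_zero]; omega
  · obtain ⟨h1, h2, h3, h4, h5⟩ := h
    unfold PT dr; simp only; rw [add_zero, ← sub_eq_add_neg]; omega

/-- a layer tile is not in `P` -/
lemma lyP_out {s : Sd} (h : LyP D s x Y) : ¬ PT D x Y := by
  cases s
  · obtain ⟨h1, h2, h3, h4, h5⟩ := h
    unfold PT; omega
  · obtain ⟨h1, h2, h3⟩ := h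
    unfold PT; omega
  · obtain ⟨h1, h2, h3, h4, h5⟩ := h
    unfold PT
    intro h6
    have := h5 h6.1
    omega
  · obtain ⟨h1, h2, h3, h4, h5⟩ := h
    unfold PT
    intro h6
    have := h5 h6.2.1
    omega

/-- the outer neighbour of a layer tile is not near `P` -/
lemma lyP_far {s : Sd} (h : LyP D s x Y) : ¬ NearP D (x - (dr s).1) (Y - (dr s).2) := by
  cases s
  · obtain ⟨h1, h2, h3, h4, h5⟩ := h
    unfold dr; simp only; rw [sub_zero]
    rintro ⟨Z, k1, k2, k3, k4, k5, k6⟩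
    have h : Z = Y - 1 ∨ Z = Y ∨ Z = Y + 1 := by omega
    rcases h with rfl | rfl | rfl
    · have := h4 (by omega); omega
    · omega
    · have := h5 (by omega); omega
  · obtain ⟨h1, h2, h3⟩ := h
    unfold dr; simp only; rw [sub_zero]
    rintro ⟨Z, k1, k2, k3, k4, k5, k6⟩
    omega
  · obtain ⟨h1, h2, h3, h4, h5⟩ := h
    unfold dr; simp only; rw [sub_zero]
    rintro ⟨Z, k1, k2, k3, k4, k5, k6⟩
    have h6 := h5 (by omega)
    have := drop_lo (D := D) (Y := Y) (by omega) h2 (by omega) (Z := Z) (by omega) (by omega)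
    omega
  · obtain ⟨h1, h2, h3, h4, h5⟩ := h
    unfold dr; simp only; rw [sub_zero, sub_neg_eq_add]
    rintro ⟨Z, k1, k2, k3, k4, k5, k6⟩
    have h6 := h5 (by omega)
    have := rise_hi (D := D) (Y := Y) h1 (by omega) (by omega) (Z := Z) (by omega) (by omega)
    omega

/-- the kind of a layer tile is unique -/
lemma lyP_unique {s s' : Sd} (h : LyP D s x Y) (h' : LyP D s' x Y) : s = s' := by
  have kLR : ¬ (LyP D .L x Y ∧ LyP D .R x Y) := by
    rintro ⟨⟨h1, h2, h3, h4, h5⟩, k1, k2, k3⟩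
    have := D.aw Y h1 h2; omega
  have kLF : ¬ (LyP D .L x Y ∧ LyP D .F x Y) := by
    rintro ⟨⟨h1, h2, h3, h4, h5⟩, k1, k2, k3, k4, k5⟩
    have := k5 h1; omega
  have kLC : ¬ (LyP D .L x Y ∧ LyP D .C x Y) := by
    rintro ⟨⟨h1, h2, h3, h4, h5⟩, k1, k2, k3, k4, k5⟩
    have := k5 h2; omega
  have kRF : ¬ (LyP D .R x Y ∧ LyP D .F x Y) := by
    rintro ⟨⟨h1, h2, h3⟩, k1, k2, k3, k4, k5⟩
    omega
  have kRC : ¬ (LyP D .R x Y ∧ LyP D .C x Y) := by
    rintro ⟨⟨h1, h2, h3⟩, k1, k2, k3, k4, k5⟩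
    omega
  have kFC : ¬ (LyP D .F x Y ∧ LyP D .C x Y) := by
    rintro ⟨⟨h1, h2, h3, h4, h5⟩, k1, k2, k3, k4, k5⟩
    have h6 := h5 (by omega)
    have h7 := k5 (by omega)
    have h8 := drop_lo (D := D) (Y := Y) (by omega) h2 (by omega) (Z := Y - 1) (by omega) (by omega)
    omega
  cases s <;> cases s' <;> first | rfl | (exfalso; tauto)

/-- a layer tile is near the window -/
lemma lyP_box {s : Sd} (h : LyP D s x Y) : D.lo ≤ x + 1 ∧ x ≤ D.w ∧ -1 ≤ Y ∧ Y ≤ D.h := by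
  cases s
  · obtain ⟨h1, h2, h3, h4, h5⟩ := h
    have := D.aw Y h1 h2
    have := D.hlo Y h1 h2
    omega
  · obtain ⟨h1, h2, h3⟩ := h
    have := D.aw Y h1 h2
    have := D.hlo Y h1 h2
    omega
  · obtain ⟨h1, h2, h3, h4, h5⟩ := h
    have := D.hlo (Y + 1) (by omega) h2
    omega
  · obtain ⟨h1, h2, h3, h4, h5⟩ := h
    have := D.hlo (Y - 1) (by omega) (by omega)
    omega

section world

variable {s : Sd}

lemma LyA.inn (h : LyA D p s x y) : InP D p (x + (dr s).1) (y + (dr s).2) := by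
  have := lyP_in h
  rw [inP_iff]
  rwa [show x + (dr s).1 + sh p = x + sh p + (dr s).1 by ring]

lemma LyA.out (h : LyA D p s x y) : ¬ InP D p x y := lyP_out h

lemma LyA.far (h : LyA D p s x y) : Fill D p (x - (dr s).1) (y - (dr s).2) := by
  have := lyP_far h
  unfold Fill
  rwa [show x - (dr s).1 + sh p = x + sh p - (dr s).1 by ring]

lemma LyA.unique {s' : Sd} (h : LyA D p s x y) (h' : LyA D p s' x y) : s = s' := lyP_unique h h'

lemma LyA.box (h : LyA D p s x y) : D.lo ≤ x + 2 ∧ x ≤ D.w ∧ -1 ≤ y ∧ y ≤ D.h := by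
  have h1 := lyP_box h
  have h2 := sh_nonneg p
  have h3 := sh_le p
  omega

lemma LyA.near (h : LyA D p s x y) : NearP D (x + sh p) y := by
  obtain ⟨h1, h2, h3, h4⟩ := lyP_in h
  refine ⟨y + (dr s).2, ?_, ?_, h1, h2, ?_, ?_⟩ <;> cases s <;> simp only [dr] at h3 h4 ⊢ <;> omega

lemma LyA.ring (h : LyA D p s x y) : Ring D p x y := ⟨h.near, h.out⟩

/-- the box contains the tiles around a layer tile -/
lemma LyA.inB {u v : ℤ} (h : LyA D p s x y) (h1 : x ≤ u + 2) (h2 : u ≤ x + 2) (h3 : y ≤ v + 2)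
    (h4 : v ≤ y + 2) : InB D u v := by
  have h5 := h.box
  unfold InB
  omega

end world

end Pool.Agent.H72.W.N
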