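import Mathlib
import Pool.Agent.H45.W.Ends

set_option autoImplicit false
open Finset

/-! # Where a strand can end: weaker facts at a deleted tile of the wall layer, superfluous tiles

`WldV` = 45's `Wld` with weaker facts at a deleted tile of the layer (only if the strand really comes).
`Ext` : the tiles of `Λ₂ \ Λ` (diagonal tiles between open walls) are never visited. Then everything
holds in `SG Λ₂ D w`. -/

namespace Pool.Agent.H72.W.V

open Pool.Agent.H75.Perc Pool.Agent.H75.TwoArm Pool.Agent.H99.W Pool.Agent.H13.W Pool.Agent.H47.W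
open Pool.Agent.H45.W

variable {Q Λ Λ₂ D : Set (ℤ × ℤ)} {w : Finset (ℤ × ℤ)} {F : Set (ℤ × ℤ)} {c d e e' P : ℤ × ℤ}

/-- **Local facts near the walls.** -/
structure WldV (Q Λ D : Set (ℤ × ℤ)) (w : Finset (ℤ × ℤ)) (F : Set (ℤ × ℤ)) : Prop where
  odd : ∀ e ∈ Λ, od e
  sub : Q ⊆ Λ
  /-- the tiles next to `Q` belong to `Λ` -/
  lay : ∀ e ∈ Q, ∀ c, sq c e → ot c e ∈ Λ
  /-- the next layer tile round a point of `Q` -/
  nxt : ∀ P e c, PB Q P → ev P → e ∈ Λ → e ∉ Q → e ∉ D → (e ∈ w ↔ P.1 % 2 = 1) → sq c e → sq c P →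
    ot c e ∈ Q ∨ Pass Λ D w F (ot c e) c P
  /-- a deleted tile of the layer: no neighbour above, below in `Q` -/
  dnq : ∀ e ∈ Λ, e ∈ D → e ∉ Q → up e ∉ Q ∧ H13.W.dn e ∉ Q
  /-- a deleted tile of the layer: upwards -/
  dup : ∀ e ∈ Λ, e ∈ D → e ∉ Q → ∀ P, PB Q P → ev P → sq (eS e) P →
    Pass Λ D w F (H13.W.dn e) (eS e) P → PB Q (up P) ∧ Pass Λ D w F (up e) (eN e) (up P)
  /-- a deleted tile of the layer: downwards -/
  ddn : ∀ e ∈ Λ, e ∈ D → e ∉ Q → ∀ P, PB Q P → ev P → sq (eN e) P →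
    Pass Λ D w F (up e) (eN e) P → PB Q (H13.W.dn P) ∧ Pass Λ D w F (H13.W.dn e) (eS e) (H13.W.dn P)
  /-- the ends of the deleted rows belong to `F` -/
  row : ∀ e ∈ Λ, e ∈ D → (e ∈ Q ∨ rt e ∈ Q → eE e ∈ F ∨ rt e ∈ D) ∧
    (e ∈ Q ∨ lf e ∈ Q → eW e ∈ F ∨ lf e ∈ D)

/-- the tiles of `Λ₂ \ Λ` are not visited -/
structure Ext (Q Λ Λ₂ F : Set (ℤ × ℤ)) : Prop where
  sub : Λ ⊆ Λ₂
  ext : ∀ e ∈ Λ₂, e ∉ Λ → ∀ c, sq c e → c ∉ F ∧ ∀ q ∈ Q, ¬ sq c q

variable (H : WldV Q Λ D w F)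
include H

lemma WldV.oddQ (he : e ∈ Q) : od e := H.odd e (H.sub he)

/-- both sides of a tile of `Q` are visited -/
theorem WldV.closed (hc : AS Q Λ D w F c) (h : (SG Λ D w).Adj c d) : AS Q Λ D w F d := by
  classical
  obtain ⟨e, heΛ, hT⟩ := h
  obtain ⟨he, h1, h2⟩ := TJ.sqs hT
  by_cases heQ : e ∈ Q
  · exact Or.inl ⟨e, heQ, h2⟩
  by_cases heD : e ∈ D
  · -- a deleted tile of the layer
    have hcd : (c = eS e ∧ d = eN e) ∨ (d = eS e ∧ c = eN e) := by
      rcases hT with ⟨-, -, h⟩ | ⟨h, -⟩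
      · exact h
      · exact absurd heD h
    obtain ⟨nu, nd⟩ := H.dnq e heΛ heD heQ
    rcases hcd with ⟨rfl, rfl⟩ | ⟨rfl, rfl⟩
    · -- from the south
      rcases hc with ⟨e1, he1, hs⟩ | ⟨P, g1, g2, g3, g4⟩
      · exfalso
        rcases lab_cases' he h1 (H.oddQ he1) hs with h | h
        · exact heQ (h ▸ he1)
        · rw [ot_eS] at h; exact nd (h ▸ he1)
      · have hp := g4 (H13.W.dn e) (by rw [← ot_eS]; exact od_ot he)
          (by rw [← ot_eS]; exact sq_ot h1)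
        obtain ⟨j1, j2⟩ := H.dup e heΛ heD heQ P g3 g1 g2 hp
        refine Or.inr ⟨up P, ev_up g1, sq_up g2, j1, fun e' o' s' => ?_⟩
        rcases lab_cases' he h2 o' s' with h | h
        · rw [h]; exact Or.inr (Or.inl ⟨heΛ, heD, Or.inr rfl⟩)
        · rw [ot_eN] at h
          rw [h]; exact j2
    · -- from the north
      rcases hc with ⟨e1, he1, hs⟩ | ⟨P, g1, g2, g3, g4⟩
      · exfalso
        rcases lab_cases' he h1 (H.oddQ he1) hs with h | h
        · exact heQ (h ▸ he1)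
        · rw [ot_eN] at h; exact nu (h ▸ he1)
      · have hp := g4 (up e) (by rw [← ot_eN]; exact od_ot he)
          (by rw [← ot_eN]; exact sq_ot h1)
        obtain ⟨j1, j2⟩ := H.ddn e heΛ heD heQ P g3 g1 g2 hp
        refine Or.inr ⟨H13.W.dn P, ev_dn g1, sq_dn g2, j1, fun e' o' s' => ?_⟩
        rcases lab_cases' he h2 o' s' with h | h
        · rw [h]; exact Or.inr (Or.inl ⟨heΛ, heD, Or.inl rfl⟩)
        · rw [ot_eS] at h
          rw [h]; exact j2
  · -- a natural tile of the layer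
    obtain ⟨P, g1, g2, g3, g4⟩ := TJ_pt heD hT
    have hP : PB Q P := by
      rcases hc with ⟨e1, he1, hs⟩ | ⟨P0, k1, k2, k3, k4⟩
      · exact ⟨e1, he1, c, hs, g2⟩
      · have : P0 = P := by
          refine pt_uniq k1 g1 k2 g2 ?_
          rcases k4 e he h1 with h | h | h
          · have := h.2.2
            rw [g4] at this
            omega
          · exact absurd h.2.1 heD
          · exact absurd heΛ h.1
        rw [← this]; exact k3
    rcases H.nxt P e d hP g1 heΛ heQ heD g4 h2 g3 with h | h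
    · exact Or.inl ⟨_, h, sq_ot h2⟩
    · refine Or.inr ⟨P, g1, g3, hP, fun e' o' s' => ?_⟩
      rcases lab_cases' he h2 o' s' with k | k
      · rw [k]; exact Or.inl ⟨heΛ, heD, g4⟩
      · rw [k]; exact h

omit H in
/-- a visited side has no neighbour through a superfluous tile -/
lemma Ext.adj (X : Ext Q Λ Λ₂ F) (hc : AS Q Λ D w F c) (h : (SG Λ₂ D w).Adj c d) :
    (SG Λ D w).Adj c d := by
  classical
  obtain ⟨e, heΛ, hT⟩ := h
  by_cases hx : e ∈ Λ
  · exact ⟨e, hx, hT⟩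
  · exfalso
    obtain ⟨he, h1, -⟩ := TJ.sqs hT
    obtain ⟨x1, x2⟩ := X.ext e heΛ hx c h1
    rcases hc with ⟨q, hq, hs⟩ | ⟨P, -, -, -, g4⟩
    · exact x2 q hq hs
    · rcases g4 e he h1 with h | h | h
      · exact hx h.1
      · exact hx h.1
      · exact x1 h.2

/-- the strand stays among the visited sides -/
theorem WldV.reach_mem (X : Ext Q Λ Λ₂ F) (hc : AS Q Λ D w F c)
    (h : (SG Λ₂ D w).Reachable c d) : AS Q Λ D w F d := by
  obtain ⟨p⟩ := h
  induction p with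
  | nil => exact hc
  | cons ha _ ih => exact ih (H.closed hc (X.adj hc ha))

/-- **an end of a strand from `Q` belongs to `F`** -/
theorem WldV.end_mem (X : Ext Q Λ Λ₂ F) (hc : AS Q Λ D w F c) (hE : IsEnd (SG Λ₂ D w) c)
    (hn : ∃ x, (SG Λ₂ D w).Adj c x) : c ∈ F := by
  have mono : ∀ {x : ℤ × ℤ}, (SG Λ D w).Adj c x → (SG Λ₂ D w).Adj c x :=
    fun ⟨e, he, hT⟩ => ⟨e, X.sub he, hT⟩
  have hE : IsEnd (SG Λ D w) c := fun x y hx hy => hE x y (mono hx) (mono hy)
  replace hn : ∃ x, (SG Λ D w).Adj c x := by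
    obtain ⟨x, hx⟩ := hn
    exact ⟨x, X.adj hc hx⟩
  by_contra hF
  rcases hc with ⟨e, heQ, hs⟩ | ⟨P, g1, g2, g3, g4⟩
  · have he := H.oddQ heQ
    -- a deleted tile with `c` as west or east side
    have key : ∀ e, e ∈ Λ → sq c e → e ∈ Q ∨ ot c e ∈ Q → e ∈ D → c ≠ eS e → c ≠ eN e →
        False := by
      intro e heΛ hs hq heD n1 n2
      have he := H.odd e heΛ
      obtain ⟨r1, r2⟩ := H.row e heΛ heD
      rcases (sq_iff he).1 hs with h | h | h | h
      · have hq' := hq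
        rw [h, ot_eW] at hq'
        replace r2 := r2 hq'
        rw [← h] at r2
        rcases r2 with r2 | r2
        · exact hF r2
        · rw [← ot_eW, ← h] at r2
          obtain ⟨x, e', he', hT⟩ := hn
          obtain ⟨a1, a2, -⟩ := TJ.sqs hT
          rcases lab_cases' he hs a1 a2 with k | k
          · rw [k] at hT
            exact not_TJ_eW heD (h ▸ hT)
          · rw [k] at hT
            have h5 : c = eE (ot c e) := by
              rw [h, ot_eW]; unfold eW lf eE; simp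
            obtain ⟨g, hg⟩ : ∃ g, g = ot c e := ⟨_, rfl⟩
            rw [← hg] at hT r2 h5
            rw [h5] at hT
            exact not_TJ_eE r2 hT
      · have hq' := hq
        rw [h, ot_eE] at hq'
        replace r1 := r1 hq'
        rw [← h] at r1
        rcases r1 with r1 | r1
        · exact hF r1
        · rw [← ot_eE, ← h] at r1
          obtain ⟨x, e', he', hT⟩ := hn
          obtain ⟨a1, a2, -⟩ := TJ.sqs hT
          rcases lab_cases' he hs a1 a2 with k | k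
          · rw [k] at hT
            exact not_TJ_eE heD (h ▸ hT)
          · rw [k] at hT
            have h5 : c = eW (ot c e) := by
              rw [h, ot_eE]; rfl
            obtain ⟨g, hg⟩ : ∃ g, g = ot c e := ⟨_, rfl⟩
            rw [← hg] at hT r1 h5
            rw [h5] at hT
            exact not_TJ_eW r1 hT
      · exact n1 h
      · exact n2 h
    have hl := H.lay e heQ c hs
    by_cases k1 : e ∉ D ∨ c = eS e ∨ c = eN e
    · by_cases k2 : ot c e ∉ D ∨ c = eS (ot c e) ∨ c = eN (ot c e)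
      · exact not_isEnd he hs (H.sub heQ) hl k1 k2 hE
      · push Not at k2
        exact key (ot c e) hl (sq_ot hs) (Or.inr (by rw [ot_ot]; exact heQ)) k2.1 k2.2.1 k2.2.2
    · push Not at k1
      exact key e (H.sub heQ) hs (Or.inl heQ) k1.1 k1.2.1 k1.2.2
  · obtain ⟨x, e, heΛ, hT⟩ := hn
    obtain ⟨a1, a2, -⟩ := TJ.sqs hT
    have h1 := g4 e a1 a2
    have h2 := g4 _ (od_ot (c := c) a1) (sq_ot a2)
    have c1 : e ∉ D ∨ c = eS e ∨ c = eN e := by
      rcases h1 with h | h | h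
      · exact Or.inl h.2.1
      · exact Or.inr h.2.2
      · exact absurd h.2 hF
    have c2 : ot c e ∈ Λ ∧ (ot c e ∉ D ∨ c = eS (ot c e) ∨ c = eN (ot c e)) := by
      rcases h2 with h | h | h
      · exact ⟨h.1, Or.inl h.2.1⟩
      · exact ⟨h.1, Or.inr h.2.2⟩
      · exact absurd h.2 hF
    exact not_isEnd a1 a2 heΛ c2.1 c1 c2.2 hE

/-- **existence of the far end** -/
theorem WldV.far_exists (X : Ext Q Λ Λ₂ F) (hfin : Λ₂.Finite) (hc : AS Q Λ D w F c)
    (hE : IsEnd (SG Λ₂ D w) c) (hn : ∃ x, (SG Λ₂ D w).Adj c x) :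
    ∃ y ∈ F, y ≠ c ∧ IsEnd (SG Λ₂ D w) y ∧ AS Q Λ D w F y ∧ (∃ x, (SG Λ₂ D w).Adj y x) ∧
      (SG Λ₂ D w).Reachable c y := by
  obtain ⟨y, h1, h2, h3⟩ := sg_partner hfin hE hn
  have h4 := H.reach_mem X hc h3
  have h5 : ∃ x, (SG Λ₂ D w).Adj y x := by
    obtain ⟨p⟩ := h3.symm
    cases p with
    | nil => exact absurd rfl h1
    | cons h _ => exact ⟨_, h⟩
  exact ⟨y, H.end_mem X h4 h2 h5, h1, h2, h4, h5, h3⟩

end Pool.Agent.H72.W.V
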