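import Mathlib
import Pool.Agent.H72.W.EndsA
import Pool.Agent.H74.W.World

set_option autoImplicit false
open Finset

/-! # Geometry at a wall point of a polygon, in label coordinates

`pq p` : grid point; the four tiles at the point `P` are `P + dir m`, `cs P m` is the side between
`P + dir m` and `P + dir (m + 1)`. `W n s j` : wall point of the side `s`. -/

namespace Pool.Agent.H72.W.V

open Pool.Agent.H75.Perc hiding WL CT hh PB
open Pool.Agent.H75.TwoArm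
open Pool.Agent.H99.W Pool.Agent.H13.W
open Pool.Agent.H45.W
open Pool.Agent.H33.Q1 (lt tt lt_odd tt_lt lt_tt lt_inj ct ct_eq ct_of LY mem_LY mem_LY' wp io it io_dir
  ct_add_dir ct_it ct_ot ot_eq isSide_side')
open Pool.Agent.Q1.M4 (Cell Good IsSide nextSide tail head PType)

/-- the grid point `p` in label coordinates -/
def pq (p : ℤ × ℤ) : ℤ × ℤ := (p.1 - p.2, p.1 + p.2)

/-- the side between the tiles `P + dir m` and `P + dir (m + 1)` -/
def cs (P : ℤ × ℤ) (m : ℤ) : ℤ × ℤ :=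
  if m % 4 = 0 then (P.1 + 1, P.2 + 1) else if m % 4 = 1 then (P.1, P.2 + 1)
  else if m % 4 = 2 then P else (P.1 + 1, P.2)

/-- wall point -/
def W (n : ℤ) (s : Cell × ℤ) (j : ℤ) : ℤ × ℤ := pq (wp n s j)

/-- tile of the wall layer -/
def T (n : ℤ) (s : Cell × ℤ) (j : ℤ) : ℤ × ℤ := lt (Pool.Agent.H33.Q1.ot n s j)

lemma ev_pq (p : ℤ × ℤ) : ev (pq p) := by unfold ev pq; simp only; omega

lemma ev_W (n : ℤ) (s : Cell × ℤ) (j : ℤ) : ev (W n s j) := ev_pq _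

lemma exists_pq {P : ℤ × ℤ} (h : ev P) : ∃ p, P = pq p := by
  refine ⟨((P.1 + P.2) / 2, (P.2 - P.1) / 2), ?_⟩
  unfold ev at h
  unfold pq
  refine Prod.ext ?_ ?_ <;> simp only <;> omega

lemma dirc {m m' : ℤ} (h : m % 4 = m' % 4) : dir m = dir m' := Pool.Agent.H21.FM.dir_congr h

lemma cs_congr (P : ℤ × ℤ) {m m' : ℤ} (h : m % 4 = m' % 4) : cs P m = cs P m' := by
  unfold cs; rw [h]

lemma od_dir {P : ℤ × ℤ} (h : ev P) (m : ℤ) : od (P + dir m) := by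
  unfold od ev at *
  rcases dir_cases m with ⟨-, e⟩ | ⟨-, e⟩ | ⟨-, e⟩ | ⟨-, e⟩ <;> rw [e] <;>
    simp only [Prod.fst_add, Prod.snd_add] <;> omega

/-- consecutive directions -/
lemma dir_two (m : ℤ) : (m % 4 = 0 ∧ dir m = (1, 0) ∧ dir (m + 1) = (0, 1)) ∨
    (m % 4 = 1 ∧ dir m = (0, 1) ∧ dir (m + 1) = (-1, 0)) ∨
    (m % 4 = 2 ∧ dir m = (-1, 0) ∧ dir (m + 1) = (0, -1)) ∨
    (m % 4 = 3 ∧ dir m = (0, -1) ∧ dir (m + 1) = (1, 0)) := by
  rcases dir_cases m with ⟨h, e⟩ | ⟨h, e⟩ | ⟨h, e⟩ | ⟨h, e⟩ <;>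
    rcases dir_cases (m + 1) with ⟨h', e'⟩ | ⟨h', e'⟩ | ⟨h', e'⟩ | ⟨h', e'⟩ <;>
    first
    | (exfalso; omega)
    | (simp only [h, e, e']; norm_num)

lemma sq_cs (P : ℤ × ℤ) (m : ℤ) : sq (cs P m) P ∧ sq (cs P m) (P + dir m) ∧
    sq (cs P m) (P + dir (m + 1)) := by
  unfold H45.W.sq cs
  rcases dir_two m with ⟨h, e, e'⟩ | ⟨h, e, e'⟩ | ⟨h, e, e'⟩ | ⟨h, e, e'⟩ <;> rw [e, e', h] <;>
    simp [sub_eq_add_neg]

lemma ot_cs (P : ℤ × ℤ) (m : ℤ) : H45.W.ot (cs P m) (P + dir m) = P + dir (m + 1) ∧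
    H45.W.ot (cs P m) (P + dir (m + 1)) = P + dir m := by
  unfold H45.W.ot cs
  rcases dir_two m with ⟨h, e, e'⟩ | ⟨h, e, e'⟩ | ⟨h, e, e'⟩ | ⟨h, e, e'⟩ <;> rw [e, e', h] <;>
    norm_num <;> refine ⟨Prod.ext ?_ ?_, Prod.ext ?_ ?_⟩ <;> simp <;> ring

/-- the tile and the side at a point -/
lemma at_pt {e c P : ℤ × ℤ} (he : od e) (hP : ev P) (h1 : sq c e) (h2 : sq c P) :
    ∃ m, e = P + dir m ∧ (c = cs P m ∨ c = cs P (m - 1)) := by
  have a := sides_at he hP h1 h2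
  have d0 : dir 0 = (1, 0) := by
    rcases dir_cases 0 with ⟨h, e⟩ | ⟨h, e⟩ | ⟨h, e⟩ | ⟨h, e⟩ <;> first | (exfalso; omega) | exact e
  have d1 : dir 1 = (0, 1) := by
    rcases dir_cases 1 with ⟨h, e⟩ | ⟨h, e⟩ | ⟨h, e⟩ | ⟨h, e⟩ <;> first | (exfalso; omega) | exact e
  have d2 : dir 2 = (-1, 0) := by
    rcases dir_cases 2 with ⟨h, e⟩ | ⟨h, e⟩ | ⟨h, e⟩ | ⟨h, e⟩ <;> first | (exfalso; omega) | exact e
  have d3 : dir 3 = (0, -1) := by
    rcases dir_cases 3 with ⟨h, e⟩ | ⟨h, e⟩ | ⟨h, e⟩ | ⟨h, e⟩ <;> first | (exfalso; omega) | exact e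
  obtain ⟨x, y⟩ := e
  rcases a with ⟨rfl, a⟩ | ⟨rfl, a⟩ | ⟨rfl, a⟩ | ⟨rfl, a⟩
  · refine ⟨0, by rw [d0]; simp, ?_⟩
    rcases a with rfl | rfl <;> simp [cs, eW, eN]
  · refine ⟨2, by rw [d2]; simp, ?_⟩
    rcases a with rfl | rfl <;> simp [cs, eS, eE]
  · refine ⟨1, by rw [d1]; simp, ?_⟩
    rcases a with rfl | rfl <;> simp [cs, eW, eS]
  · refine ⟨3, by rw [d3]; simp, ?_⟩
    rcases a with rfl | rfl <;> simp [cs, eN, eE]

/-- moving round a point -/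
lemma tt_succ {P : ℤ × ℤ} (hP : ev P) (m : ℤ) : tt (P + dir (m + 1)) = tt (P + dir m) + dir (m + 1) := by
  obtain ⟨p, rfl⟩ := exists_pq hP
  obtain ⟨x, y⟩ := p
  unfold tt pq
  rcases dir_two m with ⟨h, e, e'⟩ | ⟨h, e, e'⟩ | ⟨h, e, e'⟩ | ⟨h, e, e'⟩ <;> rw [e, e'] <;>
    refine Prod.ext ?_ ?_ <;> simp only [Prod.fst_add, Prod.snd_add] <;> omega

section side

variable {n : ℤ} {s : Cell × ℤ} {j : ℤ}

lemma W_succ : W n s (j + 1) = W n s j + pq (dir s.2) := by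
  unfold W pq wp
  refine Prod.ext ?_ ?_ <;> simp only [Prod.fst_add, Prod.snd_add] <;> ring

/-- outer tile after the wall point -/
lemma T_eq (n : ℤ) (s : Cell × ℤ) (j : ℤ) : T n s j = W n s j + dir s.2 := by
  unfold T W
  obtain ⟨o0, o1, o2, o3⟩ := ot_eq n s j
  generalize wp n s j = p at *
  obtain ⟨x, y⟩ := p
  rcases dir_cases s.2 with ⟨h, e⟩ | ⟨h, e⟩ | ⟨h, e⟩ | ⟨h, e⟩ <;> rw [e]
  · rw [o0 h]; unfold lt pq; refine Prod.ext ?_ ?_ <;> simp only [Prod.fst_add, Prod.snd_add] <;> ring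
  · rw [o1 h]; unfold lt pq; refine Prod.ext ?_ ?_ <;> simp only [Prod.fst_add, Prod.snd_add] <;> ring
  · rw [o2 h]; unfold lt pq; refine Prod.ext ?_ ?_ <;> simp only [Prod.fst_add, Prod.snd_add] <;> ring
  · rw [o3 h]; unfold lt pq; refine Prod.ext ?_ ?_ <;> simp only [Prod.fst_add, Prod.snd_add] <;> ring

/-- outer tile before the wall point -/
lemma T_eq' (n : ℤ) (s : Cell × ℤ) (j : ℤ) : T n s j = W n s (j + 1) + dir (s.2 - 1) := by
  rw [T_eq, W_succ]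
  rcases io_dir s.2 with ⟨-, -, c, d⟩ | ⟨-, -, c, d⟩ | ⟨-, -, c, d⟩ | ⟨-, -, c, d⟩ <;> rw [c, d] <;>
    unfold pq <;> refine Prod.ext ?_ ?_ <;> simp only [Prod.fst_add, Prod.snd_add] <;> ring

/-- inner tile after the wall point -/
lemma I_eq (n : ℤ) (s : Cell × ℤ) (j : ℤ) : lt (it n s j) = W n s j + dir (s.2 + 1) := by
  unfold W it
  generalize wp n s j = p at *
  obtain ⟨x, y⟩ := p
  rcases io_dir s.2 with ⟨a, b, -, -⟩ | ⟨a, b, -, -⟩ | ⟨a, b, -, -⟩ | ⟨a, b, -, -⟩ <;>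
    rcases dir_cases (s.2 + 1) with ⟨a', e⟩ | ⟨a', e⟩ | ⟨a', e⟩ | ⟨a', e⟩ <;>
    first
    | (exfalso; omega)
    | (rw [b, e]; unfold lt pq; refine Prod.ext ?_ ?_ <;>
        simp only [Prod.fst_add, Prod.snd_add] <;> ring)

/-- inner tile before the wall point -/
lemma I_eq' (n : ℤ) (s : Cell × ℤ) (j : ℤ) : lt (it n s j) = W n s (j + 1) + dir (s.2 + 2) := by
  rw [I_eq, W_succ]
  rcases io_dir s.2 with ⟨a, -, c, -⟩ | ⟨a, -, c, -⟩ | ⟨a, -, c, -⟩ | ⟨a, -, c, -⟩ <;>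
    rcases dir_two (s.2 + 1) with ⟨a', e, e'⟩ | ⟨a', e, e'⟩ | ⟨a', e, e'⟩ | ⟨a', e, e'⟩ <;>
    first
    | (exfalso; omega)
    | (rw [show s.2 + 2 = s.2 + 1 + 1 by ring, c, e, e']; unfold pq
       refine Prod.ext ?_ ?_ <;> simp only [Prod.fst_add, Prod.snd_add] <;> ring)

/-- the type of a wall point -/
lemma W_par {h : ℕ} (s : Cell × ℤ) (j : ℤ) : (W (2 * h) s j).1 % 2 = j % 2 := by
  unfold W pq wp
  have e : ∀ a b d : ℤ, 2 * (h : ℤ) * a + d - 2 * (h : ℤ) * b = 2 * ((h : ℤ) * a - (h : ℤ) * b) + d := by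
    intros; ring
  rcases dir_cases s.2 with ⟨-, e'⟩ | ⟨-, e'⟩ | ⟨-, e'⟩ | ⟨-, e'⟩ <;> rw [e'] <;> simp only
  · have : 2 * (h : ℤ) * (tail s).1 + j * 1 - (2 * (h : ℤ) * (tail s).2 + j * 0) =
      2 * ((h : ℤ) * (tail s).1 - (h : ℤ) * (tail s).2) + j := by ring
    rw [this]; omega
  · have : 2 * (h : ℤ) * (tail s).1 + j * 0 - (2 * (h : ℤ) * (tail s).2 + j * 1) =
      2 * ((h : ℤ) * (tail s).1 - (h : ℤ) * (tail s).2) - j := by ring
    rw [this]; omega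
  · have : 2 * (h : ℤ) * (tail s).1 + j * -1 - (2 * (h : ℤ) * (tail s).2 + j * 0) =
      2 * ((h : ℤ) * (tail s).1 - (h : ℤ) * (tail s).2) - j := by ring
    rw [this]; omega
  · have : 2 * (h : ℤ) * (tail s).1 + j * 0 - (2 * (h : ℤ) * (tail s).2 + j * -1) =
      2 * ((h : ℤ) * (tail s).1 - (h : ℤ) * (tail s).2) + j := by ring
    rw [this]; omega

lemma od_T : od (T n s j) := lt_odd _

lemma T_congr {s' : Cell × ℤ} (h1 : s'.1 = s.1) (h2 : s'.2 % 4 = s.2 % 4) :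
    T n s' j = T n s j ∧ W n s' j = W n s j := by
  have ht : tail s' = tail s := by
    unfold tail; rw [h1, h2]
  have hw : W n s' j = W n s j := by
    unfold W wp; rw [ht, dirc h2]
  exact ⟨by rw [T_eq, T_eq, hw, dirc h2], hw⟩

lemma LY_T (hn : 0 < n) {e : ℤ × ℤ} : e ∈ LY n s ↔ ∃ j, (0 ≤ j ∧ j < n) ∧ e = T n s j := mem_LY' hn

lemma T_inj {j' : ℤ} (h : T n s j = T n s j') : j = j' := by
  rw [T_eq, T_eq] at h
  have h1 := add_right_cancel h
  unfold W pq wp at h1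
  rcases dir_cases s.2 with ⟨-, e⟩ | ⟨-, e⟩ | ⟨-, e⟩ | ⟨-, e⟩ <;> rw [e] at h1 <;>
    have h2 := congrArg Prod.fst h1 <;> simp only at h2 <;> omega

end side

/-! ### Two layers -/

section poly

variable {S : Pool.Agent.H21.FM.Shape} {h : ℕ} {i i' : ℕ} {j j' : ℤ}

/-- a non-polygon tile next to a tile of the polygon belongs to a layer -/
lemma LY_of (hh : 0 < h) {t : ℤ × ℤ} {l : ℤ} (h1 : ct (2 * (h : ℤ)) t ∉ S.P.Q) (h2 : ct (2 * (h : ℤ)) (t - dir l) ∈ S.P.Q) :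
    ∃ i < S.N, (S.k i - 1 - l) % 4 = 0 ∧ lt t ∈ LY (2 * (h : ℤ)) (S.P.side i) := by
  have hn : (0 : ℤ) < (2 * (h : ℤ)) := by omega
  have h3 : ct (2 * (h : ℤ)) t = ct (2 * (h : ℤ)) (t - dir l) + dir l := by
    rcases ct_add_dir (n := (2 * (h : ℤ))) hn (p := t - dir l) (c := ct (2 * (h : ℤ)) t) (k := l) (by rw [sub_add_cancel])
      with h | h
    · exact absurd (h ▸ h2) h1
    · rw [h, sub_add_cancel]
  obtain ⟨i, hi, e1, e2⟩ := S.P.all (ct (2 * (h : ℤ)) (t - dir l), l + 1) ⟨h2, by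
    show ct (2 * (h : ℤ)) (t - dir l) + dir (l + 1 - 1) ∉ S.P.Q
    rw [add_sub_cancel_right, ← h3]; exact h1⟩
  have e1 : (S.P.side i).1 = ct (2 * (h : ℤ)) (t - dir l) := e1
  have e2 : ((S.P.side i).2 - (l + 1)) % 4 = 0 := e2
  have hd : dir ((S.P.side i).2 - 1) = dir l := dirc (by omega)
  refine ⟨i, hi, ?_, ?_⟩
  · unfold Pool.Agent.H21.FM.Shape.k
    omega
  · rw [mem_LY hn, tt_lt, hd, e1]
    exact ⟨lt_odd _, h3, rfl⟩

/-- a tile in two layers: a reflex vertex between consecutive sides -/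
lemma LY_two (hh : 1 ≤ h) (hi : i < S.N) (hi' : i' < S.N) (h0 : 0 ≤ j) (h1 : j < (2 * (h : ℤ))) (h0' : 0 ≤ j')
    (h1' : j' < (2 * (h : ℤ))) (he : T (2 * (h : ℤ)) (S.P.side i) j = T (2 * (h : ℤ)) (S.P.side i') j') :
    (i' = i ∧ j' = j) ∨
    (i' = i + 1 ∧ j = (2 * (h : ℤ)) - 1 ∧ j' = 0 ∧ S.P.side (i + 1) =
      ((S.P.side i).1 + dir (S.k i) + dir (S.k i - 1), S.k i - 1)) ∨
    (i = i' + 1 ∧ j' = (2 * (h : ℤ)) - 1 ∧ j = 0 ∧ S.P.side (i' + 1) =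
      ((S.P.side i').1 + dir (S.k i') + dir (S.k i' - 1), S.k i' - 1)) := by
  have hn : (0 : ℤ) < (2 * (h : ℤ)) := by omega
  -- the turn
  have turn : ∀ i i' : ℕ, ∀ j j' : ℤ, i < S.N → i' < S.N → 0 ≤ j → j < (2 * (h : ℤ)) → 0 ≤ j' → j' < (2 * (h : ℤ)) →
      T (2 * (h : ℤ)) (S.P.side i) j = T (2 * (h : ℤ)) (S.P.side i') j' → (S.k i - S.k i') % 4 = 1 →
      i' = i + 1 ∧ j = (2 * (h : ℤ)) - 1 ∧ j' = 0 ∧ S.P.side (i + 1) =
        ((S.P.side i).1 + dir (S.k i) + dir (S.k i - 1), S.k i - 1) := by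
    intro i i' j j' hi hi' h0 h1 h0' h1' he hk
    have a1 := ct_ot (n := (2 * (h : ℤ))) (S.P.side i) h0 h1
    have a2 := ct_it (n := (2 * (h : ℤ))) (S.P.side i) h0 h1
    have b1 := ct_ot (n := (2 * (h : ℤ))) (S.P.side i') h0' h1'
    have b2 := ct_it (n := (2 * (h : ℤ))) (S.P.side i') h0' h1'
    have e := lt_inj he
    have d1 : dir (S.k i' - 1) = - dir (S.k i) := by
      rcases dir_cases (S.k i) with ⟨x, y⟩ | ⟨x, y⟩ | ⟨x, y⟩ | ⟨x, y⟩ <;>
        rcases dir_cases (S.k i' - 1) with ⟨x', y'⟩ | ⟨x', y'⟩ | ⟨x', y'⟩ | ⟨x', y'⟩ <;>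
        first
        | (exfalso; omega)
        | (rw [y, y']; simp)
    have d2 : dir (S.k i') = dir (S.k i - 1) := dirc (by omega)
    unfold Pool.Agent.H21.FM.Shape.k at d1 d2 ⊢
    -- cells
    have c1 : (S.P.side i').1 = (S.P.side i).1 + dir (S.P.side i).2 + dir ((S.P.side i).2 - 1) := by
      have : (S.P.side i').1 = ct (2 * (h : ℤ)) (Pool.Agent.H33.Q1.ot (2 * (h : ℤ)) (S.P.side i') j') -
        dir ((S.P.side i').2 - 1) := by rw [b1, add_sub_cancel_right]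
      rw [this, ← e, a1, d1]
      abel
    have hs := isSide_side' S.P i
    have hs' := isSide_side' S.P i'
    have hnx : S.P.side (i + 1) =
        ((S.P.side i).1 + dir (S.P.side i).2 + dir ((S.P.side i).2 - 1), (S.P.side i).2 - 1) := by
      have : S.P.side (i + 1) = nextSide S.P.Q (S.P.side i) := by
        unfold PType.side; rw [Function.iterate_succ_apply']
      rw [this]
      unfold nextSide
      rw [if_pos (c1 ▸ hs'.1)]
    have hi1 : i + 1 ≠ S.N := by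
      intro h2
      have h3 := S.cvx i (Or.inr (Or.inr (Or.inr h2)))
      rw [hnx] at h3
      have := congrArg Prod.snd h3
      simp only at this
      omega
    have hii : i' = i + 1 := by
      refine S.P.inj i' hi' (i + 1) (by unfold Pool.Agent.H21.FM.Shape.N at *; omega) ?_ ?_
      · show (S.P.side i').1 = (S.P.side (i + 1)).1
        rw [hnx]; exact c1
      · show ((S.P.side i').2 - (S.P.side (i + 1)).2) % 4 = 0
        rw [hnx]
        unfold Pool.Agent.H21.FM.Shape.k at hk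
        simp only
        omega
    refine ⟨hii, ?_, ?_, hnx⟩
    · by_contra hj
      have k1 := ct_ot (n := (2 * (h : ℤ))) (S.P.side i) (j := j + 1) (by omega) (by omega)
      have k2 : Pool.Agent.H33.Q1.ot (2 * (h : ℤ)) (S.P.side i) (j + 1) = it (2 * (h : ℤ)) (S.P.side i') j' := by
        have q1 : Pool.Agent.H33.Q1.ot (2 * (h : ℤ)) (S.P.side i) (j + 1) =
            Pool.Agent.H33.Q1.ot (2 * (h : ℤ)) (S.P.side i) j + dir (S.P.side i).2 := by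
          unfold Pool.Agent.H33.Q1.ot it wp
          refine Prod.ext ?_ ?_ <;> simp only [Prod.fst_add, Prod.snd_add] <;> ring
        have q2 : it (2 * (h : ℤ)) (S.P.side i') j' =
            Pool.Agent.H33.Q1.ot (2 * (h : ℤ)) (S.P.side i') j' - dir ((S.P.side i').2 - 1) := by
          unfold Pool.Agent.H33.Q1.ot; rw [add_sub_cancel_right]
        rw [q1, q2, e, d1, sub_neg_eq_add]
      rw [k2, b2, c1] at k1
      rw [k1] at c1
      exact hs.2 (c1 ▸ hs'.1)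
    · by_contra hj
      have k1 := ct_ot (n := (2 * (h : ℤ))) (S.P.side i') (j := j' - 1) (by omega) (by omega)
      have k2 : Pool.Agent.H33.Q1.ot (2 * (h : ℤ)) (S.P.side i') (j' - 1) = it (2 * (h : ℤ)) (S.P.side i) j := by
        have q1 : Pool.Agent.H33.Q1.ot (2 * (h : ℤ)) (S.P.side i') (j' - 1) =
            Pool.Agent.H33.Q1.ot (2 * (h : ℤ)) (S.P.side i') j' - dir (S.P.side i').2 := by
          unfold Pool.Agent.H33.Q1.ot it wp
          refine Prod.ext ?_ ?_ <;> simp only [Prod.fst_add, Prod.snd_add, Prod.fst_sub,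
            Prod.snd_sub] <;> ring
        have q2 : it (2 * (h : ℤ)) (S.P.side i) j =
            Pool.Agent.H33.Q1.ot (2 * (h : ℤ)) (S.P.side i) j - dir ((S.P.side i).2 - 1) := by
          unfold Pool.Agent.H33.Q1.ot; rw [add_sub_cancel_right]
        rw [q1, q2, e, d2]
      rw [k2, a2] at k1
      exact hs'.2 (k1 ▸ hs.1)
  have hk : (S.k i - S.k i') % 4 = 0 ∨ (S.k i - S.k i') % 4 = 1 ∨ (S.k i - S.k i') % 4 = 2 ∨
      (S.k i - S.k i') % 4 = 3 := by omega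
  rcases hk with hk | hk | hk | hk
  · left
    have a1 := ct_ot (n := (2 * (h : ℤ))) (S.P.side i) h0 h1
    have b1 := ct_ot (n := (2 * (h : ℤ))) (S.P.side i') h0' h1'
    have e := lt_inj he
    have d1 : dir ((S.P.side i').2 - 1) = dir ((S.P.side i).2 - 1) := dirc (by
      unfold Pool.Agent.H21.FM.Shape.k at hk; omega)
    rw [e, b1, d1] at a1
    have c1 := add_right_cancel a1
    have hii : i' = i := S.P.inj i' hi' i hi c1 (by
      show ((S.P.side i').2 - (S.P.side i).2) % 4 = 0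
      unfold Pool.Agent.H21.FM.Shape.k at hk; omega)
    subst hii
    exact ⟨rfl, (T_inj he).symm⟩
  · right; left
    exact turn i i' j j' hi hi' h0 h1 h0' h1' he hk
  · exfalso
    have a1 := ct_ot (n := (2 * (h : ℤ))) (S.P.side i) h0 h1
    have a2 := ct_it (n := (2 * (h : ℤ))) (S.P.side i) h0 h1
    have b1 := ct_ot (n := (2 * (h : ℤ))) (S.P.side i') h0' h1'
    have b2 := ct_it (n := (2 * (h : ℤ))) (S.P.side i') h0' h1'
    have e := lt_inj he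
    have q1 : it (2 * (h : ℤ)) (S.P.side i) j =
        Pool.Agent.H33.Q1.ot (2 * (h : ℤ)) (S.P.side i) j - dir ((S.P.side i).2 - 1) := by
      unfold Pool.Agent.H33.Q1.ot; rw [add_sub_cancel_right]
    have q2 : it (2 * (h : ℤ)) (S.P.side i') j' =
        Pool.Agent.H33.Q1.ot (2 * (h : ℤ)) (S.P.side i') j' - dir ((S.P.side i').2 - 1) := by
      unfold Pool.Agent.H33.Q1.ot; rw [add_sub_cancel_right]
    rw [← e] at q2 b1
    have d1 : dir ((S.P.side i').2 - 1) = - dir ((S.P.side i).2 - 1) := by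
      unfold Pool.Agent.H21.FM.Shape.k at hk
      rcases dir_cases ((S.P.side i).2 - 1) with ⟨x, y⟩ | ⟨x, y⟩ | ⟨x, y⟩ | ⟨x, y⟩ <;>
        rcases dir_cases ((S.P.side i').2 - 1) with ⟨x', y'⟩ | ⟨x', y'⟩ | ⟨x', y'⟩ | ⟨x', y'⟩ <;>
        first
        | (exfalso; omega)
        | (rw [y, y']; simp)
    rw [q1] at a2
    rw [q2, d1] at b2
    rw [d1] at b1
    generalize Pool.Agent.H33.Q1.ot (2 * (h : ℤ)) (S.P.side i) j = t at *
    obtain ⟨x, y⟩ := t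
    generalize (S.P.side i).1 = c at *
    generalize (S.P.side i').1 = c' at *
    have hcc : c' = c + dir ((S.P.side i).2 - 1) + dir ((S.P.side i).2 - 1) := by
      have := a1.symm.trans b1
      rw [this]; abel
    subst hcc
    clear b1 d1 q1 q2
    rw [ct_eq hn] at a1 a2 b2
    rcases dir_cases ((S.P.side i).2 - 1) with ⟨-, d⟩ | ⟨-, d⟩ | ⟨-, d⟩ | ⟨-, d⟩ <;>
      rw [d] at a1 a2 b2 <;>
      simp only [Prod.fst_add, Prod.snd_add, Prod.fst_sub, Prod.snd_sub, Prod.fst_neg,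
        Prod.snd_neg] at a1 a2 b2
    · have : (c.1 + 1) * (2 * (h : ℤ)) = c.1 * (2 * (h : ℤ)) + (2 * (h : ℤ)) := by ring
      have : (c.1 + 1 + 1) * (2 * (h : ℤ)) = c.1 * (2 * (h : ℤ)) + 2 * (2 * (h : ℤ)) := by ring
      omega
    · have : (c.2 + 1) * (2 * (h : ℤ)) = c.2 * (2 * (h : ℤ)) + (2 * (h : ℤ)) := by ring
      have : (c.2 + 1 + 1) * (2 * (h : ℤ)) = c.2 * (2 * (h : ℤ)) + 2 * (2 * (h : ℤ)) := by ring
      omega
    · have : (c.1 + -1) * (2 * (h : ℤ)) = c.1 * (2 * (h : ℤ)) - (2 * (h : ℤ)) := by ring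
      have : (c.1 + -1 + -1) * (2 * (h : ℤ)) = c.1 * (2 * (h : ℤ)) - 2 * (2 * (h : ℤ)) := by ring
      omega
    · have : (c.2 + -1) * (2 * (h : ℤ)) = c.2 * (2 * (h : ℤ)) - (2 * (h : ℤ)) := by ring
      have : (c.2 + -1 + -1) * (2 * (h : ℤ)) = c.2 * (2 * (h : ℤ)) - 2 * (2 * (h : ℤ)) := by ring
      omega
  · right; right
    exact turn i' i j' j hi' hi h0' h1' h0 h1 he.symm (by omega)

end poly

end Pool.Agent.H72.W.V
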