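import Mathlib
import Pool.Agent.H72.W.EndsG
import Pool.Agent.H47.W.Room8

set_option autoImplicit false
open Finset

/-! # The exit of the deleted row and the colours of the wall layers in 74's world

`XD S h p t x` : the exit tile is the tile number `x` of the layer of the side `t` and it belongs to no
other layer. `mem_w` : the tile number `j` of the side `i` is open iff `¬ (Am i ↔ Af t x i j)`. -/

namespace Pool.Agent.H72.W.V

open Pool.Agent.H75.Perc hiding WL CT hh PB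
open Pool.Agent.H75.TwoArm
open Pool.Agent.H99.W Pool.Agent.H13.W
open Pool.Agent.H45.W (od ev od_ot sq_ot lab_cases' sq_eW)
open Pool.Agent.H33.Q1 (lt tt lt_odd tt_lt lt_tt lt_inj ct ct_eq ct_of LY mem_LY mem_LY' wp io it io_dir
  ct_add_dir ct_it ct_ot ot_eq isSide_side' lt_mem_TL mem_TL)
open Pool.Agent.Q1.M4 (Cell Good IsSide nextSide tail head PType)
open Pool.Agent.H21.FM (Shape EE wv)
open Pool.Agent.H5.Q1 (oc)
open Pool.Agent.H37.W (dg dg_eq dg_inj dg_not_LY dg_not_EE)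
open Pool.Agent.H74.W (Lam3 Del Ex Aft Wp yy GW Cv)
open Pool.Agent.H47.W (mem_Lam3 posN side_succ next_cases wp_next)

variable {S : Shape} {h : ℕ} {p : ℤ × ℤ}

/-- the exit tile is in one layer only -/
def One (S : Shape) (h : ℕ) (p : ℤ × ℤ) : Prop :=
  ∀ e ∈ Del S.P.Q (2 * h) p, ∀ i < S.N, ∀ j < S.N, e ∈ LY (2 * h) (S.P.side i) →
    e ∈ LY (2 * h) (S.P.side j) → i = j

/-- **Exit data.** -/
structure XD (S : Shape) (h : ℕ) (p : ℤ × ℤ) (t : ℕ) (x : ℤ) : Prop where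
  hh : 1 ≤ h
  ht : t < S.N
  hk : S.k t % 4 = 1
  x0 : 0 ≤ x
  x1 : x < 2 * h
  mem : T (2 * h) (S.P.side t) x ∈ Del S.P.Q (2 * h) p
  one : ∀ i < S.N, T (2 * h) (S.P.side t) x ∈ LY (2 * h) (S.P.side i) → i = t

lemma mem_EE (hh : 1 ≤ h) {e : ℤ × ℤ} : e ∈ EE S h ↔ od e ∧ ct (2 * (h : ℤ)) (tt e) ∈ S.P.Q :=
  mem_TL (by omega)

lemma T_not_EE (hh : 1 ≤ h) {i : ℕ} {j : ℤ} (h0 : 0 ≤ j) (h1 : j < (2 * (h : ℤ))) :
    T (2 * (h : ℤ)) (S.P.side i) j ∉ EE S h := by
  rw [mem_EE hh]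
  rintro ⟨-, k⟩
  unfold T at k
  rw [tt_lt, ct_ot _ h0 h1] at k
  exact (isSide_side' S.P i).2 k

lemma LY_not_EE (hh : 1 ≤ h) {i : ℕ} {e : ℤ × ℤ} (he : e ∈ LY (2 * (h : ℤ)) (S.P.side i)) : e ∉ EE S h := by
  obtain ⟨j, ⟨h0, h1⟩, rfl⟩ := (LY_T (by omega)).1 he
  exact T_not_EE hh h0 h1

/-- coordinates of a layer tile of a right wall -/
lemma row_T {n : ℤ} {s : Cell × ℤ} (hk : s.2 % 4 = 1) (j : ℤ) :
    tt (T n s j) = (n * (tail s).1, n * (tail s).2 + j) := by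
  unfold T
  rw [tt_lt, (ot_eq n s j).2.1 hk]
  unfold wp
  rcases dir_cases s.2 with ⟨h, e⟩ | ⟨h, e⟩ | ⟨h, e⟩ | ⟨h, e⟩ <;> first | (exfalso; omega) | skip
  rw [e]
  refine Prod.ext ?_ ?_ <;> simp

/-- the exit data exist -/
theorem exists_XD (hh : 1 ≤ h) (hE : ∃ t, Ex S h p t) (hO : One S h p) : ∃ t x, XD S h p t x := by
  obtain ⟨t, ht, hk, e, he, hl⟩ := hE
  obtain ⟨x, ⟨x0, x1⟩, rfl⟩ := (LY_T (by omega)).1 hl
  exact ⟨t, x, hh, ht, hk, x0, x1, he, fun i hi hi' => hO _ he i hi t ht hi' hl⟩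

namespace XD

variable {t : ℕ} {x : ℤ} (X : XD S h p t x)
include X

lemma lyX : T (2 * (h : ℤ)) (S.P.side t) x ∈ LY (2 * (h : ℤ)) (S.P.side t) :=
  (LY_T (by have := X.hh; omega)).2 ⟨x, ⟨X.x0, X.x1⟩, rfl⟩

lemma not_EE : T (2 * (h : ℤ)) (S.P.side t) x ∉ EE S h := T_not_EE X.hh X.x0 X.x1

/-- a deleted tile is a tile of the polygon or the exit tile -/
lemma del {e : ℤ × ℤ} (he : e ∈ Del S.P.Q (2 * (h : ℤ)) p) : e = T (2 * (h : ℤ)) (S.P.side t) x ∨ e ∈ EE S h := by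
  by_cases hc : e ∈ EE S h
  · exact Or.inr hc
  · left
    obtain ⟨a1, a2, a3, a4⟩ := he
    obtain ⟨b1, b2, b3, b4⟩ := X.mem
    have n1 : ct (2 * (h : ℤ)) (tt e) ∉ S.P.Q := fun h => hc ((mem_EE X.hh).2 ⟨a1, h⟩)
    have n2 : ct (2 * (h : ℤ)) (tt (T (2 * (h : ℤ)) (S.P.side t) x)) ∉ S.P.Q := fun h =>
      X.not_EE ((mem_EE X.hh).2 ⟨b1, h⟩)
    have key : tt e = tt (T (2 * (h : ℤ)) (S.P.side t) x) := by
      refine Prod.ext ?_ (a2.trans b2.symm)
      rcases lt_trichotomy (tt e).1 (tt (T (2 * (h : ℤ)) (S.P.side t) x)).1 with h | h | h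
      · exfalso
        have := b4 _ a3 h
        rw [← a2] at this
        exact n1 this
      · exact h
      · exfalso
        have := a4 _ b3 h
        rw [← b2] at this
        exact n2 this
    rw [← lt_tt a1, key, lt_tt b1]

/-- the exit side -/
lemma ex {t' : ℕ} : Ex S h p t' ↔ t' = t := by
  constructor
  · rintro ⟨ht, -, e, he, hl⟩
    rcases X.del he with h1 | h1
    · rw [h1] at hl
      exact X.one _ ht hl
    · exact absurd h1 (LY_not_EE X.hh hl)
  · rintro rfl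
    exact ⟨X.ht, X.hk, _, X.mem, X.lyX⟩

lemma row : p.2 = (2 * (h : ℤ)) * (tail (S.P.side t)).2 + x := by
  have h1 := X.mem.2.1
  rw [row_T X.hk] at h1
  exact h1.symm

/-- a layer tile is deleted iff it is the exit tile -/
lemma memD {i : ℕ} {j : ℤ} (hi : i < S.N) (h0 : 0 ≤ j) (h1 : j < (2 * (h : ℤ))) :
    T (2 * (h : ℤ)) (S.P.side i) j ∈ Del S.P.Q (2 * (h : ℤ)) p ↔ i = t ∧ j = x := by
  constructor
  · intro hd
    rcases X.del hd with h2 | h2
    · have h3 : T (2 * (h : ℤ)) (S.P.side t) x ∈ LY (2 * (h : ℤ)) (S.P.side i) := by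
        rw [← h2]; exact (LY_T (by have := X.hh; omega)).2 ⟨j, ⟨h0, h1⟩, rfl⟩
      have h4 := X.one i hi h3
      subst h4
      exact ⟨rfl, T_inj h2⟩
    · exact absurd h2 (T_not_EE X.hh h0 h1)
  · rintro ⟨rfl, rfl⟩
    exact X.mem

end XD

/-- mark status of a side -/
def Am (S : Shape) (i : ℕ) : Prop := S.m2 ≤ i ∧ i < S.m3

/-- the tile number `j` of the side `i` comes after the exit -/
def Af (t : ℕ) (x : ℤ) (i : ℕ) (j : ℤ) : Prop := t < i ∨ (t = i ∧ x < j)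

/-- the tile number `j` of the side `i` is open -/
def Col (S : Shape) (t : ℕ) (x : ℤ) (i : ℕ) (j : ℤ) : Prop := ¬ (Am S i ↔ Af t x i j)

lemma Am_succ {i : ℕ} (h2 : i + 1 ≠ S.m2) (h3 : i + 1 ≠ S.m3) : Am S (i + 1) ↔ Am S i := by
  unfold Am; omega

/-- along a side -/
lemma col_succ {t i : ℕ} {x j : ℤ} (h1 : ¬ (i = t ∧ j = x)) :
    Col S t x i (j + 1) ↔ Col S t x i j := by
  have : Af t x i (j + 1) ↔ Af t x i j := by
    unfold Af
    constructor
    · rintro (h | ⟨h, h'⟩)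
      · exact Or.inl h
      · exact Or.inr ⟨h, by
          have : j ≠ x := fun e => h1 ⟨h.symm, e⟩
          omega⟩
    · rintro (h | ⟨h, h'⟩)
      · exact Or.inl h
      · exact Or.inr ⟨h, by omega⟩
  unfold Col
  rw [this]

/-- at a vertex which is not a mark -/
lemma col_vtx {t i : ℕ} {x : ℤ} {n : ℤ} (x0 : 0 ≤ x) (x1 : x < n) (h2 : i + 1 ≠ S.m2)
    (h3 : i + 1 ≠ S.m3) (h1 : ¬ (i = t ∧ n - 1 = x)) :
    Col S t x (i + 1) 0 ↔ Col S t x i (n - 1) := by
  have : Af t x (i + 1) 0 ↔ Af t x i (n - 1) := by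
    unfold Af
    constructor
    · rintro (h | ⟨h, h'⟩)
      · rcases Nat.lt_or_ge t i with h4 | h4
        · exact Or.inl h4
        · have h5 : t = i := by omega
          exact Or.inr ⟨h5, by
            have : n - 1 ≠ x := fun e => h1 ⟨h5.symm, e⟩
            omega⟩
      · omega
    · rintro (h | ⟨h, h'⟩)
      · exact Or.inl (by omega)
      · exact Or.inl (by omega)
  unfold Col
  rw [this, Am_succ h2 h3]

namespace XD

variable {t : ℕ} {x : ℤ} (X : XD S h p t x)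
include X

lemma aft {i : ℕ} {j : ℤ} : Aft S h p i (T (2 * (h : ℤ)) (S.P.side i) j) ↔ Af t x i j := by
  unfold Aft Af
  constructor
  · rintro ⟨t', h1, h2⟩
    rw [X.ex] at h1
    subst h1
    rcases h2 with h2 | ⟨h2, h3⟩
    · exact Or.inl h2
    · subst h2
      rw [row_T X.hk, X.row] at h3
      simp only at h3
      exact Or.inr ⟨rfl, by omega⟩
  · rintro (h1 | ⟨h1, h2⟩)
    · exact ⟨t, X.ex.2 rfl, Or.inl h1⟩
    · subst h1
      refine ⟨t, X.ex.2 rfl, Or.inr ⟨rfl, ?_⟩⟩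
      rw [row_T X.hk, X.row]
      simp only
      omega

/-- **The colour of a layer tile.** -/
theorem memW {i : ℕ} {j : ℤ} (hi : i < S.N) (h0 : 0 ≤ j) (h1 : j < (2 * (h : ℤ))) (hne : ¬ (i = t ∧ j = x)) :
    T (2 * (h : ℤ)) (S.P.side i) j ∈ Wp S h p ↔ Col S t x i j := by
  classical
  have hn : (0 : ℤ) < (2 * (h : ℤ)) := by have := X.hh; omega
  unfold Wp
  simp only [mem_biUnion, mem_range, mem_filter]
  constructor
  · rintro ⟨i', hi', hl, hc⟩
    obtain ⟨j', ⟨h0', h1'⟩, he⟩ := (LY_T hn).1 hl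
    rw [he, X.aft] at hc
    have hc : Col S t x i' j' := hc
    rcases LY_two X.hh hi hi' h0 h1 h0' h1' he with ⟨e1, e2⟩ | ⟨e1, e2, e3, e4⟩ | ⟨e1, e2, e3, e4⟩
    · subst e1; subst e2; exact hc
    · subst e1; subst e2; subst e3
      have nm : i + 1 ≠ S.m2 ∧ i + 1 ≠ S.m3 := by
        constructor <;> intro h2
        · have h3 := S.cvx i (Or.inl h2)
          rw [e4] at h3
          have := congrArg Prod.snd h3
          simp only [Shape.k] at this
          omega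
        · have h3 := S.cvx i (Or.inr (Or.inl h2))
          rw [e4] at h3
          have := congrArg Prod.snd h3
          simp only [Shape.k] at this
          omega
      exact (col_vtx X.x0 X.x1 nm.1 nm.2 hne).1 hc
    · subst e1; subst e2; subst e3
      have nm : i' + 1 ≠ S.m2 ∧ i' + 1 ≠ S.m3 := by
        constructor <;> intro h2
        · have h3 := S.cvx i' (Or.inl h2)
          rw [e4] at h3
          have := congrArg Prod.snd h3
          simp only [Shape.k] at this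
          omega
        · have h3 := S.cvx i' (Or.inr (Or.inl h2))
          rw [e4] at h3
          have := congrArg Prod.snd h3
          simp only [Shape.k] at this
          omega
      have hne' : ¬ (i' = t ∧ (2 * (h : ℤ)) - 1 = x) := by
        rintro ⟨q1, q2⟩
        subst q1
        have := X.one (i' + 1) hi (by
          rw [← q2, ← he]
          exact (LY_T hn).2 ⟨0, ⟨le_rfl, hn⟩, rfl⟩)
        omega
      exact (col_vtx X.x0 X.x1 nm.1 nm.2 hne').2 hc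
  · intro hc
    exact ⟨i, hi, (LY_T hn).2 ⟨j, ⟨h0, h1⟩, rfl⟩, by rw [X.aft]; exact hc⟩

end XD

/-! ### The far ends -/

lemma oc_cs (s : Cell × ℤ) (l : ℤ) : oc (wv h s 0) l = cs (W (2 * (h : ℤ)) s 0) (l + 2) := by
  unfold oc cs W pq wp wv
  have e : ∀ a b : ℤ, 2 * (h : ℤ) * a - 2 * (h : ℤ) * b = 2 * ((h : ℤ) * (a - b)) := by intros; ring
  have e' : ∀ a b : ℤ, 2 * (h : ℤ) * a + 2 * (h : ℤ) * b = 2 * ((h : ℤ) * (a + b)) := by intros; ring
  have hl : l % 4 = 0 ∨ l % 4 = 1 ∨ l % 4 = 2 ∨ l % 4 = 3 := by omega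
  rcases hl with hl | hl | hl | hl
  · have : (l + 2) % 4 = 2 := by omega
    rw [hl, this]
    refine Prod.ext ?_ ?_ <;> simp [e, e']
  · have : (l + 2) % 4 = 3 := by omega
    rw [hl, this]
    refine Prod.ext ?_ ?_ <;> simp [e, e']
  · have : (l + 2) % 4 = 0 := by omega
    rw [hl, this]
    refine Prod.ext ?_ ?_ <;> simp [e, e']
  · have : (l + 2) % 4 = 1 := by omega
    rw [hl, this]
    refine Prod.ext ?_ ?_ <;> simp [e, e']

lemma W_next (n : ℤ) (i : ℕ) : W n (S.P.side (i + 1)) 0 = W n (S.P.side i) n := by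
  unfold W
  rw [side_succ, wp_next]

/-- the side `N` is the side `0` -/
lemma T_N (n : ℤ) (j : ℤ) : T n (S.P.side S.N) j = T n (S.P.side 0) j ∧
    W n (S.P.side S.N) j = W n (S.P.side 0) j := by
  have hp : S.P.side S.N = (S.P.s0.1, S.P.s0.2 + 4) := S.P.period
  have h0 : S.P.side 0 = S.P.s0 := rfl
  have := T_congr (n := n) (s := S.P.side 0) (j := j) (s' := S.P.side S.N) (by rw [hp, h0])
    (by rw [hp, h0]; simp)
  exact this

lemma dg_dir (i : ℕ) : dg S h i = W (2 * (h : ℤ)) (S.P.side i) (2 * (h : ℤ)) + dir (S.k i) := by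
  rw [dg_eq]
  exact T_eq (2 * (h : ℤ)) (S.P.side i) (2 * (h : ℤ))

/-- the far ends are sides at the marks -/
lemma yy_cs {t : ℕ} {x : ℤ} (X : XD S h p t x) :
    yy S h p 0 = cs (W (2 * (h : ℤ)) (S.P.side (S.N - 1)) (2 * (h : ℤ))) (S.k (S.N - 1)) ∧
    yy S h p 1 = (if t < S.m2 then cs (W (2 * (h : ℤ)) (S.P.side (S.m2 - 1)) (2 * (h : ℤ))) (S.k (S.m2 - 1))
      else cs (W (2 * (h : ℤ)) (S.P.side (S.m2 - 1)) (2 * (h : ℤ))) (S.k (S.m2 - 1) - 1)) ∧
    yy S h p 2 = (if t < S.m3 then cs (W (2 * (h : ℤ)) (S.P.side (S.m3 - 1)) (2 * (h : ℤ))) (S.k (S.m3 - 1) - 1)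
      else cs (W (2 * (h : ℤ)) (S.P.side (S.m3 - 1)) (2 * (h : ℤ))) (S.k (S.m3 - 1))) := by
  classical
  obtain ⟨a1, a2, a3⟩ := posN (S := S)
  have kx : ∀ m : ℕ, 0 < m → (m = S.m2 ∨ m = S.m3 ∨ m = S.N) → S.k m = S.k (m - 1) + 1 := by
    intro m hm hm'
    have e : m - 1 + 1 = m := by omega
    have := S.cvx (m - 1) (by
      rcases hm' with h | h | h
      · left; omega
      · right; left; omega
      · right; right; right
        have : S.P.N = S.N := rfl
        omega)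
    unfold Shape.k
    rw [e] at this
    rw [this]
  have wx : ∀ m : ℕ, 0 < m → W (2 * (h : ℤ)) (S.P.side m) 0 = W (2 * (h : ℤ)) (S.P.side (m - 1)) (2 * (h : ℤ)) := by
    intro m hm
    have e : m - 1 + 1 = m := by omega
    rw [← W_next, e]
  refine ⟨?_, ?_, ?_⟩
  · unfold yy
    rw [if_pos rfl]
    unfold Pool.Agent.H21.FM.r1 Pool.Agent.H21.FM.v1
    rw [oc_cs, ← (T_N (2 * (h : ℤ)) 0).2, wx S.N (by omega)]
    apply cs_congr
    have h1 := kx S.N (by omega) (Or.inr (Or.inr rfl))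
    have h2 : S.k S.N = S.k 0 + 4 := by
      have hp : S.P.side S.N = (S.P.s0.1, S.P.s0.2 + 4) := S.P.period
      unfold Shape.k
      rw [hp]; rfl
    omega
  · unfold yy
    rw [if_neg (by decide), if_pos rfl, oc_cs, wx S.m2 (by omega)]
    have h1 := kx S.m2 (by omega) (Or.inl rfl)
    by_cases ht : t < S.m2
    · rw [if_pos ⟨t, X.ex.2 rfl, ht⟩, if_pos ht]
      apply cs_congr; omega
    · rw [if_neg (by rintro ⟨t', h3, h4⟩; rw [X.ex] at h3; omega), if_neg ht]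
      apply cs_congr; omega
  · unfold yy
    rw [if_neg (by decide), if_neg (by decide), oc_cs, wx S.m3 (by omega)]
    have h1 := kx S.m3 (by omega) (Or.inr (Or.inl rfl))
    by_cases ht : t < S.m3
    · rw [if_pos ⟨t, X.ex.2 rfl, ht⟩, if_pos ht]
      apply cs_congr; omega
    · rw [if_neg (by rintro ⟨t', h3, h4⟩; rw [X.ex] at h3; omega), if_neg ht]
      apply cs_congr; omega

end Pool.Agent.H72.W.V
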