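import Mathlib
import Pool.Agent.H72.W.EndsP

set_option autoImplicit false
open Finset

/-! # The far end of the strand in 74's world exists and is unique -/

namespace Pool.Agent.H72.W.V

open Pool.Agent.H75.Perc hiding WL CT hh PB
open Pool.Agent.H75.TwoArm
open Pool.Agent.H99.W Pool.Agent.H13.W
open Pool.Agent.H45.W (od ev od_ot sq_ot lab_cases' sq_eW Pass PB AS lf rt)
open Pool.Agent.H33.Q1 (lt tt lt_odd tt_lt lt_tt lt_inj ct ct_eq ct_of LY mem_LY mem_LY' wp io it io_dir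
  ct_add_dir ct_it ct_ot ot_eq isSide_side' lt_mem_TL mem_TL)
open Pool.Agent.Q1.M4 (Cell Good IsSide nextSide tail head PType)
open Pool.Agent.H21.FM (Shape EE wv)
open Pool.Agent.H5.Q1 (oc)
open Pool.Agent.H37.W (dg dg_eq dg_inj dg_not_LY dg_not_EE)
open Pool.Agent.H74.W (Lam3 Del Ex Aft Wp yy GW Cv)
open Pool.Agent.H47.W (mem_Lam3 posN side_succ next_cases wp_next)

variable {S : Shape} {h : ℕ} {p : ℤ × ℤ} {t : ℕ} {x : ℤ} {ω : Finset (ℤ × ℤ)}

/-- a natural closed layer tile at the vertex `i + 1` -/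
def ClW (S : Shape) (h : ℕ) (p : ℤ × ℤ) (i : ℕ) : Prop :=
  (T (2 * h) (S.P.side i) (2 * h - 1) ∉ Del S.P.Q (2 * h) p ∧
    T (2 * h) (S.P.side i) (2 * h - 1) ∉ Wp S h p) ∨
  (T (2 * h) (S.P.side (i + 1)) 0 ∉ Del S.P.Q (2 * h) p ∧
    T (2 * h) (S.P.side (i + 1)) 0 ∉ Wp S h p)

/-- `Lam3` without the diagonal tiles between open walls -/
def LamC (S : Shape) (h : ℕ) (p : ℤ × ℤ) : Set (ℤ × ℤ) :=
  {e | e ∈ EE S h ∨ (∃ i < S.N, e ∈ LY (2 * h) (S.P.side i)) ∨
    ∃ i < S.N, Cv S i ∧ dg S h i = e ∧ ClW S h p i}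

/-- interior end and far ends -/
def FF (S : Shape) (h : ℕ) (p : ℤ × ℤ) : Set (ℤ × ℤ) :=
  {z | z = eW (lt p) ∨ ∃ j, z = yy S h p j}

lemma dg_od (i : ℕ) : od (dg S h i) := by rw [dg_dir]; exact od_dir (ev_W _ _ _) _

/-- the four tiles round the head of a side, convex case -/
lemma cvx_tiles {i : ℕ} (hc : S.P.side (i + 1) = ((S.P.side i).1, (S.P.side i).2 + 1)) :
    T (2 * (h : ℤ)) (S.P.side (i + 1)) 0 = W (2 * (h : ℤ)) (S.P.side i) (2 * (h : ℤ)) + dir (S.k i + 1) := by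
  rw [T_eq, W_next]
  rw [hc]
  rfl

namespace XD

variable (X : XD S h p t x)
include X

lemma hn : (0 : ℤ) < (2 * (h : ℤ)) := by have := X.hh; omega

/-- the tiles of the interior end -/
lemma z_tiles {e : ℤ × ℤ} (he : od e) (hs : H45.W.sq (eW (lt p)) e) :
    e ∈ EE S h ∨ ∃ i < S.N, e ∈ LY (2 * (h : ℤ)) (S.P.side i) := by
  have hn := X.hn
  have h1 : e = lt p ∨ e = lf (lt p) := by
    rcases lab_cases' (lt_odd p) (sq_eW _) he hs with h | h
    · exact Or.inl h
    · right; rw [h, H45.W.ot_eW]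
  have h2 : lf (lt p) = lt (p - dir 0) := by
    have d0 : dir 0 = (1, 0) := by
      rcases dir_cases 0 with ⟨h, e⟩ | ⟨h, e⟩ | ⟨h, e⟩ | ⟨h, e⟩ <;> first | (exfalso; omega) | exact e
    rw [d0]
    unfold lf lt
    refine Prod.ext ?_ ?_ <;> simp <;> ring
  obtain ⟨b1, b2, b3, b4⟩ := X.mem
  rcases h1 with rfl | rfl
  · rcases b3.lt_or_eq with h3 | h3
    · left
      rw [mem_EE X.hh]
      refine ⟨lt_odd p, ?_⟩
      rw [tt_lt]
      exact b4 _ le_rfl h3
    · right
      refine ⟨t, X.ht, ?_⟩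
      have : lt p = T (2 * (h : ℤ)) (S.P.side t) x := by
        rw [← lt_tt b1]
        congr 1
        exact Prod.ext h3 b2.symm
      rw [this]
      exact X.lyX
  · rw [h2]
    by_cases hc : ct (2 * (h : ℤ)) (p - dir 0) ∈ S.P.Q
    · left
      rw [mem_EE X.hh]
      exact ⟨lt_odd _, by rw [tt_lt]; exact hc⟩
    · right
      rcases b3.lt_or_eq with h3 | h3
      · have h4 : ct (2 * (h : ℤ)) p ∈ S.P.Q := b4 _ le_rfl h3
        obtain ⟨i, hi, -, h5⟩ := LY_of (S := S) (h := h) (t := p - dir 0) (l := 2) (by have := X.hh; omega)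
          hc (by
            have : p - dir 0 - dir 2 = p := by
              rcases dir_cases 0 with ⟨h, e⟩ | ⟨h, e⟩ | ⟨h, e⟩ | ⟨h, e⟩ <;>
                first | (exfalso; omega) | skip
              rcases dir_cases 2 with ⟨h', e'⟩ | ⟨h', e'⟩ | ⟨h', e'⟩ | ⟨h', e'⟩ <;>
                first | (exfalso; omega) | skip
              rw [e, e']; refine Prod.ext ?_ ?_ <;> simp
            rw [this]; exact h4)
        exact ⟨i, hi, h5⟩
      · -- `p` is the exit tile
        exfalso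
        have hl := X.lyX
        rw [mem_LY hn] at hl
        have hd : dir ((S.P.side t).2 - 1) = dir 0 := dirc (by have := X.hk; unfold Shape.k at this; omega)
        have e5 : tt (T (2 * (h : ℤ)) (S.P.side t) x) = p := Prod.ext h3.symm b2
        rw [e5, hd] at hl
        exact hc (hl.2.2 ▸ (isSide_side' S.P t).1)

/-- the tiles of the far ends -/
lemma y_tiles {e : ℤ × ℤ} (he : od e) {j : Fin 3} (hs : H45.W.sq (yy S h p j) e) :
    (∃ i < S.N, e ∈ LY (2 * (h : ℤ)) (S.P.side i)) ∨ (e = dg S h (S.N - 1) ∧ j = 0) ∨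
      (e = dg S h (S.m2 - 1) ∧ j = 1) ∨ (e = dg S h (S.m3 - 1) ∧ j = 2) := by
  obtain ⟨a1, a2, a3⟩ := posN (S := S)
  obtain ⟨y0, y1, y2⟩ := yy_cs X
  have hn := X.hn
  -- at a mark
  have key : ∀ i < S.N, S.P.side (i + 1) = ((S.P.side i).1, (S.P.side i).2 + 1) → ∀ m, m = S.k i ∨
      m = S.k i - 1 → H45.W.sq (cs (W (2 * (h : ℤ)) (S.P.side i) (2 * (h : ℤ))) m) e →
      (∃ i < S.N, e ∈ LY (2 * (h : ℤ)) (S.P.side i)) ∨ e = dg S h i := by
    intro i hi hc m hm hs
    have hP := ev_W (2 * (h : ℤ)) (S.P.side i) (2 * (h : ℤ))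
    have hb : ∃ i' < S.N, W (2 * (h : ℤ)) (S.P.side i) (2 * (h : ℤ)) + dir (S.k i + 1) ∈ LY (2 * (h : ℤ)) (S.P.side i') := by
      have h1 := cvx_tiles (h := h) hc
      rw [← h1]
      by_cases h2 : i + 1 < S.N
      · exact ⟨i + 1, h2, (LY_T hn).2 ⟨0, ⟨le_rfl, hn⟩, rfl⟩⟩
      · have : i + 1 = S.N := by omega
        rw [this, (T_N (2 * (h : ℤ)) 0).1]
        exact ⟨0, by omega, (LY_T hn).2 ⟨0, ⟨le_rfl, hn⟩, rfl⟩⟩
    have ha : W (2 * (h : ℤ)) (S.P.side i) (2 * (h : ℤ)) + dir (S.k i - 1) ∈ LY (2 * (h : ℤ)) (S.P.side i) := by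
      have h1 := T_eq' (2 * (h : ℤ)) (S.P.side i) ((2 * (h : ℤ)) - 1)
      rw [sub_add_cancel] at h1
      have h2 : W (2 * (h : ℤ)) (S.P.side i) (2 * (h : ℤ)) + dir (S.k i - 1) = T (2 * (h : ℤ)) (S.P.side i) ((2 * (h : ℤ)) - 1) := h1.symm
      rw [h2]
      exact (LY_T hn).2 ⟨(2 * (h : ℤ)) - 1, ⟨by omega, by omega⟩, rfl⟩
    obtain ⟨q1, q2, q3⟩ := sq_cs (W (2 * (h : ℤ)) (S.P.side i) (2 * (h : ℤ))) m
    rcases lab_cases' (od_dir hP m) q2 he hs with h1 | h1
    · rcases hm with rfl | rfl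
      · right; rw [h1, dg_dir]
      · left; rw [h1]; exact ⟨i, hi, ha⟩
    · rw [(ot_cs _ _).1] at h1
      rcases hm with rfl | rfl
      · left; rw [h1]; exact hb
      · right; rw [h1, dg_dir, sub_add_cancel]
  have cx : ∀ m, 0 < m → (m = S.m2 ∨ m = S.m3 ∨ m = S.N) →
      S.P.side (m - 1 + 1) = ((S.P.side (m - 1)).1, (S.P.side (m - 1)).2 + 1) := by
    intro m hm hm'
    refine S.cvx (m - 1) ?_
    have : S.P.N = S.N := rfl
    omega
  fin_cases j
  · change H45.W.sq (yy S h p 0) e at hs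
    rw [y0] at hs
    rcases key (S.N - 1) (by omega) (cx _ (by omega) (Or.inr (Or.inr rfl))) _ (Or.inl rfl) hs with h1 | h1
    · exact Or.inl h1
    · exact Or.inr (Or.inl ⟨h1, rfl⟩)
  · change H45.W.sq (yy S h p 1) e at hs
    rw [y1] at hs
    have : (∃ i < S.N, e ∈ LY (2 * (h : ℤ)) (S.P.side i)) ∨ e = dg S h (S.m2 - 1) := by
      split_ifs at hs
      · exact key (S.m2 - 1) (by omega) (cx _ (by omega) (Or.inl rfl)) _ (Or.inl rfl) hs
      · exact key (S.m2 - 1) (by omega) (cx _ (by omega) (Or.inl rfl)) _ (Or.inr rfl) hs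
    rcases this with h1 | h1
    · exact Or.inl h1
    · exact Or.inr (Or.inr (Or.inl ⟨h1, rfl⟩))
  · change H45.W.sq (yy S h p 2) e at hs
    rw [y2] at hs
    have : (∃ i < S.N, e ∈ LY (2 * (h : ℤ)) (S.P.side i)) ∨ e = dg S h (S.m3 - 1) := by
      split_ifs at hs
      · exact key (S.m3 - 1) (by omega) (cx _ (by omega) (Or.inr (Or.inl rfl))) _ (Or.inr rfl) hs
      · exact key (S.m3 - 1) (by omega) (cx _ (by omega) (Or.inr (Or.inl rfl))) _ (Or.inl rfl) hs
    rcases this with h1 | h1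
    · exact Or.inl h1
    · exact Or.inr (Or.inr (Or.inr ⟨h1, rfl⟩))

/-- a side of the diagonal tile at a vertex which is not a mark does not belong to `FF` -/
lemma cv_FF {i : ℕ} (hi : i < S.N) (hc : Cv S i) {c : ℤ × ℤ} (hs : H45.W.sq c (dg S h i)) :
    c ∉ FF S h p := by
  obtain ⟨a1, a2, a3⟩ := posN (S := S)
  have hod := dg_od (S := S) (h := h) i
  have n1 := dg_not_EE X.hh hc.1
  have n2 : ¬ ∃ i' < S.N, dg S h i ∈ LY (2 * (h : ℤ)) (S.P.side i') := by
    rintro ⟨i', -, h1⟩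
    exact dg_not_LY X.hh hc.1 h1
  obtain ⟨-, c2, c3, c4⟩ := hc
  rintro (rfl | ⟨j, rfl⟩)
  · rcases X.z_tiles hod hs with h1 | h1
    · exact n1 h1
    · exact n2 h1
  · rcases X.y_tiles hod hs with h1 | ⟨h1, -⟩ | ⟨h1, -⟩ | ⟨h1, -⟩
    · exact n2 h1
    · have := dg_inj X.hh hi (by omega) h1; omega
    · have := dg_inj X.hh hi (by omega) h1; omega
    · have := dg_inj X.hh hi (by omega) h1; omega

/-- the diagonal tile at a mark is not in `LamC` -/
lemma mk_LamC {i : ℕ} (hi : i < S.N) (hm : i + 1 = S.m2 ∨ i + 1 = S.m3 ∨ i + 1 = S.N) :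
    dg S h i ∉ LamC S h p := by
  have hc : S.P.side (i + 1) = ((S.P.side i).1, (S.P.side i).2 + 1) := by
    refine S.cvx i ?_
    have : S.P.N = S.N := rfl
    omega
  rintro (h1 | ⟨i', -, h1⟩ | ⟨i', hi', h2, h1, -⟩)
  · exact dg_not_EE X.hh hc h1
  · exact dg_not_LY X.hh hc h1
  · have := dg_inj X.hh hi' hi h1
    subst this
    obtain ⟨-, c2, c3, c4⟩ := h2
    omega

/-- the diagonal tile at another convex vertex -/
lemma cv_LamC {i : ℕ} (hi : i < S.N) (hc : Cv S i) : dg S h i ∈ LamC S h p ↔ ClW S h p i := by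
  constructor
  · rintro (h1 | ⟨i', -, h1⟩ | ⟨i', hi', h2, h1, h3⟩)
    · exact absurd h1 (dg_not_EE X.hh hc.1)
    · exact absurd h1 (dg_not_LY X.hh hc.1)
    · have := dg_inj X.hh hi' hi h1
      subst this
      exact h3
  · intro h3
    exact Or.inr (Or.inr ⟨i, hi, hc, rfl, h3⟩)

lemma dg_notD {i : ℕ} (hc : S.P.side (i + 1) = ((S.P.side i).1, (S.P.side i).2 + 1)) :
    dg S h i ∉ Del S.P.Q (2 * (h : ℤ)) p := by
  intro h1
  rcases X.del h1 with h2 | h2
  · exact dg_not_LY X.hh hc (h2 ▸ X.lyX)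
  · exact dg_not_EE X.hh hc h2

lemma dg_notw (hω : ω ⊆ EE S h) {i : ℕ}
    (hc : S.P.side (i + 1) = ((S.P.side i).1, (S.P.side i).2 + 1)) : dg S h i ∉ ω ∪ Wp S h p := by
  classical
  rw [mem_union]
  rintro (h1 | h1)
  · exact dg_not_EE X.hh hc (hω h1)
  · unfold Wp at h1
    simp only [mem_biUnion, mem_range, mem_filter] at h1
    obtain ⟨i', -, h2, -⟩ := h1
    exact dg_not_LY X.hh hc h2

/-- **state of a natural layer tile** -/
lemma memw (hω : ω ⊆ EE S h) {i : ℕ} {j : ℤ} (hi : i < S.N) (h0 : 0 ≤ j) (h1 : j < (2 * (h : ℤ)))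
    (hne : ¬ (i = t ∧ j = x)) : T (2 * (h : ℤ)) (S.P.side i) j ∈ ω ∪ Wp S h p ↔ Col S t x i j := by
  rw [mem_union, ← X.memW hi h0 h1 hne]
  constructor
  · rintro (h2 | h2)
    · exact absurd (hω h2) (T_not_EE X.hh h0 h1)
    · exact h2
  · exact Or.inr

lemma T_LamC {i : ℕ} {j : ℤ} (hi : i < S.N) (h0 : 0 ≤ j) (h1 : j < (2 * (h : ℤ))) :
    T (2 * (h : ℤ)) (S.P.side i) j ∈ LamC S h p :=
  Or.inr (Or.inl ⟨i, hi, (LY_T X.hn).2 ⟨j, ⟨h0, h1⟩, rfl⟩⟩)

/-- a natural layer tile is passed iff its colour fits -/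
lemma passT (hω : ω ⊆ EE S h) {i : ℕ} {j : ℤ} (hi : i < S.N) (h0 : 0 ≤ j) (h1 : j < (2 * (h : ℤ)))
    (hne : ¬ (i = t ∧ j = x)) {c P : ℤ × ℤ} :
    Pass (LamC S h p) (Del S.P.Q (2 * (h : ℤ)) p) (ω ∪ Wp S h p) (FF S h p) (T (2 * (h : ℤ)) (S.P.side i) j) c P ↔
      (Col S t x i j ↔ P.1 % 2 = 1) := by
  have hl := X.T_LamC hi h0 h1
  have hd : T (2 * (h : ℤ)) (S.P.side i) j ∉ Del S.P.Q (2 * (h : ℤ)) p := fun h => hne ((X.memD hi h0 h1).1 h)
  constructor
  · rintro (h2 | h2 | h2)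
    · rw [← X.memw hω hi h0 h1 hne]; exact h2.2.2
    · exact absurd h2.2.1 hd
    · exact absurd hl h2.1
  · intro h2
    exact Or.inl ⟨hl, hd, by rw [X.memw hω hi h0 h1 hne]; exact h2⟩

/-- the exit tile is passed from its south and from its north side -/
lemma passX {c P : ℤ × ℤ} (hc : c = eS (T (2 * (h : ℤ)) (S.P.side t) x) ∨ c = eN (T (2 * (h : ℤ)) (S.P.side t) x)) :
    Pass (LamC S h p) (Del S.P.Q (2 * (h : ℤ)) p) (ω ∪ Wp S h p) (FF S h p) (T (2 * (h : ℤ)) (S.P.side t) x) c P :=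
  Or.inr (Or.inl ⟨X.T_LamC X.ht X.x0 X.x1, X.mem, hc⟩)

/-- south and north side of the exit tile -/
lemma eS_X : eS (T (2 * (h : ℤ)) (S.P.side t) x) = cs (W (2 * (h : ℤ)) (S.P.side t) x) (S.k t - 1) := by
  have hk := X.hk
  rw [T_eq]
  have d1 : dir (S.P.side t).2 = (0, 1) := by
    unfold Shape.k at hk
    rcases dir_cases (S.P.side t).2 with ⟨h, e⟩ | ⟨h, e⟩ | ⟨h, e⟩ | ⟨h, e⟩ <;>
      first | (exfalso; omega) | exact e
  rw [d1]
  have : (S.k t - 1) % 4 = 0 := by omega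
  unfold eS cs
  rw [this]
  refine Prod.ext ?_ ?_ <;> simp

lemma eN_X : eN (T (2 * (h : ℤ)) (S.P.side t) x) = cs (W (2 * (h : ℤ)) (S.P.side t) (x + 1)) (S.k t - 1) := by
  have hk := X.hk
  rw [T_eq']
  have d1 : dir ((S.P.side t).2 - 1) = (1, 0) := by
    unfold Shape.k at hk
    rcases dir_cases ((S.P.side t).2 - 1) with ⟨h, e⟩ | ⟨h, e⟩ | ⟨h, e⟩ | ⟨h, e⟩ <;>
      first | (exfalso; omega) | exact e
  rw [d1]
  have : (S.k t - 1) % 4 = 0 := by omega
  unfold eN cs
  rw [this]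
  refine Prod.ext ?_ ?_ <;> simp

/-- no neighbour of the exit tile in the polygon above, below -/
lemma X_nb {l : ℤ} (hl : l % 4 = 1 ∨ l % 4 = 3) :
    lt (tt (T (2 * (h : ℤ)) (S.P.side t) x) - dir l) ∉ EE S h := by
  intro h1
  have hod : od (T (2 * (h : ℤ)) (S.P.side t) x) := od_T
  rw [mem_EE X.hh, tt_lt] at h1
  have n2 : ct (2 * (h : ℤ)) (tt (T (2 * (h : ℤ)) (S.P.side t) x)) ∉ S.P.Q := fun h =>
    X.not_EE ((mem_EE X.hh).2 ⟨hod, h⟩)
  obtain ⟨i, hi, h2, h3⟩ := LY_of (by have := X.hh; omega) n2 h1.2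
  rw [lt_tt hod] at h3
  have := X.one i hi h3
  subst this
  have := X.hk
  omega

end XD

/-! ### The tiles at a wall point -/

lemma I_EE (hh : 1 ≤ h) {i : ℕ} {j : ℤ} (h0 : 0 ≤ j) (h1 : j < (2 * (h : ℤ))) :
    lt (it (2 * (h : ℤ)) (S.P.side i) j) ∈ EE S h := by
  rw [mem_EE hh]
  refine ⟨lt_odd _, ?_⟩
  rw [tt_lt, ct_it _ h0 h1]
  exact (isSide_side' S.P i).1

/-- no diagonal cells at a reflex vertex -/
lemma good_diag {Q : Finset Cell} (hQ : Good Q) {s : Cell × ℤ} (h1 : s.1 ∈ Q)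
    (h2 : s.1 + dir (s.2 - 1) ∉ Q) (h3 : s.1 + dir s.2 + dir (s.2 - 1) ∈ Q) : s.1 + dir s.2 ∈ Q := by
  obtain ⟨⟨a, b⟩, k⟩ := s
  simp only at *
  rcases io_dir k with ⟨-, -, c, d⟩ | ⟨-, -, c, d⟩ | ⟨-, -, c, d⟩ | ⟨-, -, c, d⟩ <;>
    rw [c] at h3 ⊢ <;> rw [d] at h2 h3 <;> simp only [Prod.mk_add_mk] at *
  · rcases hQ.diag2 (a, b - 1) (by convert h3 using 1; simp; ring) (by convert h1 using 1; simp) with h | h
    · exact absurd (by convert h using 1; simp [sub_eq_add_neg]) h2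
    · convert h using 1; simp
  · rcases hQ.diag1 (a, b) h1 (by convert h3 using 1; simp) with h | h
    · exact absurd (by convert h using 1; simp) h2
    · convert h using 1; simp
  · rcases hQ.diag2 (a - 1, b) (by convert h1 using 1; simp) (by convert h3 using 1; simp; ring) with h | h
    · convert h using 1; simp [sub_eq_add_neg]
    · exact absurd (by convert h using 1; simp) h2
  · rcases hQ.diag1 (a - 1, b - 1) (by convert h3 using 1; simp [sub_eq_add_neg])
      (by convert h1 using 1; simp) with h | h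
    · convert h using 1; simp [sub_eq_add_neg]
    · exact absurd (by convert h using 1; simp [sub_eq_add_neg]) h2

/-- cells of the tiles ahead of a vertex -/
lemma ct_ahead (hh : 1 ≤ h) (s : Cell × ℤ) : ct (2 * (h : ℤ)) (it (2 * (h : ℤ)) s (2 * (h : ℤ))) = s.1 + dir s.2 ∧
    ct (2 * (h : ℤ)) (Pool.Agent.H33.Q1.ot (2 * (h : ℤ)) s (2 * (h : ℤ))) = s.1 + dir s.2 + dir (s.2 - 1) := by
  have hn : (0 : ℤ) < (2 * (h : ℤ)) := by omega
  constructor
  · have := Pool.Agent.H47.W.ct_ott hn s (j := (2 * (h : ℤ))) (r := 0) (a := 1) (b := 0) (by omega) (by omega)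
      (by omega) (by omega)
    rw [Pool.Agent.H47.W.ott_zero] at this
    rw [this]
    refine Prod.ext ?_ ?_ <;> simp
  · have := Pool.Agent.H47.W.ct_ott hn s (j := (2 * (h : ℤ))) (r := 1) (a := 1) (b := 1) (by omega) (by omega)
      (by omega) (by omega)
    rw [Pool.Agent.H47.W.ott_one] at this
    rw [this]
    refine Prod.ext ?_ ?_ <;> simp <;> ring

/-- **the tiles round the head of a side** -/
lemma vtx (hh : 1 ≤ h) {i : ℕ} (hi : i < S.N) :
    (W (2 * (h : ℤ)) (S.P.side i) (2 * (h : ℤ)) + dir (S.k i) ∈ EE S h ∧ W (2 * (h : ℤ)) (S.P.side i) (2 * (h : ℤ)) + dir (S.k i + 1) ∈ EE S h ∧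
      i + 1 < S.N ∧ T (2 * (h : ℤ)) (S.P.side i) ((2 * (h : ℤ)) - 1) = T (2 * (h : ℤ)) (S.P.side (i + 1)) 0) ∨
    (W (2 * (h : ℤ)) (S.P.side i) (2 * (h : ℤ)) + dir (S.k i) = T (2 * (h : ℤ)) (S.P.side (i + 1)) 0 ∧
      W (2 * (h : ℤ)) (S.P.side i) (2 * (h : ℤ)) + dir (S.k i + 1) ∈ EE S h ∧ i + 1 < S.N ∧ i + 1 ≠ S.m2 ∧ i + 1 ≠ S.m3) ∨
    (S.P.side (i + 1) = ((S.P.side i).1, (S.P.side i).2 + 1)) := by
  have hn : (0 : ℤ) < (2 * (h : ℤ)) := by omega
  have hs := isSide_side' S.P i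
  obtain ⟨c1, c2⟩ := ct_ahead hh (S.P.side i)
  have e1 : W (2 * (h : ℤ)) (S.P.side i) (2 * (h : ℤ)) + dir (S.k i + 1) = lt (it (2 * (h : ℤ)) (S.P.side i) (2 * (h : ℤ))) := (I_eq _ _ _).symm
  have e2 : W (2 * (h : ℤ)) (S.P.side i) (2 * (h : ℤ)) + dir (S.k i) = lt (Pool.Agent.H33.Q1.ot (2 * (h : ℤ)) (S.P.side i) (2 * (h : ℤ))) :=
    (T_eq _ _ _).symm
  have mm : ∀ {t : ℤ × ℤ}, ct (2 * (h : ℤ)) t ∈ S.P.Q → lt t ∈ EE S h := fun h => by
    rw [mem_EE hh, tt_lt]; exact ⟨lt_odd _, h⟩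
  have notmark : ∀ k' : ℤ, (S.P.side (i + 1)).2 = k' → k' ≠ (S.P.side i).2 + 1 →
      i + 1 < S.N ∧ i + 1 ≠ S.m2 ∧ i + 1 ≠ S.m3 := by
    intro k' h1 h2
    have key : ¬ (i + 1 = S.m2 ∨ i + 1 = S.m3 ∨ i + 1 = S.P.m ∨ i + 1 = S.P.N) := by
      intro h3
      have h4 := S.cvx i h3
      rw [h4] at h1
      exact h2 h1.symm
    have : S.P.N = S.N := rfl
    omega
  rcases next_cases S.P.Q (S.P.side i) with ⟨h1, h2⟩ | ⟨h1, h2, h3⟩ | ⟨h1, h2, h3⟩
  · left
    obtain ⟨n1, n2, n3⟩ := notmark ((S.P.side i).2 - 1) (by rw [side_succ, h2]) (by omega)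
    refine ⟨by rw [e2]; exact mm (c2 ▸ h1), by
      rw [e1]; exact mm (c1 ▸ good_diag S.P.good hs.1 hs.2 h1), n1, ?_⟩
    rw [T_eq' (2 * (h : ℤ)) (S.P.side i) ((2 * (h : ℤ)) - 1), T_eq (2 * (h : ℤ)) (S.P.side (i + 1)) 0, W_next, sub_add_cancel, side_succ, h2]
  · right; left
    obtain ⟨n1, n2, n3⟩ := notmark ((S.P.side i).2) (by rw [side_succ, h3]) (by omega)
    refine ⟨?_, by rw [e1]; exact mm (c1 ▸ h2), n1, n2, n3⟩
    rw [T_eq (2 * (h : ℤ)) (S.P.side (i + 1)) 0, W_next, side_succ, h3]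
    rfl
  · right; right
    rw [side_succ]; exact h3

/-- **wall points** -/
theorem wallpt (hh : 1 ≤ h) {P : ℤ × ℤ} (hP : ev P) (hB : PB (EE S h : Set (ℤ × ℤ)) P) {m : ℤ}
    (hm : P + dir m ∉ EE S h) : ∃ i < S.N, ∃ j : ℤ, 0 < j ∧ j ≤ (2 * (h : ℤ)) ∧ P = W (2 * (h : ℤ)) (S.P.side i) j := by
  have hn : (0 : ℤ) < (2 * (h : ℤ)) := by omega
  obtain ⟨q, hq, c, q1, q2⟩ := hB
  obtain ⟨m1, rfl, -⟩ := at_pt ((mem_EE hh).1 hq).1 hP q1 q2
  -- from a polygon tile to a non-polygon tile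
  obtain ⟨m', h1, h2⟩ : ∃ m', P + dir (m' - 1) ∈ EE S h ∧ P + dir m' ∉ EE S h := by
    by_contra hc
    push Not at hc
    have step : ∀ m', P + dir m' ∈ EE S h → P + dir (m' + 1) ∈ EE S h := fun m' h =>
      hc (m' + 1) (by rw [add_sub_cancel_right]; exact h)
    have k0 := mem_coe.1 hq
    have k1 := step _ k0
    have k2 := step _ k1
    have k3 := step _ k2
    have hr : m % 4 = m1 % 4 ∨ m % 4 = (m1 + 1) % 4 ∨ m % 4 = (m1 + 1 + 1) % 4 ∨
      m % 4 = (m1 + 1 + 1 + 1) % 4 := by omega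
    rcases hr with hr | hr | hr | hr <;> rw [dirc hr] at hm <;> exact hm (by assumption)
  obtain ⟨o1, o2⟩ := (mem_EE hh).1 h1
  have e : tt (P + dir m') = tt (P + dir (m' - 1)) + dir m' := by
    have := tt_succ hP (m' - 1)
    rwa [sub_add_cancel] at this
  have o3 : ct (2 * (h : ℤ)) (tt (P + dir m')) ∉ S.P.Q := fun h => h2 ((mem_EE hh).2 ⟨od_dir hP m', h⟩)
  obtain ⟨i, hi, hk, hl⟩ := LY_of (by omega) o3 (l := m') (by rw [e, add_sub_cancel_right]; exact o2)
  rw [lt_tt (od_dir hP m')] at hl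
  obtain ⟨j, ⟨j0, j1⟩, hj⟩ := (LY_T hn).1 hl
  refine ⟨i, hi, j + 1, by omega, by omega, ?_⟩
  rw [T_eq'] at hj
  have hd : dir m' = dir ((S.P.side i).2 - 1) := dirc (by unfold Shape.k at hk; omega)
  rw [hd] at hj
  exact add_right_cancel hj

namespace XD

variable (X : XD S h p t x)
include X

/-- colours at a vertex with a closed natural tile -/
lemma clW_col {i : ℕ} (hi : i < S.N) (hc : Cv S i) (hW : ClW S h p i) :
    (¬ (i = t ∧ (2 * (h : ℤ)) - 1 = x) → ¬ Col S t x i ((2 * (h : ℤ)) - 1)) ∧ (¬ (i + 1 = t ∧ 0 = x) → ¬ Col S t x (i + 1) 0) := by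
  have hn := X.hn
  obtain ⟨-, c2, c3, c4⟩ := hc
  have hi1 : i + 1 < S.N := by omega
  rcases hW with ⟨w1, w2⟩ | ⟨w1, w2⟩
  · have hne : ¬ (i = t ∧ (2 * (h : ℤ)) - 1 = x) := fun h => w1 ((X.memD hi (by omega) (by omega)).2 h)
    rw [X.memW hi (by omega) (by omega) hne] at w2
    exact ⟨fun _ => w2, fun _ h => w2 ((col_vtx X.x0 X.x1 c2 c3 hne).1 h)⟩
  · have hne : ¬ (i + 1 = t ∧ 0 = x) := fun h => w1 ((X.memD hi1 le_rfl hn).2 h)
    rw [X.memW hi1 le_rfl hn hne] at w2
    exact ⟨fun hne' h => w2 ((col_vtx X.x0 X.x1 c2 c3 hne').2 h), fun _ => w2⟩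

/-- the diagonal tile between closed walls is passed -/
lemma passG (hω : ω ⊆ EE S h) {i : ℕ} (hi : i < S.N) (hc : Cv S i) (hW : ClW S h p i) {c P : ℤ × ℤ}
    (hP : ¬ P.1 % 2 = 1) :
    Pass (LamC S h p) (Del S.P.Q (2 * (h : ℤ)) p) (ω ∪ Wp S h p) (FF S h p) (dg S h i) c P :=
  Or.inl ⟨(X.cv_LamC hi hc).2 hW, X.dg_notD hc.1, iff_of_false (X.dg_notw hω hc.1) hP⟩

/-- the closed side at a mark, before the mark -/
lemma mark_a {i : ℕ} (hm : i + 1 = S.m2 ∨ i + 1 = S.m3 ∨ i + 1 = S.N)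
    (hne : ¬ (i = t ∧ (2 * (h : ℤ)) - 1 = x)) (hcol : ¬ Col S t x i ((2 * (h : ℤ)) - 1)) :
    cs (W (2 * (h : ℤ)) (S.P.side i) (2 * (h : ℤ))) (S.k i - 1) ∈ FF S h p := by
  obtain ⟨a1, a2, a3⟩ := posN (S := S)
  obtain ⟨y0, y1, y2⟩ := yy_cs X
  have hx := X.x1
  have ht := X.ht
  unfold Col Am Af at hcol
  rcases hm with hm | hm | hm
  · have e : i = S.m2 - 1 := by omega
    have h1 : ¬ t < S.m2 := by
      intro h1
      apply hcol
      intro h2
      by_cases h3 : t < i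
      · have := h2.2 (Or.inl h3); omega
      · have h4 : t = i := by omega
        have := h2.2 (Or.inr ⟨h4, by
          have : (2 * (h : ℤ)) - 1 ≠ x := fun h => hne ⟨h4.symm, h⟩
          omega⟩)
        omega
    rw [if_neg h1] at y1
    exact Or.inr ⟨1, by rw [y1, e]⟩
  · have e : i = S.m3 - 1 := by omega
    have h1 : t < S.m3 := by
      by_contra h1
      apply hcol
      intro h2
      have := h2.1 ⟨by omega, by omega⟩
      omega
    rw [if_pos h1] at y2
    exact Or.inr ⟨2, by rw [y2, e]⟩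
  · exfalso
    apply hcol
    intro h2
    by_cases h3 : t < i
    · have := h2.2 (Or.inl h3); omega
    · have h4 : t = i := by omega
      have := h2.2 (Or.inr ⟨h4, by
        have : (2 * (h : ℤ)) - 1 ≠ x := fun h => hne ⟨h4.symm, h⟩
        omega⟩)
      omega

/-- the closed side at a mark, after the mark -/
lemma mark_b {i : ℕ} (hm : i + 1 = S.m2 ∨ i + 1 = S.m3 ∨ i + 1 = S.N)
    (hcol : i + 1 < S.N → ¬ Col S t x (i + 1) 0) :
    cs (W (2 * (h : ℤ)) (S.P.side i) (2 * (h : ℤ))) (S.k i) ∈ FF S h p := by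
  obtain ⟨a1, a2, a3⟩ := posN (S := S)
  obtain ⟨y0, y1, y2⟩ := yy_cs X
  have hx := X.x0
  unfold Col Am Af at hcol
  rcases hm with hm | hm | hm
  · have e : i = S.m2 - 1 := by omega
    have h1 : t < S.m2 := by
      by_contra h1
      apply hcol (by omega)
      intro h2
      have := h2.1 ⟨by omega, by omega⟩
      omega
    rw [if_pos h1] at y1
    exact Or.inr ⟨1, by rw [y1, e]⟩
  · have e : i = S.m3 - 1 := by omega
    have h1 : ¬ t < S.m3 := by
      intro h1
      apply hcol (by omega)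
      intro h2
      have := h2.2 (Or.inl (by omega))
      omega
    rw [if_neg h1] at y2
    exact Or.inr ⟨2, by rw [y2, e]⟩
  · have e : i = S.N - 1 := by omega
    exact Or.inr ⟨0, by rw [y0, e]⟩

/-- the tile `T i' j'` at the point `P` next to `e` through `c = cs P m` : `col` = colour of the natural tiles -/
lemma passA (hω : ω ⊆ EE S h) {i : ℕ} {j : ℤ} (hi : i < S.N) (h0 : 0 ≤ j) (h1 : j < (2 * (h : ℤ))) {c P : ℤ × ℤ}
    (hc : i = t ∧ j = x → c = eS (T (2 * (h : ℤ)) (S.P.side t) x) ∨ c = eN (T (2 * (h : ℤ)) (S.P.side t) x))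
    (hcol : ¬ (i = t ∧ j = x) → (Col S t x i j ↔ P.1 % 2 = 1)) :
    Pass (LamC S h p) (Del S.P.Q (2 * (h : ℤ)) p) (ω ∪ Wp S h p) (FF S h p) (T (2 * (h : ℤ)) (S.P.side i) j) c P := by
  by_cases hx : i = t ∧ j = x
  · obtain ⟨rfl, rfl⟩ := hx
    exact X.passX (hc ⟨rfl, rfl⟩)
  · exact (X.passT hω hi h0 h1 hx).2 (hcol hx)

/-- **The next tile round a wall point.** -/
theorem nxt_at (hω : ω ⊆ EE S h) {i : ℕ} {j m : ℤ} (hi : i < S.N) (h0 : 0 < j) (h1 : j ≤ (2 * (h : ℤ)))
    (he : W (2 * (h : ℤ)) (S.P.side i) j + dir m ∈ LamC S h p) (hQ : W (2 * (h : ℤ)) (S.P.side i) j + dir m ∉ EE S h)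
    (hD : W (2 * (h : ℤ)) (S.P.side i) j + dir m ∉ Del S.P.Q (2 * (h : ℤ)) p)
    (hw : W (2 * (h : ℤ)) (S.P.side i) j + dir m ∈ ω ∪ Wp S h p ↔ (W (2 * (h : ℤ)) (S.P.side i) j).1 % 2 = 1) :
    (W (2 * (h : ℤ)) (S.P.side i) j + dir (m + 1) ∈ EE S h ∨
      Pass (LamC S h p) (Del S.P.Q (2 * (h : ℤ)) p) (ω ∪ Wp S h p) (FF S h p)
        (W (2 * (h : ℤ)) (S.P.side i) j + dir (m + 1)) (cs (W (2 * (h : ℤ)) (S.P.side i) j) m) (W (2 * (h : ℤ)) (S.P.side i) j)) ∧
    (W (2 * (h : ℤ)) (S.P.side i) j + dir (m - 1) ∈ EE S h ∨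
      Pass (LamC S h p) (Del S.P.Q (2 * (h : ℤ)) p) (ω ∪ Wp S h p) (FF S h p)
        (W (2 * (h : ℤ)) (S.P.side i) j + dir (m - 1)) (cs (W (2 * (h : ℤ)) (S.P.side i) j) (m - 1))
        (W (2 * (h : ℤ)) (S.P.side i) j)) := by
  obtain ⟨a1, a2, a3⟩ := posN (S := S)
  have hn := X.hn
  have hh := X.hh
  have hPp := W_par (h := h) (S.P.side i) j
  set P := W (2 * (h : ℤ)) (S.P.side i) j with hP
  set k := S.k i with hk
  -- the tiles before the point
  have fa : P + dir (k - 1) = T (2 * (h : ℤ)) (S.P.side i) (j - 1) := by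
    rw [T_eq' (2 * (h : ℤ)) (S.P.side i) (j - 1), sub_add_cancel]; rfl
  have fi : P + dir (k + 2) ∈ EE S h := by
    have := I_eq' (2 * (h : ℤ)) (S.P.side i) (j - 1)
    rw [sub_add_cancel] at this
    rw [hP, hk]
    have e : W (2 * (h : ℤ)) (S.P.side i) j + dir (S.k i + 2) = lt (it (2 * (h : ℤ)) (S.P.side i) (j - 1)) := this.symm
    rw [e]
    exact I_EE hh (by omega) (by omega)
  -- normal form of the direction
  obtain ⟨r, hr, hm⟩ : ∃ r : ℤ, (r = -1 ∨ r = 0 ∨ r = 1 ∨ r = 2) ∧ m % 4 = (k + r) % 4 := by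
    have : (m - k) % 4 = 0 ∨ (m - k) % 4 = 1 ∨ (m - k) % 4 = 2 ∨ (m - k) % 4 = 3 := by omega
    rcases this with h | h | h | h
    · exact ⟨0, by omega, by omega⟩
    · exact ⟨1, by omega, by omega⟩
    · exact ⟨2, by omega, by omega⟩
    · exact ⟨-1, by omega, by omega⟩
  rw [dirc hm] at he hQ hD hw
  rw [show dir (m + 1) = dir (k + r + 1) from dirc (by omega),
    show dir (m - 1) = dir (k + r - 1) from dirc (by omega), cs_congr P hm,
    show cs P (m - 1) = cs P (k + r - 1) from cs_congr P (by omega)]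
  -- the sides of the exit tile
  have hS : ∀ j', P = W (2 * (h : ℤ)) (S.P.side t) j' → j' = x → ∀ m', m' % 4 = 0 →
      cs P m' = eS (T (2 * (h : ℤ)) (S.P.side t) x) := by
    rintro j' e1 rfl m' hm'
    rw [X.eS_X, ← e1]
    exact cs_congr _ (by have := X.hk; omega)
  have hN : ∀ j', P = W (2 * (h : ℤ)) (S.P.side t) j' → j' = x + 1 → ∀ m', m' % 4 = 0 →
      cs P m' = eN (T (2 * (h : ℤ)) (S.P.side t) x) := by
    rintro j' e1 rfl m' hm'
    rw [X.eN_X, ← e1]
    exact cs_congr _ (by have := X.hk; omega)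
  by_cases hj : j < (2 * (h : ℤ))
  · -- inside a side
    have fb : P + dir k = T (2 * (h : ℤ)) (S.P.side i) j := (T_eq _ _ _).symm
    have fc : P + dir (k + 1) ∈ EE S h := by
      have e : P + dir (k + 1) = lt (it (2 * (h : ℤ)) (S.P.side i) j) := (I_eq _ _ _).symm
      rw [e]; exact I_EE hh h0.le hj
    rcases hr with rfl | rfl | rfl | rfl
    · -- the tile before
      rw [show k + -1 = k - 1 by ring] at *
      rw [fa] at he hQ hD hw
      have hne : ¬ (i = t ∧ j - 1 = x) := fun h => hD ((X.memD hi (by omega) (by omega)).2 h)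
      rw [X.memw hω hi (by omega) (by omega) hne] at hw
      constructor
      · right
        rw [show k - 1 + 1 = k by ring, fb]
        refine X.passA hω hi h0.le hj ?_ ?_
        · rintro ⟨q1, q2⟩
          subst q1
          exact Or.inl (hS j rfl q2 _ (by have := X.hk; omega))
        · intro _
          rw [← hw]
          have := col_succ (S := S) (t := t) (x := x) (i := i) (j := j - 1) hne
          rwa [sub_add_cancel] at this
      · left
        rw [show dir (k - 1 - 1) = dir (k + 2) from dirc (by omega)]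
        exact fi
    · rw [add_zero] at *
      rw [fb] at he hQ hD hw
      have hne : ¬ (i = t ∧ j = x) := fun h => hD ((X.memD hi h0.le hj).2 h)
      rw [X.memw hω hi h0.le hj hne] at hw
      constructor
      · left; exact fc
      · right
        rw [fa]
        refine X.passA hω hi (by omega) (by omega) ?_ ?_
        · rintro ⟨q1, q2⟩
          subst q1
          exact Or.inr (hN j rfl (by omega) _ (by have := X.hk; omega))
        · intro hne'
          rw [← hw]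
          have := col_succ (S := S) (t := t) (x := x) (i := i) (j := j - 1) hne'
          rw [sub_add_cancel] at this
          exact this.symm
    · exact absurd fc hQ
    · exact absurd fi hQ
  · -- at the head
    have hjn : j = (2 * (h : ℤ)) := by omega
    have ea : j - 1 = (2 * (h : ℤ)) - 1 := by omega
    rw [ea] at fa
    have hPn : P = W (2 * (h : ℤ)) (S.P.side i) (2 * (h : ℤ)) := by rw [hP, hjn]
    rcases vtx (S := S) (h := h) hh hi with ⟨v1, v2, v3, v4⟩ | ⟨v1, v2, v3, v4, v5⟩ | hc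
    · -- reflex
      rw [← hPn] at v1 v2
      rcases hr with rfl | rfl | rfl | rfl
      · constructor
        · left; rw [show k + -1 + 1 = k by ring]; exact v1
        · left
          rw [show dir (k + -1 - 1) = dir (k + 2) from dirc (by omega)]
          exact fi
      · rw [add_zero] at hQ; exact absurd v1 hQ
      · exact absurd v2 hQ
      · exact absurd fi hQ
    · -- flat
      rw [← hPn] at v1 v2
      have hP' : P = W (2 * (h : ℤ)) (S.P.side (i + 1)) 0 := by rw [W_next, hPn]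
      have hkk : i + 1 = t → S.k t % 4 = k % 4 := by
        intro q
        have e1 := v1
        rw [T_eq, ← hP'] at e1
        have e2 := add_left_cancel e1
        subst q
        unfold Shape.k at hk ⊢
        rcases dir_cases (S.P.side (i + 1)).2 with ⟨b1, b2⟩ | ⟨b1, b2⟩ | ⟨b1, b2⟩ | ⟨b1, b2⟩ <;>
          rcases dir_cases k with ⟨c1, c2⟩ | ⟨c1, c2⟩ | ⟨c1, c2⟩ | ⟨c1, c2⟩ <;>
          rw [b2, c2] at e2 <;> first | omega | (exfalso; simp at e2)
      rcases hr with rfl | rfl | rfl | rfl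
      · rw [show k + -1 = k - 1 by ring] at *
        rw [fa] at he hQ hD hw
        have hne : ¬ (i = t ∧ (2 * (h : ℤ)) - 1 = x) := fun h => hD ((X.memD hi (by omega) (by omega)).2 h)
        rw [X.memw hω hi (by omega) (by omega) hne] at hw
        constructor
        · right
          rw [show k - 1 + 1 = k by ring, v1]
          refine X.passA hω v3 le_rfl hn ?_ ?_
          · rintro ⟨q1, q2⟩
            have q3 := hkk q1
            subst q1
            exact Or.inl (hS 0 hP' q2 _ (by have := X.hk; omega))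
          · intro _
            rw [← hw]
            exact col_vtx X.x0 X.x1 v4 v5 hne
        · left
          rw [show dir (k - 1 - 1) = dir (k + 2) from dirc (by omega)]
          exact fi
      · rw [add_zero] at *
        rw [v1] at he hQ hD hw
        have hne : ¬ (i + 1 = t ∧ 0 = x) := fun h => hD ((X.memD v3 le_rfl hn).2 h)
        rw [X.memw hω v3 le_rfl hn hne] at hw
        constructor
        · left; exact v2
        · right
          rw [fa]
          refine X.passA hω hi (by omega) (by omega) ?_ ?_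
          · rintro ⟨q1, q2⟩
            subst q1
            exact Or.inr (hN j rfl (by omega) _ (by have := X.hk; omega))
          · intro hne'
            rw [← hw]
            exact (col_vtx X.x0 X.x1 v4 v5 hne').symm
      · exact absurd v2 hQ
      · exact absurd fi hQ
    · -- convex
      have fG : P + dir k = dg S h i := by rw [dg_dir, ← hPn]
      have fb : P + dir (k + 1) = T (2 * (h : ℤ)) (S.P.side (i + 1)) 0 := by rw [cvx_tiles hc, ← hPn]
      have hev : ¬ P.1 % 2 = 1 := by rw [hPp, hjn]; omega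
      have hP' : P = W (2 * (h : ℤ)) (S.P.side (i + 1)) 0 := by rw [W_next, hPn]
      have hcv : (i + 1 = S.m2 ∨ i + 1 = S.m3 ∨ i + 1 = S.N) ∨ Cv S i := by
        by_cases h1 : i + 1 = S.m2 ∨ i + 1 = S.m3 ∨ i + 1 = S.N
        · exact Or.inl h1
        · push Not at h1
          exact Or.inr ⟨hc, h1.1, h1.2.1, h1.2.2⟩
      rcases hr with rfl | rfl | rfl | rfl
      · rw [show k + -1 = k - 1 by ring] at *
        rw [fa] at he hQ hD hw
        have hne : ¬ (i = t ∧ (2 * (h : ℤ)) - 1 = x) := fun h => hD ((X.memD hi (by omega) (by omega)).2 h)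
        rw [X.memw hω hi (by omega) (by omega) hne] at hw
        have hcol : ¬ Col S t x i ((2 * (h : ℤ)) - 1) := fun h => hev (hw.1 h)
        constructor
        · right
          rw [show k - 1 + 1 = k by ring, fG]
          rcases hcv with hm | hcv
          · refine Or.inr (Or.inr ⟨X.mk_LamC hi hm, ?_⟩)
            have := X.mark_a hm hne hcol
            rwa [← hPn] at this
          · exact X.passG hω hi hcv (Or.inl ⟨hD, fun h =>
              hcol ((X.memW hi (by omega) (by omega) hne).1 h)⟩) hev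
        · left
          rw [show dir (k - 1 - 1) = dir (k + 2) from dirc (by omega)]
          exact fi
      · rw [add_zero] at *
        rw [fG] at he
        rcases hcv with hm | hcv
        · exact absurd he (X.mk_LamC hi hm)
        obtain ⟨g1, g2⟩ := X.clW_col hi hcv ((X.cv_LamC hi hcv).1 he)
        have hi1 : i + 1 < S.N := by
          obtain ⟨-, -, -, c4⟩ := hcv
          omega
        constructor
        · right
          rw [fb]
          refine X.passA hω hi1 le_rfl hn ?_ fun hne => iff_of_false (g2 hne) hev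
          rintro ⟨q1, q2⟩
          refine Or.inl (hS 0 (by rw [← q1]; exact hP') q2 _ ?_)
          have h3 := X.hk
          rw [← q1] at h3
          unfold Shape.k at h3 hk
          rw [hc] at h3
          simp only at h3
          omega
        · right
          rw [fa]
          refine X.passA hω hi (by omega) (by omega) ?_ fun hne => iff_of_false (g1 hne) hev
          rintro ⟨q1, q2⟩
          subst q1
          exact Or.inr (hN j rfl (by omega) _ (by have := X.hk; omega))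
      · rw [fb] at he hQ hD hw
        have hcol : i + 1 < S.N → ¬ Col S t x (i + 1) 0 := by
          intro hi1
          have hne : ¬ (i + 1 = t ∧ 0 = x) := fun h => hD ((X.memD hi1 le_rfl hn).2 h)
          rw [X.memw hω hi1 le_rfl hn hne] at hw
          exact fun h => hev (hw.1 h)
        constructor
        · left
          rw [show k + 1 + 1 = k + 2 by ring]
          exact fi
        · right
          rw [show k + 1 - 1 = k by ring, fG]
          rcases hcv with hm | hcv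
          · refine Or.inr (Or.inr ⟨X.mk_LamC hi hm, ?_⟩)
            have := X.mark_b hm hcol
            rwa [← hPn] at this
          · refine X.passG hω hi hcv (Or.inr ⟨hD, fun h => ?_⟩) hev
            exact hev (hw.1 (mem_union_right _ h))
      · exact absurd fi hQ

end XD

/-! ### The exit tile -/

lemma cs_ne (P : ℤ × ℤ) (m : ℤ) : cs P m ≠ cs P (m - 1) := by
  intro h
  unfold cs at h
  have hm : m % 4 = 0 ∨ m % 4 = 1 ∨ m % 4 = 2 ∨ m % 4 = 3 := by omega
  rcases hm with hm | hm | hm | hm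
  · rw [hm, show (m - 1) % 4 = 3 by omega] at h
    simp [Prod.ext_iff] at h
  · rw [hm, show (m - 1) % 4 = 0 by omega] at h
    simp [Prod.ext_iff] at h
  · rw [hm, show (m - 1) % 4 = 1 by omega] at h
    simp [Prod.ext_iff] at h
  · rw [hm, show (m - 1) % 4 = 2 by omega] at h
    simp [Prod.ext_iff] at h

namespace XD

variable (X : XD S h p t x)
include X

lemma dk : dir (S.k t) = (0, 1) ∧ dir (S.k t - 1) = (1, 0) ∧ dir (S.k t + 1) = (-1, 0) := by
  have hk := X.hk
  refine ⟨?_, ?_, ?_⟩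
  · rcases dir_cases (S.k t) with ⟨h, e⟩ | ⟨h, e⟩ | ⟨h, e⟩ | ⟨h, e⟩ <;>
      first | (exfalso; omega) | exact e
  · rcases dir_cases (S.k t - 1) with ⟨h, e⟩ | ⟨h, e⟩ | ⟨h, e⟩ | ⟨h, e⟩ <;>
      first | (exfalso; omega) | exact e
  · rcases dir_cases (S.k t + 1) with ⟨h, e⟩ | ⟨h, e⟩ | ⟨h, e⟩ | ⟨h, e⟩ <;>
      first | (exfalso; omega) | exact e

lemma X1 : T (2 * (h : ℤ)) (S.P.side t) x = W (2 * (h : ℤ)) (S.P.side t) x + (0, 1) := by
  rw [← X.dk.1]; exact T_eq _ _ _

lemma X2 : T (2 * (h : ℤ)) (S.P.side t) x = W (2 * (h : ℤ)) (S.P.side t) (x + 1) + (1, 0) := by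
  rw [← X.dk.2.1]; exact T_eq' _ _ _

lemma dnX : H13.W.dn (T (2 * (h : ℤ)) (S.P.side t) x) = W (2 * (h : ℤ)) (S.P.side t) x + dir (S.k t - 1) := by
  rw [X.X1, X.dk.2.1]
  unfold H13.W.dn
  refine Prod.ext ?_ ?_ <;> simp

lemma upX : up (T (2 * (h : ℤ)) (S.P.side t) x) = W (2 * (h : ℤ)) (S.P.side t) (x + 1) + dir (S.k t) := by
  rw [X.X2, X.dk.1]
  unfold up
  refine Prod.ext ?_ ?_ <;> simp

lemma upP : up (W (2 * (h : ℤ)) (S.P.side t) x) = W (2 * (h : ℤ)) (S.P.side t) (x + 1) := by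
  rw [W_succ]
  have := X.dk.1
  unfold Shape.k at this
  rw [this]
  unfold up pq
  refine Prod.ext ?_ ?_ <;> simp; rfl

lemma dnP : H13.W.dn (W (2 * (h : ℤ)) (S.P.side t) (x + 1)) = W (2 * (h : ℤ)) (S.P.side t) x := by
  rw [W_succ]
  have := X.dk.1
  unfold Shape.k at this
  rw [this]
  unfold H13.W.dn pq
  refine Prod.ext ?_ ?_ <;> simp

/-- `FF` at a mark -/
lemma FF_mark {i : ℕ} (hi : i < S.N) (hm : i + 1 = S.m2 ∨ i + 1 = S.m3 ∨ i + 1 = S.N)
    {c : ℤ × ℤ} (hc : H45.W.sq c (dg S h i)) : c ∈ FF S h p ↔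
      (i + 1 = S.m2 ∧ c = yy S h p 1) ∨ (i + 1 = S.m3 ∧ c = yy S h p 2) ∨ (i + 1 = S.N ∧ c = yy S h p 0) := by
  obtain ⟨a1, a2, a3⟩ := posN (S := S)
  have hcx : S.P.side (i + 1) = ((S.P.side i).1, (S.P.side i).2 + 1) := by
    refine S.cvx i ?_
    have : S.P.N = S.N := rfl
    omega
  have hod := dg_od (S := S) (h := h) i
  have n1 := dg_not_EE X.hh hcx
  have n2 : ¬ ∃ i' < S.N, dg S h i ∈ LY (2 * (h : ℤ)) (S.P.side i') := by
    rintro ⟨i', -, h1⟩
    exact dg_not_LY X.hh hcx h1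
  constructor
  · rintro (rfl | ⟨j, rfl⟩)
    · rcases X.z_tiles hod hc with h1 | h1
      · exact absurd h1 n1
      · exact absurd h1 n2
    · rcases X.y_tiles hod hc with h1 | ⟨h1, rfl⟩ | ⟨h1, rfl⟩ | ⟨h1, rfl⟩
      · exact absurd h1 n2
      · have := dg_inj X.hh hi (by omega) h1
        exact Or.inr (Or.inr ⟨by omega, rfl⟩)
      · have := dg_inj X.hh hi (by omega) h1
        exact Or.inl ⟨by omega, rfl⟩
      · have := dg_inj X.hh hi (by omega) h1
        exact Or.inr (Or.inl ⟨by omega, rfl⟩)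
  · rintro (⟨-, h1⟩ | ⟨-, h1⟩ | ⟨-, h1⟩)
    · exact Or.inr ⟨1, h1⟩
    · exact Or.inr ⟨2, h1⟩
    · exact Or.inr ⟨0, h1⟩

/-- `Pass` for the diagonal tile -/
lemma passD (hω : ω ⊆ EE S h) {i : ℕ}
    (hcx : S.P.side (i + 1) = ((S.P.side i).1, (S.P.side i).2 + 1)) {c P : ℤ × ℤ}
    (hP : ¬ P.1 % 2 = 1) :
    Pass (LamC S h p) (Del S.P.Q (2 * (h : ℤ)) p) (ω ∪ Wp S h p) (FF S h p) (dg S h i) c P ↔
      dg S h i ∈ LamC S h p ∨ (dg S h i ∉ LamC S h p ∧ c ∈ FF S h p) := by
  constructor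
  · rintro (h1 | h1 | h1)
    · exact Or.inl h1.1
    · exact Or.inl h1.1
    · exact Or.inr h1
  · rintro (h1 | h1)
    · exact Or.inl ⟨h1, X.dg_notD hcx, iff_of_false (X.dg_notw hω hcx) hP⟩
    · exact Or.inr (Or.inr h1)

/-- **below the exit tile** -/
theorem below (hω : ω ⊆ EE S h) :
    Pass (LamC S h p) (Del S.P.Q (2 * (h : ℤ)) p) (ω ∪ Wp S h p) (FF S h p) (H13.W.dn (T (2 * (h : ℤ)) (S.P.side t) x))
      (eS (T (2 * (h : ℤ)) (S.P.side t) x)) (W (2 * (h : ℤ)) (S.P.side t) x) ↔ (x % 2 = 1 ↔ Am S t) := by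
  obtain ⟨a1, a2, a3⟩ := posN (S := S)
  have hn := X.hn
  have hh := X.hh
  have x0 := X.x0
  have x1 := X.x1
  have ht := X.ht
  have hpar := W_par (h := h) (S.P.side t) x
  rw [X.dnX]
  by_cases hx : 0 < x
  · have e : W (2 * (h : ℤ)) (S.P.side t) x + dir (S.k t - 1) = T (2 * (h : ℤ)) (S.P.side t) (x - 1) := by
      rw [T_eq' (2 * (h : ℤ)) (S.P.side t) (x - 1), sub_add_cancel]; rfl
    rw [e, X.passT hω ht (by omega) (by omega) (by omega), hpar]
    unfold Col Af
    have : ¬ (t < t ∨ t = t ∧ x < x - 1) := by omega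
    tauto
  · have hx0 : x = 0 := by omega
    -- the side before
    obtain ⟨t', ht', hW, hT, htt, hkk⟩ : ∃ t' < S.N, W (2 * (h : ℤ)) (S.P.side t') (2 * (h : ℤ)) = W (2 * (h : ℤ)) (S.P.side t) x ∧
        T (2 * (h : ℤ)) (S.P.side (t' + 1)) 0 = T (2 * (h : ℤ)) (S.P.side t) x ∧ (t' + 1 = t ∨ (t' + 1 = S.N ∧ t = 0)) ∧
        S.k (t' + 1) % 4 = S.k t % 4 := by
      rcases Nat.eq_zero_or_pos t with h0 | h0
      · refine ⟨S.N - 1, by omega, ?_, ?_, Or.inr ⟨by omega, h0⟩, ?_⟩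
        · rw [← W_next, show S.N - 1 + 1 = S.N by omega, (T_N (2 * (h : ℤ)) 0).2, h0, hx0]
        · rw [show S.N - 1 + 1 = S.N by omega, (T_N (2 * (h : ℤ)) 0).1, h0, hx0]
        · rw [show S.N - 1 + 1 = S.N by omega, h0]
          have hp : S.P.side S.N = (S.P.s0.1, S.P.s0.2 + 4) := S.P.period
          have h0 : S.P.side 0 = S.P.s0 := rfl
          unfold Shape.k
          rw [hp, h0]
          simp
      · have e : t - 1 + 1 = t := by omega
        refine ⟨t - 1, by omega, ?_, ?_, Or.inl e, ?_⟩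
        · rw [← W_next, e, hx0]
        · rw [e, hx0]
        · rw [e]
    have hev : ¬ (W (2 * (h : ℤ)) (S.P.side t) x).1 % 2 = 1 := by rw [hpar, hx0]; omega
    have hX1 : T (2 * (h : ℤ)) (S.P.side t) x = W (2 * (h : ℤ)) (S.P.side t) x + dir (S.k t) := T_eq _ _ _
    rcases vtx (S := S) (h := h) hh ht' with ⟨v1, v2, v3, v4⟩ | ⟨v1, v2, v3, v4, v5⟩ | hc
    · exfalso
      have := X.one t' ht' (by
        rw [← hT, ← v4]
        exact (LY_T hn).2 ⟨(2 * (h : ℤ)) - 1, ⟨by omega, by omega⟩, rfl⟩)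
      omega
    · have htt : t' + 1 = t := by omega
      have hd : dir (S.k t') = dir (S.k t) := by
        rw [hT, hX1, hW] at v1
        exact add_left_cancel v1
      have hd' : dir (S.k t - 1) = dir (S.k t' - 1) := by
        apply dirc
        rcases dir_cases (S.k t') with ⟨b1, b2⟩ | ⟨b1, b2⟩ | ⟨b1, b2⟩ | ⟨b1, b2⟩ <;>
          rcases dir_cases (S.k t) with ⟨c1, c2⟩ | ⟨c1, c2⟩ | ⟨c1, c2⟩ | ⟨c1, c2⟩ <;>
          rw [b2, c2] at hd <;> first | omega | (exfalso; simp at hd)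
      have e : W (2 * (h : ℤ)) (S.P.side t) x + dir (S.k t - 1) = T (2 * (h : ℤ)) (S.P.side t') ((2 * (h : ℤ)) - 1) := by
        rw [T_eq' (2 * (h : ℤ)) (S.P.side t') ((2 * (h : ℤ)) - 1), sub_add_cancel, hd', hW]; rfl
      rw [e, X.passT hω ht' (by omega) (by omega) (by omega), hpar]
      have hA : Am S t ↔ Am S t' := by rw [← htt]; exact Am_succ v4 v5
      rw [hA]
      unfold Col Af
      have : ¬ (t < t' ∨ t = t' ∧ x < (2 * (h : ℤ)) - 1) := by omega
      tauto
    · have hd : dir (S.k t - 1) = dir (S.k t') := by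
        apply dirc
        have : S.k (t' + 1) = S.k t' + 1 := by unfold Shape.k; rw [hc]
        omega
      have e : W (2 * (h : ℤ)) (S.P.side t) x + dir (S.k t - 1) = dg S h t' := by rw [dg_dir, hW, hd]
      have hcs : eS (T (2 * (h : ℤ)) (S.P.side t) x) = cs (W (2 * (h : ℤ)) (S.P.side t') (2 * (h : ℤ))) (S.k t') := by
        rw [X.eS_X, hW]
        apply cs_congr
        have : S.k (t' + 1) = S.k t' + 1 := by unfold Shape.k; rw [hc]
        omega
      have hsq : H45.W.sq (eS (T (2 * (h : ℤ)) (S.P.side t) x)) (dg S h t') := by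
        rw [hcs, dg_dir]; exact (sq_cs _ _).2.1
      rw [e, X.passD hω hc hev]
      by_cases hm : t' + 1 = S.m2 ∨ t' + 1 = S.m3 ∨ t' + 1 = S.N
      · have n1 := X.mk_LamC ht' hm
        rw [X.FF_mark ht' hm hsq, hcs]
        obtain ⟨y0, y1, y2⟩ := yy_cs X
        have hxx : ¬ x % 2 = 1 := by omega
        rcases hm with hm | hm | hm
        · have e1 : t' = S.m2 - 1 := by omega
          have htm : t = S.m2 := by omega
          rw [if_neg (by omega), ← e1] at y1
          rw [y1]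
          have hne := cs_ne (W (2 * (h : ℤ)) (S.P.side t') (2 * (h : ℤ))) (S.k t')
          have hA : Am S t := ⟨by omega, by omega⟩
          constructor
          · rintro (h1 | ⟨-, ⟨-, h1⟩ | ⟨h1, -⟩ | ⟨h1, -⟩⟩)
            · exact absurd h1 n1
            · exact absurd h1 hne
            · omega
            · omega
          · intro h1
            exact absurd (h1.2 hA) hxx
        · have e1 : t' = S.m3 - 1 := by omega
          have htm : t = S.m3 := by omega
          rw [if_neg (by omega), ← e1] at y2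
          have hA : ¬ Am S t := by unfold Am; omega
          exact iff_of_true (Or.inr ⟨n1, Or.inr (Or.inl ⟨hm, y2.symm⟩)⟩) (iff_of_false hxx hA)
        · have e1 : t' = S.N - 1 := by omega
          have htm : t = 0 := by omega
          rw [← e1] at y0
          have hA : ¬ Am S t := by unfold Am; omega
          exact iff_of_true (Or.inr ⟨n1, Or.inr (Or.inr ⟨hm, y0.symm⟩)⟩) (iff_of_false hxx hA)
      · push Not at hm
        have hcv : Cv S t' := ⟨hc, hm.1, hm.2.1, hm.2.2⟩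
        have htt : t' + 1 = t := by omega
        have hA : Am S t ↔ Am S t' := by rw [← htt]; exact Am_succ hm.1 hm.2.1
        have hno := X.cv_FF ht' hcv hsq
        have hxx : ¬ x % 2 = 1 := by omega
        rw [X.cv_LamC ht' hcv]
        have hcol : Col S t x t' ((2 * (h : ℤ)) - 1) ↔ Am S t' := by
          unfold Col Af
          have : ¬ (t < t' ∨ t = t' ∧ x < (2 * (h : ℤ)) - 1) := by omega
          tauto
        have hW' : ClW S h p t' ↔ ¬ Am S t' := by
          rw [← hcol]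
          unfold ClW
          rw [hT, X.memD ht' (by omega) (by omega), X.memW ht' (by omega) (by omega) (by omega)]
          have h3 := X.mem
          have h4 : ¬ (t' = t ∧ (2 * (h : ℤ)) - 1 = x) := by omega
          tauto
        rw [hW', hA]
        tauto

/-- **above the exit tile** -/
theorem above (hω : ω ⊆ EE S h) :
    Pass (LamC S h p) (Del S.P.Q (2 * (h : ℤ)) p) (ω ∪ Wp S h p) (FF S h p) (up (T (2 * (h : ℤ)) (S.P.side t) x))
      (eN (T (2 * (h : ℤ)) (S.P.side t) x)) (W (2 * (h : ℤ)) (S.P.side t) (x + 1)) ↔ ((x + 1) % 2 = 1 ↔ ¬ Am S t) := by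
  obtain ⟨a1, a2, a3⟩ := posN (S := S)
  have hn := X.hn
  have hh := X.hh
  have x0 := X.x0
  have x1 := X.x1
  have ht := X.ht
  have hpar := W_par (h := h) (S.P.side t) (x + 1)
  rw [X.upX]
  by_cases hx : x + 1 < (2 * (h : ℤ))
  · have e : W (2 * (h : ℤ)) (S.P.side t) (x + 1) + dir (S.k t) = T (2 * (h : ℤ)) (S.P.side t) (x + 1) := (T_eq _ _ _).symm
    rw [e, X.passT hω ht (by omega) hx (by omega), hpar]
    unfold Col Af
    have : t < t ∨ t = t ∧ x < x + 1 := Or.inr ⟨rfl, by omega⟩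
    tauto
  · have hxn : x + 1 = (2 * (h : ℤ)) := by omega
    have hev : ¬ (W (2 * (h : ℤ)) (S.P.side t) (x + 1)).1 % 2 = 1 := by rw [hpar, hxn]; omega
    have hxx : ¬ (x + 1) % 2 = 1 := by omega
    have hX2 : x = (2 * (h : ℤ)) - 1 := by omega
    rcases vtx (S := S) (h := h) hh ht with ⟨v1, v2, v3, v4⟩ | ⟨v1, v2, v3, v4, v5⟩ | hc
    · exfalso
      have := X.one (t + 1) v3 (by
        rw [hX2, v4]
        exact (LY_T hn).2 ⟨0, ⟨le_rfl, hn⟩, rfl⟩)
      omega
    · rw [hxn, v1, X.passT hω v3 le_rfl hn (by omega)]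
      rw [hxn] at hpar
      rw [hpar]
      have hA : Am S (t + 1) ↔ Am S t := Am_succ v4 v5
      rw [← hA]
      unfold Col Af
      have : t < t + 1 ∨ t = t + 1 ∧ x < 0 := Or.inl (by omega)
      tauto
    · have hcs : eN (T (2 * (h : ℤ)) (S.P.side t) x) = cs (W (2 * (h : ℤ)) (S.P.side t) (2 * (h : ℤ))) (S.k t - 1) := by
        rw [X.eN_X, hxn]
      have e : W (2 * (h : ℤ)) (S.P.side t) (x + 1) + dir (S.k t) = dg S h t := by rw [dg_dir, hxn]
      have hsq : H45.W.sq (eN (T (2 * (h : ℤ)) (S.P.side t) x)) (dg S h t) := by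
        rw [hcs, dg_dir]
        have := (sq_cs (W (2 * (h : ℤ)) (S.P.side t) (2 * (h : ℤ))) (S.k t - 1)).2.2
        rwa [sub_add_cancel] at this
      rw [e, X.passD hω hc hev]
      by_cases hm : t + 1 = S.m2 ∨ t + 1 = S.m3 ∨ t + 1 = S.N
      · have n1 := X.mk_LamC ht hm
        rw [X.FF_mark ht hm hsq, hcs]
        obtain ⟨y0, y1, y2⟩ := yy_cs X
        have hne := cs_ne (W (2 * (h : ℤ)) (S.P.side t) (2 * (h : ℤ))) (S.k t)
        rcases hm with hm | hm | hm
        · have e1 : t = S.m2 - 1 := by omega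
          rw [if_pos (by omega), ← e1] at y1
          rw [y1]
          have hA : ¬ Am S t := by unfold Am; omega
          constructor
          · rintro (h1 | ⟨-, ⟨-, h1⟩ | ⟨h1, -⟩ | ⟨h1, -⟩⟩)
            · exact absurd h1 n1
            · exact absurd h1.symm hne
            · omega
            · omega
          · intro h1
            exact absurd (h1.2 hA) hxx
        · have e1 : t = S.m3 - 1 := by omega
          rw [if_pos (by omega), ← e1] at y2
          have hA : Am S t := ⟨by omega, by omega⟩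
          exact iff_of_true (Or.inr ⟨n1, Or.inr (Or.inl ⟨hm, y2.symm⟩)⟩)
            (iff_of_false hxx (not_not.2 hA))
        · have e1 : t = S.N - 1 := by omega
          rw [← e1] at y0
          rw [y0]
          have hA : ¬ Am S t := by unfold Am; omega
          constructor
          · rintro (h1 | ⟨-, ⟨h1, -⟩ | ⟨h1, -⟩ | ⟨-, h1⟩⟩)
            · exact absurd h1 n1
            · omega
            · omega
            · exact absurd h1.symm hne
          · intro h1
            exact absurd (h1.2 hA) hxx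
      · push Not at hm
        have hcv : Cv S t := ⟨hc, hm.1, hm.2.1, hm.2.2⟩
        have ht1 : t + 1 < S.N := by omega
        have hA : Am S (t + 1) ↔ Am S t := Am_succ hm.1 hm.2.1
        have hno := X.cv_FF ht hcv hsq
        rw [X.cv_LamC ht hcv]
        have hcol : Col S t x (t + 1) 0 ↔ ¬ Am S (t + 1) := by
          unfold Col Af
          have : t < t + 1 ∨ t = t + 1 ∧ x < 0 := Or.inl (by omega)
          tauto
        have hW' : ClW S h p t ↔ Am S (t + 1) := by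
          unfold ClW
          rw [X.memD ht1 le_rfl hn, X.memW ht1 le_rfl hn (by omega), ← hX2]
          have h3 := X.mem
          have h4 : ¬ (t + 1 = t ∧ 0 = x) := by omega
          tauto
        rw [hW', hA]
        tauto

end XD

end Pool.Agent.H72.W.V
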