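import Mathlib
import Pool.Agent.H72.W.EndsV

set_option autoImplicit false
open Finset

/-! # The far end of the strand in 74's world exists and is unique

`wldV`, `extV` : the local facts of `EndsA` for the polygon world (`LamC` = `Lam3` without the diagonal tiles
between open walls, `FF` = interior end and far ends). `far_exists_V`, `ex_unique_V`, `sum_pj`. -/

namespace Pool.Agent.H72.W.V

open Pool.Agent.H75.Perc hiding WL CT hh PB
open Pool.Agent.H75.TwoArm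
open Pool.Agent.H99.W Pool.Agent.H13.W
open Pool.Agent.H45.W (od ev od_ot sq_ot lab_cases' sq_eW Pass PB AS lf rt)
open Pool.Agent.H33.Q1 (lt tt lt_odd tt_lt lt_tt lt_inj ct ct_eq ct_of LY mem_LY mem_LY' wp io it io_dir
  ct_add_dir ct_it ct_ot ot_eq isSide_side' lt_mem_TL mem_TL)
open Pool.Agent.Q1.M4 (Cell Good IsSide nextSide tail head PType)
open Pool.Agent.H21.FM (Shape EE wv)
open Pool.Agent.H5.Q1 (oc)
open Pool.Agent.H37.W (dg dg_eq dg_inj dg_not_LY dg_not_EE)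
open Pool.Agent.H74.W (Lam3 Del Ex Aft Wp yy GW Cv)
open Pool.Agent.H47.W (mem_Lam3 posN side_succ next_cases wp_next)

variable {S : Shape} {h : ℕ} {p : ℤ × ℤ} {t : ℕ} {x : ℤ} {ω : Finset (ℤ × ℤ)}

/-- the tiles next to a tile of the polygon -/
lemma lay_EE (hh : 1 ≤ h) {e c : ℤ × ℤ} (he : e ∈ EE S h) (hs : H45.W.sq c e) :
    H45.W.ot c e ∈ EE S h ∨ ∃ i < S.N, H45.W.ot c e ∈ LY (2 * (h : ℤ)) (S.P.side i) := by
  obtain ⟨o1, o2⟩ := (mem_EE hh).1 he
  -- the direction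
  obtain ⟨l, hl⟩ : ∃ l, tt (H45.W.ot c e) = tt e + dir l := by
    have d0 : dir 0 = (1, 0) := by
      rcases dir_cases 0 with ⟨h, e⟩ | ⟨h, e⟩ | ⟨h, e⟩ | ⟨h, e⟩ <;> first | (exfalso; omega) | exact e
    have d1 : dir 1 = (0, 1) := by
      rcases dir_cases 1 with ⟨h, e⟩ | ⟨h, e⟩ | ⟨h, e⟩ | ⟨h, e⟩ <;> first | (exfalso; omega) | exact e
    have d2 : dir 2 = (-1, 0) := by
      rcases dir_cases 2 with ⟨h, e⟩ | ⟨h, e⟩ | ⟨h, e⟩ | ⟨h, e⟩ <;> first | (exfalso; omega) | exact e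
    have d3 : dir 3 = (0, -1) := by
      rcases dir_cases 3 with ⟨h, e⟩ | ⟨h, e⟩ | ⟨h, e⟩ | ⟨h, e⟩ <;> first | (exfalso; omega) | exact e
    unfold H45.W.od at o1
    rcases (H45.W.sq_iff o1).1 hs with h | h | h | h
    · refine ⟨2, ?_⟩
      rw [h, H45.W.ot_eW, d2]
      unfold tt lf
      refine Prod.ext ?_ ?_ <;> simp only [Prod.fst_add, Prod.snd_add] <;> omega
    · refine ⟨0, ?_⟩
      rw [h, H45.W.ot_eE, d0]
      unfold tt rt
      refine Prod.ext ?_ ?_ <;> simp only [Prod.fst_add, Prod.snd_add] <;> omega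
    · refine ⟨3, ?_⟩
      rw [h, H45.W.ot_eS, d3]
      unfold tt H13.W.dn
      refine Prod.ext ?_ ?_ <;> simp only [Prod.fst_add, Prod.snd_add] <;> omega
    · refine ⟨1, ?_⟩
      rw [h, H45.W.ot_eN, d1]
      unfold tt up
      refine Prod.ext ?_ ?_ <;> simp only [Prod.fst_add, Prod.snd_add] <;> omega
  have ho := od_ot (c := c) o1
  by_cases hc : ct (2 * (h : ℤ)) (tt (H45.W.ot c e)) ∈ S.P.Q
  · exact Or.inl ((mem_EE hh).2 ⟨ho, hc⟩)
  · right
    obtain ⟨i, hi, -, h3⟩ := LY_of (by omega) hc (l := l) (by rw [hl, add_sub_cancel_right]; exact o2)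
    rw [lt_tt ho] at h3
    exact ⟨i, hi, h3⟩

namespace XD

variable (X : XD S h p t x)
include X

lemma LamC_sub : LamC S h p ⊆ (Lam3 S h : Set (ℤ × ℤ)) := by
  intro e he
  rw [mem_coe, mem_Lam3]
  rcases he with h1 | h1 | ⟨i, hi, h2, h3, -⟩
  · exact Or.inl h1
  · exact Or.inr (Or.inl h1)
  · exact Or.inr (Or.inr ⟨i, hi, h2, h3⟩)

/-- the tiles of `LamC \ D` which are deleted and not in the polygon -/
lemma layD {e : ℤ × ℤ} (hD : e ∈ Del S.P.Q (2 * (h : ℤ)) p) (hQ : e ∉ EE S h) : e = T (2 * (h : ℤ)) (S.P.side t) x :=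
  (X.del hD).resolve_right hQ

lemma dn_lt : H13.W.dn (T (2 * (h : ℤ)) (S.P.side t) x) = lt (tt (T (2 * (h : ℤ)) (S.P.side t) x) - dir 1) := by
  have d1 : dir 1 = (0, 1) := by
    rcases dir_cases 1 with ⟨h, e⟩ | ⟨h, e⟩ | ⟨h, e⟩ | ⟨h, e⟩ <;> first | (exfalso; omega) | exact e
  have ho : od (T (2 * (h : ℤ)) (S.P.side t) x) := od_T
  rw [d1]
  unfold H13.W.dn lt tt
  unfold H45.W.od at ho
  refine Prod.ext ?_ ?_ <;> simp only [Prod.fst_sub, Prod.snd_sub] <;> omega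

lemma up_lt : up (T (2 * (h : ℤ)) (S.P.side t) x) = lt (tt (T (2 * (h : ℤ)) (S.P.side t) x) - dir 3) := by
  have d1 : dir 3 = (0, -1) := by
    rcases dir_cases 3 with ⟨h, e⟩ | ⟨h, e⟩ | ⟨h, e⟩ | ⟨h, e⟩ <;> first | (exfalso; omega) | exact e
  have ho : od (T (2 * (h : ℤ)) (S.P.side t) x) := od_T
  rw [d1]
  unfold up lt tt
  unfold H45.W.od at ho
  refine Prod.ext ?_ ?_ <;> simp only [Prod.fst_sub, Prod.snd_sub] <;> omega

/-- a tile of the second column of a right wall is in the cell of its left neighbour -/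
lemma rt_ct {v : ℤ} : ct (2 * (h : ℤ)) ((2 * (h : ℤ)) * (tail (S.P.side t)).1 + 1, v) = ct (2 * (h : ℤ)) ((2 * (h : ℤ)) * (tail (S.P.side t)).1, v) := by
  have hn := X.hn
  have hh := X.hh
  unfold ct
  refine Prod.ext ?_ rfl
  simp only
  rw [Int.mul_ediv_cancel_left _ hn.ne', add_comm, Int.add_mul_ediv_left _ _ hn.ne',
    Int.ediv_eq_zero_of_lt (by omega) (by omega), zero_add]

/-- the right end of the horizontal sides of the exit tile is not a point of the polygon -/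
lemma right_pt {P : ℤ × ℤ} (hP : ev P) (hB : PB (EE S h : Set (ℤ × ℤ)) P) :
    (H45.W.sq (eS (T (2 * (h : ℤ)) (S.P.side t) x)) P → P = W (2 * (h : ℤ)) (S.P.side t) x) ∧
    (H45.W.sq (eN (T (2 * (h : ℤ)) (S.P.side t) x)) P → P = W (2 * (h : ℤ)) (S.P.side t) (x + 1)) := by
  have hh := X.hh
  have hrow := row_T (n := (2 * (h : ℤ))) X.hk x
  have hX1 := X.X1
  have ho : od (T (2 * (h : ℤ)) (S.P.side t) x) := od_T
  have n0 := X.not_EE
  have n1 := X.X_nb (l := 1) (Or.inl rfl)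
  have n3 := X.X_nb (l := 3) (Or.inr rfl)
  have d1 : dir 1 = (0, 1) := by
    rcases dir_cases 1 with ⟨h, e⟩ | ⟨h, e⟩ | ⟨h, e⟩ | ⟨h, e⟩ <;> first | (exfalso; omega) | exact e
  have d3 : dir 3 = (0, -1) := by
    rcases dir_cases 3 with ⟨h, e⟩ | ⟨h, e⟩ | ⟨h, e⟩ | ⟨h, e⟩ <;> first | (exfalso; omega) | exact e
  rw [hrow, mem_EE hh, tt_lt] at n1 n3
  rw [mem_EE hh, hrow] at n0
  rw [d1] at n1
  rw [d3] at n3
  -- cells in the column of the exit tile and in the next column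
  have c0 : ct (2 * (h : ℤ)) ((2 * (h : ℤ)) * (tail (S.P.side t)).1, (2 * (h : ℤ)) * (tail (S.P.side t)).2 + x) ∉ S.P.Q := fun h => n0 ⟨ho, h⟩
  have c1 : ct (2 * (h : ℤ)) ((2 * (h : ℤ)) * (tail (S.P.side t)).1, (2 * (h : ℤ)) * (tail (S.P.side t)).2 + x - 1) ∉ S.P.Q := fun h =>
    n1 ⟨lt_odd _, by simpa using h⟩
  have c3 : ct (2 * (h : ℤ)) ((2 * (h : ℤ)) * (tail (S.P.side t)).1, (2 * (h : ℤ)) * (tail (S.P.side t)).2 + x + 1) ∉ S.P.Q := fun h =>
    n3 ⟨lt_odd _, by simpa using h⟩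
  have c0' := c0
  have c1' := c1
  have c3' := c3
  rw [← X.rt_ct] at c0' c1' c3'
  -- coordinates of the exit tile
  have hT : T (2 * (h : ℤ)) (S.P.side t) x = lt ((2 * (h : ℤ)) * (tail (S.P.side t)).1, (2 * (h : ℤ)) * (tail (S.P.side t)).2 + x) := by
    rw [← hrow, lt_tt ho]
  have hW : W (2 * (h : ℤ)) (S.P.side t) x = T (2 * (h : ℤ)) (S.P.side t) x - (0, 1) := by rw [hX1, add_sub_cancel_right]
  have hW2 : W (2 * (h : ℤ)) (S.P.side t) (x + 1) = T (2 * (h : ℤ)) (S.P.side t) x - (1, 0) := by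
    rw [X.X2, add_sub_cancel_right]
  set A := (2 * (h : ℤ)) * (tail (S.P.side t)).1 with hA
  set B := (2 * (h : ℤ)) * (tail (S.P.side t)).2 + x with hB'
  obtain ⟨q, hq, c, q1, q2⟩ := hB
  obtain ⟨o1, o2⟩ := (mem_EE hh).1 (mem_coe.1 hq)
  -- the tile `q` in tile coordinates
  have hqe : ∀ u v : ℤ, tt q = (u, v) → ¬ ((u = A ∨ u = A + 1) ∧ (v = B - 1 ∨ v = B ∨ v = B + 1)) := by
    rintro u v h1 ⟨rfl | rfl, rfl | rfl | rfl⟩ <;> rw [h1] at o2
    · exact c1 o2
    · exact c0 o2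
    · exact c3 o2
    · exact c1' o2
    · exact c0' o2
    · exact c3' o2
  have hk := hqe (tt q).1 (tt q).2 rfl
  rw [hW, hW2, hT]
  unfold H45.W.od at o1
  unfold H45.W.ev at hP
  unfold tt at hk
  unfold eS eN lt H45.W.sq at *
  clear_value A B
  clear hW hW2 hX1 hT hrow c0 c1 c3 c0' c1' c3' hqe o2 n0 n1 n3 ho hA hB'
  obtain ⟨a, b⟩ := P
  obtain ⟨u, v⟩ := q
  obtain ⟨c, d⟩ := c
  simp only [Prod.mk_sub_mk, Prod.mk.injEq] at *
  constructor
  · intro h1
    omega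
  · intro h1
    omega

/-- **The local facts for the polygon world.** -/
theorem wldV (hω : ω ⊆ EE S h) :
    WldV (EE S h) (LamC S h p) (Del S.P.Q (2 * (h : ℤ)) p) (ω ∪ Wp S h p) (FF S h p) where
  odd := by
    rintro e (h1 | ⟨i, -, h1⟩ | ⟨i, -, -, rfl, -⟩)
    · exact ((mem_EE X.hh).1 h1).1
    · exact ((mem_LY X.hn).1 h1).1
    · exact dg_od i
  sub := fun e he => Or.inl he
  lay := by
    intro e he c hs
    rcases lay_EE X.hh (mem_coe.1 he) hs with h1 | h1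
    · exact Or.inl h1
    · exact Or.inr (Or.inl h1)
  nxt := by
    intro P e c hB hP he hQ hD hw h1 h2
    have hQ' : e ∉ EE S h := fun h => hQ (mem_coe.2 h)
    have ho : od e := by
      rcases he with h1 | ⟨i, -, h1⟩ | ⟨i, -, -, rfl, -⟩
      · exact ((mem_EE X.hh).1 h1).1
      · exact ((mem_LY X.hn).1 h1).1
      · exact dg_od i
    obtain ⟨m, rfl, hc⟩ := at_pt ho hP h1 h2
    obtain ⟨i, hi, j, j0, j1, rfl⟩ := wallpt X.hh hP hB hQ'
    obtain ⟨k1, k2⟩ := X.nxt_at hω hi j0 j1 he hQ' hD hw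
    rcases hc with rfl | rfl
    · rw [(ot_cs _ _).1]
      exact k1
    · have e1 := (ot_cs (W (2 * (h : ℤ)) (S.P.side i) j) (m - 1)).2
      rw [sub_add_cancel] at e1
      rw [e1]
      exact k2
  dnq := by
    intro e he hD hQ
    have := X.layD hD fun h => hQ (mem_coe.2 h)
    subst this
    rw [X.up_lt, X.dn_lt]
    exact ⟨fun h => X.X_nb (Or.inr rfl) (mem_coe.1 h), fun h => X.X_nb (Or.inl rfl) (mem_coe.1 h)⟩
  dup := by
    intro e he hD hQ P hB hP hs hpass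
    have := X.layD hD fun h => hQ (mem_coe.2 h)
    subst this
    have hP' := (X.right_pt hP hB).1 hs
    subst hP'
    rw [X.below hω] at hpass
    rw [X.upP]
    refine ⟨⟨lt (it (2 * (h : ℤ)) (S.P.side t) x), mem_coe.2 (I_EE X.hh X.x0 X.x1),
      cs (W (2 * (h : ℤ)) (S.P.side t) (x + 1)) (S.k t + 2), ?_, (sq_cs _ _).1⟩, ?_⟩
    · rw [I_eq']; exact (sq_cs _ _).2.1
    · rw [X.above hω]
      have h1 : (x + 1) % 2 = 1 ↔ ¬ x % 2 = 1 := by omega
      rw [h1]
      tauto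
  ddn := by
    intro e he hD hQ P hB hP hs hpass
    have := X.layD hD fun h => hQ (mem_coe.2 h)
    subst this
    have hP' := (X.right_pt hP hB).2 hs
    subst hP'
    rw [X.above hω] at hpass
    rw [X.dnP]
    refine ⟨⟨lt (it (2 * (h : ℤ)) (S.P.side t) x), mem_coe.2 (I_EE X.hh X.x0 X.x1),
      cs (W (2 * (h : ℤ)) (S.P.side t) x) (S.k t + 1), ?_, (sq_cs _ _).1⟩, ?_⟩
    · rw [I_eq]; exact (sq_cs _ _).2.1
    · rw [X.below hω]
      have h1 : (x + 1) % 2 = 1 ↔ ¬ x % 2 = 1 := by omega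
      rw [h1] at hpass
      tauto
  row := by
    intro e he hD
    obtain ⟨b1, b2, b3, b4⟩ := hD
    have hte : e = lt (tt e) := (lt_tt b1).symm
    have hr : rt e = lt ((tt e).1 + 1, (tt e).2) := by
      conv_lhs => rw [hte]
      unfold rt lt
      refine Prod.ext ?_ ?_ <;> simp <;> ring
    have hl : lf e = lt ((tt e).1 - 1, (tt e).2) := by
      conv_lhs => rw [hte]
      unfold lf lt
      refine Prod.ext ?_ ?_ <;> simp <;> ring
    constructor
    · intro hq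
      right
      have hce : ct (2 * (h : ℤ)) (tt e) ∈ S.P.Q := by
        rcases hq with hq | hq
        · exact ((mem_EE X.hh).1 (mem_coe.1 hq)).2
        · -- the exit tile has no right neighbour in the polygon
          by_contra hc
          have h1 := X.layD ⟨b1, b2, b3, b4⟩ fun h => hc ((mem_EE X.hh).1 h).2
          have h2 := ((mem_EE X.hh).1 (mem_coe.1 hq)).2
          rw [hr, tt_lt] at h2
          rw [h1, row_T X.hk] at h2 hc
          simp only at h2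
          rw [X.rt_ct] at h2
          exact hc h2
      rw [hr]
      refine ⟨lt_odd _, by rw [tt_lt]; exact b2, by rw [tt_lt]; simp only; omega, ?_⟩
      rw [tt_lt]
      intro x' h1 h2
      simp only at h2
      rcases (show x' < (tt e).1 ∨ x' = (tt e).1 by omega) with h3 | h3
      · exact b4 x' h1 h3
      · rw [h3, ← b2]; exact hce
    · intro _
      rcases b3.lt_or_eq with h3 | h3
      · right
        rw [hl]
        refine ⟨lt_odd _, by rw [tt_lt]; exact b2, by rw [tt_lt]; simp only; omega, ?_⟩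
        rw [tt_lt]
        intro x' h1 h2
        simp only at h2
        exact b4 x' h1 (by omega)
      · left
        left
        rw [hte]
        congr 2
        exact Prod.ext h3.symm b2

/-- **The superfluous diagonal tiles.** -/
theorem extV : Ext (EE S h) (LamC S h p) (Lam3 S h) (FF S h p) where
  sub := X.LamC_sub
  ext := by
    intro e he hn c hc
    rw [mem_coe, mem_Lam3] at he
    have hcase : ∃ i < S.N, Cv S i ∧ dg S h i = e := by
      rcases he with h1 | h1 | h1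
      · exact absurd (Or.inl h1) hn
      · exact absurd (Or.inr (Or.inl h1)) hn
      · exact h1
    obtain ⟨i, hi, hcv, rfl⟩ := hcase
    refine ⟨X.cv_FF hi hcv hc, fun q hq hs => ?_⟩
    have ho := ((mem_EE X.hh).1 (mem_coe.1 hq)).1
    have n1 := dg_not_EE X.hh hcv.1
    have h1 : dg S h i ∈ EE S h ∨ ∃ i' < S.N, dg S h i ∈ LY (2 * (h : ℤ)) (S.P.side i') := by
      rcases lab_cases' ho hs (dg_od i) hc with h1 | h1
      · left; rw [h1]; exact mem_coe.1 hq
      · rw [h1]; exact lay_EE X.hh (mem_coe.1 hq) hs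
    rcases h1 with h1 | ⟨i', -, h1⟩
    · exact n1 h1
    · exact dg_not_LY X.hh hcv.1 h1

/-- the interior end is a side of a tile of the polygon -/
lemma z_AS : AS (EE S h : Set (ℤ × ℤ)) (LamC S h p) (Del S.P.Q (2 * (h : ℤ)) p) (ω ∪ Wp S h p) (FF S h p)
    (eW (lt p)) := by
  left
  obtain ⟨b1, b2, b3, b4⟩ := X.mem
  rcases b3.lt_or_eq with h3 | h3
  · exact ⟨lt p, mem_coe.2 ((mem_EE X.hh).2 ⟨lt_odd p, by rw [tt_lt]; exact b4 _ le_rfl h3⟩), sq_eW _⟩
  · refine ⟨lf (lt p), ?_, by rw [← H45.W.ot_eW]; exact sq_ot (sq_eW _)⟩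
    have e5 : tt (T (2 * (h : ℤ)) (S.P.side t) x) = p := Prod.ext h3.symm b2
    have hl := X.lyX
    rw [mem_LY X.hn] at hl
    have hd : dir ((S.P.side t).2 - 1) = (1, 0) := X.dk.2.1
    rw [e5, hd] at hl
    have h2 : lf (lt p) = lt (p - (1, 0)) := by
      unfold lf lt
      refine Prod.ext ?_ ?_ <;> simp <;> ring
    rw [mem_coe, h2, mem_EE X.hh, tt_lt]
    exact ⟨lt_odd _, hl.2.2 ▸ (isSide_side' S.P t).1⟩

/-- the interior end has a neighbour -/
lemma z_nb : ∃ y, (GW S h p ω).Adj (eW (lt p)) y := by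
  have h1 : lf (lt p) ∈ (Lam3 S h : Set (ℤ × ℤ)) := by
    have h2 := X.z_tiles (e := lf (lt p)) (by rw [← H45.W.ot_eW]; exact od_ot (lt_odd p))
      (by rw [← H45.W.ot_eW]; exact sq_ot (sq_eW _))
    rw [mem_coe, mem_Lam3]
    rcases h2 with h2 | h2
    · exact Or.inl h2
    · exact Or.inr (Or.inl h2)
  have h2 : lf (lt p) ∉ Del S.P.Q (2 * (h : ℤ)) p := by
    rintro ⟨-, -, h3, -⟩
    have : tt (lf (lt p)) = (p.1 - 1, p.2) := by
      unfold tt lf lt
      refine Prod.ext ?_ ?_ <;> simp only <;> omega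
    rw [this] at h3
    simp only at h3
    omega
  obtain ⟨d, hd⟩ := H45.W.exists_nb (w := ω ∪ Wp S h p) (D := Del S.P.Q (2 * (h : ℤ)) p) (e := lf (lt p))
    (c := eW (lt p)) (by rw [← H45.W.ot_eW]; exact od_ot (lt_odd p))
    (by rw [← H45.W.ot_eW]; exact sq_ot (sq_eW _)) (Or.inl h2)
  exact ⟨d, lf (lt p), h1, hd⟩

end XD

/-! ### The final statements -/

section final

variable (hh : 2 ≤ h) (hE : ∃ t, Ex S h p t) (hO : One S h p)
include hh hE hO

/-- **Local facts, for every configuration of the polygon.** -/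
theorem wldV (hω : ω ⊆ EE S h) :
    WldV (EE S h) (LamC S h p) (Del S.P.Q (2 * h) p) (ω ∪ Wp S h p) (FF S h p) := by
  obtain ⟨t, x, X⟩ := exists_XD (by omega) hE hO
  exact X.wldV hω

theorem extV : Ext (EE S h) (LamC S h p) (Lam3 S h) (FF S h p) := by
  obtain ⟨t, x, X⟩ := exists_XD (by omega) hE hO
  exact X.extV

/-- **Where the strands of the polygon end**: `c` is a side of a tile of the polygon. -/
theorem end_V (hω : ω ⊆ EE S h) {e c d : ℤ × ℤ} (he : e ∈ EE S h) (hc : H45.W.sq c e)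
    (hr : (GW S h p ω).Reachable c d) (hE' : IsEnd (GW S h p ω) d) (hn : ∃ y, (GW S h p ω).Adj d y) :
    d = eW (lt p) ∨ ∃ j, d = yy S h p j := by
  have H := wldV hh hE hO hω
  have X := extV hh hE hO
  have h1 := H.reach_mem X (Or.inl ⟨e, mem_coe.2 he, hc⟩) hr
  exact H.end_mem X h1 hE' hn

/-- the far ends are not the interior end -/
theorem yy_ne_z (j : Fin 3) : yy S h p j ≠ eW (lt p) := by
  obtain ⟨t, x, X⟩ := exists_XD (by omega) hE hO
  intro h1
  obtain ⟨-, o, ho⟩ := Pool.Agent.H47.W.yy_bd (S := S) (h := h) hh p j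
  have h2 : ∃ o, o ∉ (Lam3 S h : Set (ℤ × ℤ)) ∧ (o = lab (yy S h p j) ∨ o = plab (yy S h p j)) := by
    obtain ⟨g1, g2⟩ := ho
    exact ⟨o, g1, by tauto⟩
  obtain ⟨o, n1, n2⟩ := h2
  have n3 := (H45.W.lab_iff _ _).1 n2
  rw [h1] at n3
  apply n1
  rw [mem_coe, mem_Lam3]
  rcases X.z_tiles n3.1 n3.2 with h3 | h3
  · exact Or.inl h3
  · exact Or.inr (Or.inl h3)

/-- **The far end exists.** -/
theorem far_exists_V (hω : ω ⊆ EE S h) :
    ∃ j, (GW S h p ω).Reachable (eW (lt p)) (yy S h p j) := by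
  obtain ⟨t, x, X⟩ := exists_XD (by omega) hE hO
  obtain ⟨y, h1, h2, -, -, -, h3⟩ := (X.wldV hω).far_exists X.extV (Lam3 S h).finite_toSet
    (X.z_AS (ω := ω)) (Pool.Agent.H47.W.eW_isEnd p) X.z_nb
  rcases h1 with h1 | ⟨j, h1⟩
  · exact absurd h1 h2
  · exact ⟨j, h1 ▸ h3⟩

/-- **The far end is unique.** -/
theorem far_unique_V {j j' : Fin 3} (h1 : (GW S h p ω).Reachable (eW (lt p)) (yy S h p j))
    (h2 : (GW S h p ω).Reachable (eW (lt p)) (yy S h p j')) : j = j' := by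
  by_contra hne
  have h3 := H45.W.far_unique (Pool.Agent.H47.W.eW_isEnd p) (Pool.Agent.H47.W.yy_isEnd hh p j)
    (Pool.Agent.H47.W.yy_isEnd hh p j') (yy_ne_z hh hE hO j) (yy_ne_z hh hE hO j') h1 h2
  exact Pool.Agent.H47.W.yy_ne hh p (fun h => hne h.symm) h3

/-- **The far end exists and is unique.** -/
theorem ex_unique_V (hω : ω ⊆ EE S h) :
    ∃! j, (GW S h p ω).Reachable (eW (lt p)) (yy S h p j) := by
  obtain ⟨j, hj⟩ := far_exists_V hh hE hO hω
  exact ⟨j, hj, fun j' hj' => far_unique_V hh hE hO hj' hj⟩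

end final

end Pool.Agent.H72.W.V
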