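import Mathlib
import Pool.Agent.H41.W.Disc
import Pool.Agent.H33.Q1.Tile

set_option autoImplicit false
open Finset

/-!
# Discs of labels from simple closed boundary walks in the tile frame

`TWalk T n p` : `T` is a finite set of tiles, `p : ℤ → ℤ × ℤ` is a closed walk of period `2 n` through the
grid points, injective in a period, with the tiles of `T` on its left, which uses every edge between a tile
of `T` and a tile outside `T`. Then the labels of `T` form a disc (`TWalk.disc`).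
-/

namespace Pool.Agent.H72.W

open Pool.Agent.H75.Perc hiding dl
open Pool.Agent.H75.TwoArm Pool.Agent.H75.Four Pool.Agent.H75.Four.PivAux
open Pool.Agent.H41.W
open Pool.Agent.H33.Q1 (lt tt lt_odd tt_lt lt_tt lt_inj)

/-- the vertex at an even grid point -/
def gv (u : ℤ × ℤ) : ℤ × ℤ := ((u.1 - u.2) / 2, (u.1 + u.2) / 2)

/-- the face at an odd grid point -/
def gf (u : ℤ × ℤ) : ℤ × ℤ := ((u.1 - u.2 + 1) / 2, (u.1 + u.2 + 1) / 2)

/-- the edge from `u` to `u + d` has a tile of `T` on its left and no tile of `T` on its right -/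
def OkStep (T : Finset (ℤ × ℤ)) (u v : ℤ × ℤ) : Prop :=
  (v = (u.1 + 1, u.2) ∧ (u.1, u.2) ∈ T ∧ (u.1, u.2 - 1) ∉ T) ∨
  (v = (u.1, u.2 + 1) ∧ (u.1 - 1, u.2) ∈ T ∧ (u.1, u.2) ∉ T) ∨
  (v = (u.1 - 1, u.2) ∧ (u.1 - 1, u.2 - 1) ∈ T ∧ (u.1 - 1, u.2) ∉ T) ∨
  (v = (u.1, u.2 - 1) ∧ (u.1, u.2 - 1) ∈ T ∧ (u.1 - 1, u.2 - 1) ∉ T)

/-- A simple closed boundary walk of a set of tiles. -/
structure TWalk (T : Finset (ℤ × ℤ)) (n : ℤ) (p : ℤ → ℤ × ℤ) : Prop where
  pos : 0 < n
  per : ∀ s, p (s + 2 * n) = p s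
  inj : ∀ s t, p s = p t → 2 * n ∣ s - t
  par : ((p 0).1 + (p 0).2) % 2 = 0
  step : ∀ s, OkStep T (p s) (p (s + 1))
  hor : ∀ x y, ¬ ((x, y) ∈ T ↔ (x, y - 1) ∈ T) →
    ∃ s, (p s = (x, y) ∧ p (s + 1) = (x + 1, y)) ∨ (p s = (x + 1, y) ∧ p (s + 1) = (x, y))
  ver : ∀ x y, ¬ ((x, y) ∈ T ↔ (x - 1, y) ∈ T) →
    ∃ s, (p s = (x, y) ∧ p (s + 1) = (x, y + 1)) ∨ (p s = (x, y + 1) ∧ p (s + 1) = (x, y))

namespace TWalk

variable {T : Finset (ℤ × ℤ)} {n : ℤ} {p : ℤ → ℤ × ℤ}

lemma step_par (W : TWalk T n p) (s : ℤ) :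
    ((p (s + 1)).1 + (p (s + 1)).2) % 2 = ((p s).1 + (p s).2 + 1) % 2 := by
  rcases W.step s with h | h | h | h <;> rw [h.1] <;> simp only <;> omega

lemma par_int (W : TWalk T n p) (s : ℤ) : ((p s).1 + (p s).2) % 2 = s % 2 := by
  induction s using Int.induction_on with
  | zero => rw [W.par]; rfl
  | succ i ih => have := W.step_par i; omega
  | pred i ih =>
    have := W.step_par (-(i : ℤ) - 1)
    rw [show -(i : ℤ) - 1 + 1 = -(i : ℤ) by ring] at this
    omega

/-- the two neighbours on the walk of a point of the walk -/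
lemma eq_of_step (W : TWalk T n p) {s t : ℤ} (h : p t = p s) : p (t + 1) = p (s + 1) ∧
    p (t - 1) = p (s - 1) := by
  obtain ⟨c, hc⟩ := W.inj t s h
  have hper : ∀ (m : ℕ) (a : ℤ), p (a + m * (2 * n)) = p a := by
    intro m
    induction m with
    | zero => intro a; simp
    | succ m ih => intro a; rw [← ih a, ← W.per (a + m * (2 * n))]; congr 1; push_cast; ring
  have key : ∀ a, p (a + 2 * n * c) = p a := by
    intro a
    rcases le_total 0 c with h0 | h0
    · have := hper c.toNat a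
      rw [Int.toNat_of_nonneg h0] at this
      rw [← this]; congr 1; ring
    · have := hper (-c).toNat (a + 2 * n * c)
      rw [Int.toNat_of_nonneg (by omega)] at this
      rw [← this]; congr 1; ring
  have ht : t = s + 2 * n * c := by linarith
  constructor
  · rw [← key (s + 1)]; congr 1; linarith
  · rw [← key (s - 1)]; congr 1; linarith

/-- The tiles around a point of the walk: incoming and outgoing edge. -/
lemma tiles (W : TWalk T n p) (s : ℤ) {x y : ℤ} (h : p s = (x, y)) :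
    ((p (s + 1) = (x + 1, y) ∨ p (s - 1) = (x + 1, y)) ↔ ¬ ((x, y) ∈ T ↔ (x, y - 1) ∈ T)) ∧
    ((p (s + 1) = (x, y + 1) ∨ p (s - 1) = (x, y + 1)) ↔ ¬ ((x, y) ∈ T ↔ (x - 1, y) ∈ T)) ∧
    ((p (s + 1) = (x - 1, y) ∨ p (s - 1) = (x - 1, y)) ↔
      ¬ ((x - 1, y) ∈ T ↔ (x - 1, y - 1) ∈ T)) ∧
    ((p (s + 1) = (x, y - 1) ∨ p (s - 1) = (x, y - 1)) ↔
      ¬ ((x, y - 1) ∈ T ↔ (x - 1, y - 1) ∈ T)) := by
  have hout := W.step s
  have hin := W.step (s - 1)
  rw [sub_add_cancel, h] at hin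
  rw [h] at hout
  unfold OkStep at hout hin
  simp only at hout
  refine ⟨⟨?_, ?_⟩, ⟨?_, ?_⟩, ⟨?_, ?_⟩, ⟨?_, ?_⟩⟩
  · rintro (h1 | h1)
    · rw [h1] at hout
      simp only [Prod.mk.injEq] at hout
      rcases hout with h2 | h2 | h2 | h2
      · simp [h2.2.1, h2.2.2]
      all_goals omega
    · rw [h1] at hin
      simp only [Prod.mk.injEq] at hin
      rcases hin with h2 | h2 | h2 | h2
      · omega
      · omega
      · rw [show x + 1 - 1 = x by ring] at h2
        simp [h2.2.1, h2.2.2]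
      · omega
  · intro h1
    obtain ⟨t, h2 | h2⟩ := W.hor x y h1
    · left
      rw [← h2.2]
      exact (W.eq_of_step (h2.1.trans h.symm)).1.symm
    · right
      rw [← h2.1]
      have := (W.eq_of_step (h2.2.trans h.symm)).2
      rw [add_sub_cancel_right] at this
      exact this.symm
  · rintro (h1 | h1)
    · rw [h1] at hout
      simp only [Prod.mk.injEq] at hout
      rcases hout with h2 | h2 | h2 | h2
      · omega
      · simp [h2.2.1, h2.2.2]
      all_goals omega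
    · rw [h1] at hin
      simp only [Prod.mk.injEq] at hin
      rcases hin with h2 | h2 | h2 | h2
      · omega
      · omega
      · omega
      · rw [show y + 1 - 1 = y by ring] at h2
        simp [h2.2.1, h2.2.2]
  · intro h1
    obtain ⟨t, h2 | h2⟩ := W.ver x y h1
    · left
      rw [← h2.2]
      exact (W.eq_of_step (h2.1.trans h.symm)).1.symm
    · right
      rw [← h2.1]
      have := (W.eq_of_step (h2.2.trans h.symm)).2
      rw [add_sub_cancel_right] at this
      exact this.symm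
  · rintro (h1 | h1)
    · rw [h1] at hout
      simp only [Prod.mk.injEq] at hout
      rcases hout with h2 | h2 | h2 | h2
      · omega
      · omega
      · simp [h2.2.1, h2.2.2]
      · omega
    · rw [h1] at hin
      simp only [Prod.mk.injEq] at hin
      rcases hin with h2 | h2 | h2 | h2
      · simp [h2.2.1, h2.2.2]
      all_goals omega
  · intro h1
    obtain ⟨t, h2 | h2⟩ := W.hor (x - 1) y h1
    · right
      rw [sub_add_cancel] at h2
      rw [← h2.1]
      have := (W.eq_of_step (h2.2.trans h.symm)).2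
      rw [add_sub_cancel_right] at this
      exact this.symm
    · left
      rw [sub_add_cancel] at h2
      rw [← h2.2]
      exact (W.eq_of_step (h2.1.trans h.symm)).1.symm
  · rintro (h1 | h1)
    · rw [h1] at hout
      simp only [Prod.mk.injEq] at hout
      rcases hout with h2 | h2 | h2 | h2
      · omega
      · omega
      · omega
      · simp [h2.2.1, h2.2.2]
    · rw [h1] at hin
      simp only [Prod.mk.injEq] at hin
      rcases hin with h2 | h2 | h2 | h2
      · omega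
      · simp [h2.2.1, h2.2.2]
      all_goals omega
  · intro h1
    obtain ⟨t, h2 | h2⟩ := W.ver x (y - 1) h1
    · right
      rw [sub_add_cancel] at h2
      rw [← h2.1]
      have := (W.eq_of_step (h2.2.trans h.symm)).2
      rw [add_sub_cancel_right] at this
      exact this.symm
    · left
      rw [sub_add_cancel] at h2
      rw [← h2.2]
      exact (W.eq_of_step (h2.1.trans h.symm)).1.symm

lemma nb (W : TWalk T n p) (s : ℤ) {x y : ℤ} (h : p s = (x, y)) :
    (p (s + 1) = (x + 1, y) ∨ p (s + 1) = (x, y + 1) ∨ p (s + 1) = (x - 1, y) ∨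
      p (s + 1) = (x, y - 1)) ∧
    (p (s - 1) = (x + 1, y) ∨ p (s - 1) = (x, y + 1) ∨ p (s - 1) = (x - 1, y) ∨
      p (s - 1) = (x, y - 1)) := by
  have hout := W.step s
  have hin := W.step (s - 1)
  rw [sub_add_cancel, h] at hin
  rw [h] at hout
  constructor
  · rcases hout with h1 | h1 | h1 | h1 <;> rw [h1.1] <;> simp
  · rcases hin with h1 | h1 | h1 | h1
    all_goals
      have h2 := h1.1
      have h3 : p (s - 1) = ((p (s - 1)).1, (p (s - 1)).2) := rfl
      rw [Prod.mk.injEq] at h2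
      rw [h3]
      simp only [Prod.mk.injEq]
      omega

/-- the finite check at a point of the boundary -/
lemma fin_check : ∀ (t0 t1 t2 t3 : Bool) (o i : Fin 4),
    ((o = 0 ∨ i = 0) ↔ t0 ≠ t3) → ((o = 1 ∨ i = 1) ↔ t0 ≠ t1) → ((o = 2 ∨ i = 2) ↔ t1 ≠ t2) →
    ((o = 3 ∨ i = 3) ↔ t3 ≠ t2) → ∀ S : Fin 4 → ZMod 2,
    (if t3 then 0 else S 3 + S 0) + (if t1 then 0 else S 2 + S 1) + (if t0 then 0 else S 1 + S 0) +
      (if t2 then 0 else S 2 + S 3) = S i + S o := by
  decide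

/-- the four neighbours of a grid point -/
def nbr (x y : ℤ) (k : Fin 4) : ℤ × ℤ :=
  match k with
  | 0 => (x + 1, y)
  | 1 => (x, y + 1)
  | 2 => (x - 1, y)
  | 3 => (x, y - 1)

lemma nbr_inj {x y : ℤ} {k l : Fin 4} : nbr x y k = nbr x y l ↔ k = l := by
  constructor
  · intro h
    fin_cases k <;> fin_cases l <;> simp [nbr, Prod.ext_iff] at h ⊢ <;> omega
  · rintro rfl; rfl

/-- incoming and outgoing edge and the four tiles at a point of the walk -/
lemma around (W : TWalk T n p) (s : ℤ) {x y : ℤ} (h : p s = (x, y)) :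
    ∃ o i : Fin 4, p (s + 1) = nbr x y o ∧ p (s - 1) = nbr x y i ∧
      ((o = 0 ∨ i = 0) ↔ ¬ ((x, y) ∈ T ↔ (x, y - 1) ∈ T)) ∧
      ((o = 1 ∨ i = 1) ↔ ¬ ((x, y) ∈ T ↔ (x - 1, y) ∈ T)) ∧
      ((o = 2 ∨ i = 2) ↔ ¬ ((x - 1, y) ∈ T ↔ (x - 1, y - 1) ∈ T)) ∧
      ((o = 3 ∨ i = 3) ↔ ¬ ((x, y - 1) ∈ T ↔ (x - 1, y - 1) ∈ T)) := by
  obtain ⟨h1, h2⟩ := W.nb s h
  have ho : ∃ o : Fin 4, p (s + 1) = nbr x y o := by
    rcases h1 with h | h | h | h
    exacts [⟨0, h⟩, ⟨1, h⟩, ⟨2, h⟩, ⟨3, h⟩]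
  have hi : ∃ i : Fin 4, p (s - 1) = nbr x y i := by
    rcases h2 with h | h | h | h
    exacts [⟨0, h⟩, ⟨1, h⟩, ⟨2, h⟩, ⟨3, h⟩]
  obtain ⟨o, ho⟩ := ho
  obtain ⟨i, hi⟩ := hi
  obtain ⟨a, b, c, d⟩ := W.tiles s h
  rw [ho, hi] at a b c d
  refine ⟨o, i, ho, hi, ?_, ?_, ?_, ?_⟩
  · rw [← a]; exact or_congr (nbr_inj (l := 0)).symm (nbr_inj (l := 0)).symm
  · rw [← b]; exact or_congr (nbr_inj (l := 1)).symm (nbr_inj (l := 1)).symm
  · rw [← c]; exact or_congr (nbr_inj (l := 2)).symm (nbr_inj (l := 2)).symm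
  · rw [← d]; exact or_congr (nbr_inj (l := 3)).symm (nbr_inj (l := 3)).symm

lemma mem_lab {T : Finset (ℤ × ℤ)} {l : ℤ × ℤ} (hl : (l.1 + l.2) % 2 = 1) :
    l ∈ T.image lt ↔ tt l ∈ T := by
  rw [mem_image]
  constructor
  · rintro ⟨q, hq, rfl⟩; rwa [tt_lt]
  · intro h; exact ⟨_, h, lt_tt hl⟩

lemma lt_mem {T : Finset (ℤ × ℤ)} {q : ℤ × ℤ} : lt q ∈ T.image lt ↔ q ∈ T := by
  rw [mem_lab (lt_odd q), tt_lt]

/-- the sum over the labels outside `T` at the vertex `(a, b)`, i.e. the grid point `(a + b, b - a)` -/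
lemma dg_out (S : ℤ × ℤ → ZMod 2) (a b : ℤ) :
    dg (fun l => if l ∈ T.image lt then 0 else dl S l) (a, b) =
      (if (a + b, b - a - 1) ∈ T then 0 else S (a + 1, b) + S (a + 1, b + 1)) +
      (if (a + b - 1, b - a) ∈ T then 0 else S (a, b) + S (a, b + 1)) +
      (if (a + b, b - a) ∈ T then 0 else S (a, b + 1) + S (a + 1, b + 1)) +
      (if (a + b - 1, b - a - 1) ∈ T then 0 else S (a, b) + S (a + 1, b)) := by
  classical
  unfold dg
  simp only
  have e0 : lt (a + b, b - a - 1) = (2 * a + 1, 2 * b) := by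
    unfold lt; refine Prod.ext ?_ ?_ <;> simp only <;> ring
  have e1 : lt (a + b - 1, b - a) = (2 * a - 1, 2 * b) := by
    unfold lt; refine Prod.ext ?_ ?_ <;> simp only <;> ring
  have e2 : lt (a + b, b - a) = (2 * a, 2 * b + 1) := by
    unfold lt; refine Prod.ext ?_ ?_ <;> simp only <;> ring
  have e3 : lt (a + b - 1, b - a - 1) = (2 * a, 2 * b - 1) := by
    unfold lt; refine Prod.ext ?_ ?_ <;> simp only <;> ring
  have d0 : dl S (2 * a + 1, 2 * b) = S (a + 1, b) + S (a + 1, b + 1) := by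
    unfold dl; simp only
    rw [if_pos (by omega), show (2 * a + 1 + 1) / 2 = a + 1 by omega, show 2 * b / 2 = b by omega]
  have d1 : dl S (2 * a - 1, 2 * b) = S (a, b) + S (a, b + 1) := by
    unfold dl; simp only
    rw [if_pos (by omega), show (2 * a - 1 + 1) / 2 = a by omega, show 2 * b / 2 = b by omega]
  have d2 : dl S (2 * a, 2 * b + 1) = S (a, b + 1) + S (a + 1, b + 1) := by
    unfold dl; simp only
    rw [if_neg (by omega), show (2 * b + 1 + 1) / 2 = b + 1 by omega, show 2 * a / 2 = a by omega]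
  have d3 : dl S (2 * a, 2 * b - 1) = S (a, b) + S (a + 1, b) := by
    unfold dl; simp only
    rw [if_neg (by omega), show (2 * b - 1 + 1) / 2 = b by omega, show 2 * a / 2 = a by omega]
  rw [← e0, ← e1, ← e2, ← e3]
  simp only [lt_mem]
  rw [e0, e1, e2, e3, d0, d1, d2, d3]

lemma gf_nbr {a b : ℤ} (k : Fin 4) : gf (nbr (a + b) (b - a) k) =
    match k with
    | 0 => (a + 1, b + 1)
    | 1 => (a, b + 1)
    | 2 => (a, b)
    | 3 => (a + 1, b) := by
  fin_cases k <;> simp only [nbr, gf] <;> refine Prod.ext ?_ ?_ <;> simp only <;> omega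

lemma gv_eq {a b : ℤ} : gv (a + b, b - a) = (a, b) := by
  unfold gv; refine Prod.ext ?_ ?_ <;> simp only <;> omega

lemma gv_grid {u : ℤ × ℤ} (h : (u.1 + u.2) % 2 = 0) :
    u = ((gv u).1 + (gv u).2, (gv u).2 - (gv u).1) := by
  unfold gv; refine Prod.ext ?_ ?_ <;> simp only <;> omega

/-- the boundary sum at a vertex of the walk -/
lemma out_eq (W : TWalk T n p) (S : ℤ × ℤ → ZMod 2) (s : ℤ) :
    dg (fun l => if l ∈ T.image lt then 0 else dl S l) (gv (p (2 * s))) =
      S (gf (p (2 * s - 1))) + S (gf (p (2 * s + 1))) := by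
  have hpar : ((p (2 * s)).1 + (p (2 * s)).2) % 2 = 0 := by rw [W.par_int]; omega
  set a := (gv (p (2 * s))).1 with ha
  set b := (gv (p (2 * s))).2 with hb
  have hg : p (2 * s) = (a + b, b - a) := gv_grid hpar
  have hgv : gv (p (2 * s)) = (a, b) := rfl
  obtain ⟨o, i, ho, hi, h0, h1, h2, h3⟩ := W.around (2 * s) hg
  rw [hgv, dg_out, ho, hi, gf_nbr, gf_nbr]
  rw [show b - a - 1 = b - a - 1 from rfl] at *
  have key := fin_check (decide ((a + b, b - a) ∈ T)) (decide ((a + b - 1, b - a) ∈ T))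
    (decide ((a + b - 1, b - a - 1) ∈ T)) (decide ((a + b, b - a - 1) ∈ T)) o i
    (by rw [h0]; simp) (by rw [h1]; simp) (by rw [h2]; simp) (by rw [h3]; simp)
    (fun k => S (match k with
    | 0 => (a + 1, b + 1)
    | 1 => (a, b + 1)
    | 2 => (a, b)
    | 3 => (a + 1, b)))
  simp only [decide_eq_true_eq] at key
  rw [← key]

/-- the labels around the vertex `(a, b)` are the tiles around the grid point `(a + b, b - a)` -/
lemma lab_around {a b : ℤ} {q : ℤ × ℤ} (hq : IsUnit4 (q - (a, b))) :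
    (a, b) + q = lt (a + b, b - a - 1) ∨ (a, b) + q = lt (a + b - 1, b - a) ∨
      (a, b) + q = lt (a + b, b - a) ∨ (a, b) + q = lt (a + b - 1, b - a - 1) := by
  obtain ⟨c, d⟩ := q
  have hu := unit_cases hq
  simp only at hu
  unfold lt
  simp only [Prod.mk_add_mk, Prod.mk.injEq]
  omega

/-- no boundary edge at a vertex off the walk -/
lemma bd_eq (W : TWalk T n p) (w : ℤ × ℤ) (h1 : Tc (T.image lt) w) (h2 : Ni (T.image lt) w) :
    ∃ s, gv (p (2 * s)) = w := by
  by_contra hw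
  push Not at hw
  obtain ⟨a, b⟩ := w
  have hoff : ∀ s, p s ≠ (a + b, b - a) := by
    intro s hs
    have h1 := W.par_int s
    rw [hs] at h1
    simp only at h1
    obtain ⟨t, rfl⟩ : ∃ t, s = 2 * t := ⟨s / 2, by omega⟩
    apply hw t
    rw [hs, gv_eq]
  have e0 : (a + b, b - a) ∈ T ↔ (a + b, b - a - 1) ∈ T := by
    by_contra hc
    obtain ⟨s, h | h⟩ := W.hor _ _ hc
    exacts [hoff _ h.1, hoff _ h.2]
  have e1 : (a + b, b - a) ∈ T ↔ (a + b - 1, b - a) ∈ T := by
    by_contra hc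
    obtain ⟨s, h | h⟩ := W.ver _ _ hc
    exacts [hoff _ h.1, hoff _ h.2]
  have e2 : (a + b - 1, b - a) ∈ T ↔ (a + b - 1, b - a - 1) ∈ T := by
    by_contra hc
    obtain ⟨s, h | h⟩ := W.hor _ _ hc
    · rw [sub_add_cancel] at h; exact hoff _ h.2
    · rw [sub_add_cancel] at h; exact hoff _ h.1
  obtain ⟨q, hq, hqB⟩ := h1
  obtain ⟨q', hq', hqN⟩ := h2
  have key : (a + b, b - a) ∈ T := by
    rcases lab_around hq with h | h | h | h <;> rw [h, lt_mem] at hqB
    · exact e0.2 hqB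
    · exact e1.2 hqB
    · exact hqB
    · exact e1.2 (e2.2 hqB)
  rcases lab_around hq' with h | h | h | h <;> rw [h, lt_mem] at hqN
  · exact hqN (e0.1 key)
  · exact hqN (e1.1 key)
  · exact hqN key
  · exact hqN (e2.1 (e1.1 key))

/-- the outer tiles of the walk -/
noncomputable def outer (T : Finset (ℤ × ℤ)) (n : ℤ) (p : ℤ → ℤ × ℤ) : Finset (ℤ × ℤ) :=
  (((Ico (0 : ℤ) (2 * n)).biUnion fun s =>
    {((p s).1, (p s).2), ((p s).1 - 1, (p s).2), ((p s).1 - 1, (p s).2 - 1),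
      ((p s).1, (p s).2 - 1)}).filter (fun q => q ∉ T)).image lt

lemma mod_eq (W : TWalk T n p) (s : ℤ) : ∃ t, 0 ≤ t ∧ t < 2 * n ∧ p t = p s := by
  have hn := W.pos
  refine ⟨s % (2 * n), Int.emod_nonneg _ (by omega), Int.emod_lt_of_pos _ (by omega), ?_⟩
  have hper : ∀ (m : ℕ) (a : ℤ), p (a + m * (2 * n)) = p a := by
    intro m
    induction m with
    | zero => intro a; simp
    | succ m ih => intro a; rw [← ih a, ← W.per (a + m * (2 * n))]; congr 1; push_cast; ring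
  have e := Int.emod_add_mul_ediv s (2 * n)
  rcases le_total 0 (s / (2 * n)) with h0 | h0
  · rw [← hper (s / (2 * n)).toNat, Int.toNat_of_nonneg h0]
    congr 1; linarith
  · rw [← hper (-(s / (2 * n))).toNat s, Int.toNat_of_nonneg (by omega)]
    congr 1; linarith

lemma mem_outer (W : TWalk T n p) {s x y x' y' : ℤ} (h : p s = (x, y)) (hq : (x', y') ∉ T)
    (h' : (x', y') = (x, y) ∨ (x', y') = (x - 1, y) ∨ (x', y') = (x - 1, y - 1) ∨
      (x', y') = (x, y - 1)) : lt (x', y') ∈ outer T n p := by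
  obtain ⟨t, ht0, ht1, ht⟩ := W.mod_eq s
  unfold outer
  refine mem_image_of_mem _ (mem_filter.2 ⟨mem_biUnion.2 ⟨t, mem_Ico.2 ⟨ht0, ht1⟩, ?_⟩, hq⟩)
  rw [ht, h]
  simp only [mem_insert, mem_singleton]
  exact h'

lemma outer_disj : Disjoint (outer T n p) (T.image lt) := by
  rw [disjoint_left]
  intro l hl hT
  unfold outer at hl
  rw [mem_image] at hl
  obtain ⟨q, hq, rfl⟩ := hl
  rw [mem_filter] at hq
  exact hq.2 (lt_mem.1 hT)

lemma co_fin {α : Type*} (Q : α → α → Prop) (hr : ∀ a, Q a a) (hs : ∀ a b, Q a b → Q b a)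
    (ht : ∀ a b c, Q a b → Q b c → Q a c) (g : Fin 4 → α) (t0 t1 t2 t3 : Prop) (o i : Fin 4)
    (h0 : (o = 0 ∨ i = 0) ↔ ¬ (t0 ↔ t3)) (h1 : (o = 1 ∨ i = 1) ↔ ¬ (t0 ↔ t1))
    (h2 : (o = 2 ∨ i = 2) ↔ ¬ (t1 ↔ t2)) (h3 : (o = 3 ∨ i = 3) ↔ ¬ (t3 ↔ t2))
    (q0 : ¬ t0 → Q (g 0) (g 1)) (q1 : ¬ t1 → Q (g 1) (g 2)) (q2 : ¬ t2 → Q (g 2) (g 3))
    (q3 : ¬ t3 → Q (g 3) (g 0)) : Q (g i) (g o) := by
  by_cases b0 : t0 <;> by_cases b1 : t1 <;> by_cases b2 : t2 <;> by_cases b3 : t3 <;>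
    fin_cases o <;> fin_cases i <;> simp [b0, b1, b2, b3] at h0 h1 h2 h3 q0 q1 q2 q3 ⊢ <;>
    first
      | exact hr _
      | assumption
      | (apply hs; assumption)
      | exact ht _ _ _ q0 q1
      | exact ht _ _ _ q1 q2
      | exact ht _ _ _ q2 q3
      | exact ht _ _ _ q3 q0
      | exact hs _ _ (ht _ _ _ q0 q1)
      | exact hs _ _ (ht _ _ _ q1 q2)
      | exact hs _ _ (ht _ _ _ q2 q3)
      | exact hs _ _ (ht _ _ _ q3 q0)
      | exact ht _ _ _ (ht _ _ _ q0 q1) q2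
      | exact ht _ _ _ (ht _ _ _ q1 q2) q3
      | exact ht _ _ _ (ht _ _ _ q2 q3) q0
      | exact ht _ _ _ (ht _ _ _ q3 q0) q1
      | exact hs _ _ (ht _ _ _ (ht _ _ _ q0 q1) q2)
      | exact hs _ _ (ht _ _ _ (ht _ _ _ q1 q2) q3)
      | exact hs _ _ (ht _ _ _ (ht _ _ _ q2 q3) q0)
      | exact hs _ _ (ht _ _ _ (ht _ _ _ q3 q0) q1)

/-- two consecutive boundary vertices are joined outside -/
lemma outer_step (W : TWalk T n p) (s : ℤ) :
    Co (outer T n p) (gv (p (2 * s))) (gv (p (2 * (s + 1)))) := by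
  have hpar : ((p (2 * s + 1)).1 + (p (2 * s + 1)).2) % 2 = 1 := by rw [W.par_int]; omega
  obtain ⟨x, y, hg⟩ : ∃ x y, p (2 * s + 1) = (x, y) := ⟨_, _, rfl⟩
  rw [hg] at hpar
  simp only at hpar
  obtain ⟨o, i, ho, hi, h0, h1, h2, h3⟩ := W.around (2 * s + 1) hg
  rw [show (2 : ℤ) * (s + 1) = 2 * s + 1 + 1 by ring, ho, show 2 * s = 2 * s + 1 - 1 by ring, hi]
  have ad : ∀ u v q : ℤ × ℤ, IsUnit4 (gv v - gv u) → gv u + gv v = lt q →
      lt q ∈ outer T n p → Co (outer T n p) (gv u) (gv v) := by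
    intro u v q hu hq hm
    refine Relation.ReflTransGen.single ⟨hu, ?_⟩
    rw [hq]; exact hm
  refine co_fin (fun u v : ℤ × ℤ => Co (outer T n p) (gv u) (gv v)) (fun a => Co.refl _ _)
    (fun a b h => Co.symm h) (fun a b c h h' => h.trans h') (nbr x y)
    ((x, y) ∈ T) ((x - 1, y) ∈ T) ((x - 1, y - 1) ∈ T) ((x, y - 1) ∈ T) o i h0 h1 h2 h3 ?_ ?_ ?_ ?_
  · intro h
    refine ad _ _ (x, y) ?_ ?_ (W.mem_outer hg h (by simp))
    · right; right; left
      simp only [nbr, gv]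
      refine Prod.ext ?_ ?_ <;> simp only [Prod.fst_sub, Prod.snd_sub] <;> omega
    · simp only [nbr, gv, lt]
      refine Prod.ext ?_ ?_ <;> simp only [Prod.mk_add_mk] <;> omega
  · intro h
    refine ad _ _ (x - 1, y) ?_ ?_ (W.mem_outer hg h (by simp))
    · right; right; right
      simp only [nbr, gv]
      refine Prod.ext ?_ ?_ <;> simp only [Prod.fst_sub, Prod.snd_sub] <;> omega
    · simp only [nbr, gv, lt]
      refine Prod.ext ?_ ?_ <;> simp only [Prod.mk_add_mk] <;> omega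
  · intro h
    refine ad _ _ (x - 1, y - 1) ?_ ?_ (W.mem_outer hg h (by simp))
    · left
      simp only [nbr, gv]
      refine Prod.ext ?_ ?_ <;> simp only [Prod.fst_sub, Prod.snd_sub] <;> omega
    · simp only [nbr, gv, lt]
      refine Prod.ext ?_ ?_ <;> simp only [Prod.mk_add_mk] <;> omega
  · intro h
    refine ad _ _ (x, y - 1) ?_ ?_ (W.mem_outer hg h (by simp))
    · right; left
      simp only [nbr, gv]
      refine Prod.ext ?_ ?_ <;> simp only [Prod.fst_sub, Prod.snd_sub] <;> omega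
    · simp only [nbr, gv, lt]
      refine Prod.ext ?_ ?_ <;> simp only [Prod.mk_add_mk] <;> omega

/-- **The labels of a set of tiles with a simple closed boundary walk form a disc.** -/
theorem disc (W : TWalk T n p) :
    Disc (T.image lt) n (fun s => gv (p (2 * s))) (fun s => gf (p (2 * s - 1))) where
  pos := W.pos
  odd := by
    intro l hl
    rw [mem_image] at hl
    obtain ⟨q, -, rfl⟩ := hl
    exact lt_odd q
  vper := by
    intro s
    show gv (p (2 * (s + n))) = gv (p (2 * s))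
    rw [mul_add, W.per]
  fper := by
    intro s
    show gf (p (2 * (s + n) - 1)) = gf (p (2 * s - 1))
    rw [show 2 * (s + n) - 1 = 2 * s - 1 + 2 * n by ring, W.per]
  vinj := by
    intro s t h
    have hs : ((p (2 * s)).1 + (p (2 * s)).2) % 2 = 0 := by rw [W.par_int]; omega
    have ht : ((p (2 * t)).1 + (p (2 * t)).2) % 2 = 0 := by rw [W.par_int]; omega
    have h1 : p (2 * s) = p (2 * t) := by
      rw [gv_grid hs, gv_grid ht]
      have h2 : gv (p (2 * s)) = gv (p (2 * t)) := h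
      rw [h2]
    obtain ⟨c, hc⟩ := W.inj _ _ h1
    exact ⟨c, by linarith⟩
  out := by
    intro S s
    show dg _ (gv (p (2 * s))) = S (gf (p (2 * s - 1))) + S (gf (p (2 * (s + 1) - 1)))
    rw [W.out_eq S s, show 2 * (s + 1) - 1 = 2 * s + 1 by ring]
  bd := fun w h1 h2 => W.bd_eq w h1 h2
  ext := by
    refine ⟨outer T n p, outer_disj, ?_⟩
    have h0 : ∀ s, Co (outer T n p) (gv (p (2 * 0))) (gv (p (2 * s))) := by
      intro s
      induction s using Int.induction_on with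
      | zero => exact Co.refl _ _
      | succ i ih => exact ih.trans (W.outer_step i)
      | pred i ih =>
        have := W.outer_step (-(i : ℤ) - 1)
        rw [sub_add_cancel] at this
        exact ih.trans (Co.symm this)
    intro s t
    exact (Co.symm (h0 s)).trans (h0 t)

end TWalk

end Pool.Agent.H72.W
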