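import Mathlib
import Pool.Agent.H72.W.DiscWalk

set_option autoImplicit false
open Finset

/-!
# The boundary walk of a region which widens to the right

`MReg` : columns `A ≤ x < B`, the column `x` is `lo x ≤ y < hi x`, `lo` nonincreasing, `hi`
nondecreasing. `cw s` : the clockwise boundary walk; on the left wall and on the ceiling the point
`cw s = (x, y)` has `x + y = s`, then it goes down the right wall, on the floor `y - x - s` is constant.
-/

namespace Pool.Agent.H72.W

open Pool.Agent.H75.Perc hiding dl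
open Pool.Agent.H75.TwoArm Pool.Agent.H75.Four Pool.Agent.H75.Four.PivAux
open Pool.Agent.H41.W
open Pool.Agent.H33.Q1 (lt tt lt_odd tt_lt lt_tt lt_inj)

/-- threshold of an increasing function on an interval -/
lemma exists_thr (A : ℤ) (g : ℤ → ℤ) (σ : ℤ) (n : ℕ)
    (hg : ∀ x, A ≤ x → x + 1 < A + n → g x < g (x + 1)) :
    ∃ X, A ≤ X ∧ X ≤ A + n ∧ ∀ x, A ≤ x → x < A + n → (g x < σ ↔ x < X) := by
  induction n with
  | zero => exact ⟨A, le_rfl, by simp, fun x h1 h2 => by simp at h2; omega⟩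
  | succ n ih =>
    obtain ⟨X, h1, h2, h3⟩ := ih fun x a b => hg x a (by push_cast; omega)
    have mono : ∀ m : ℕ, ∀ x, A ≤ x → x + m < A + (n + 1 : ℕ) → g x ≤ g (x + m) := by
      intro m
      induction m with
      | zero => intro x _ _; simp
      | succ m ihm =>
        intro x a b
        push_cast at b
        have c1 := ihm x a (by push_cast; omega)
        have c2 := hg (x + m) (by omega) (by push_cast; omega)
        push_cast
        rw [← add_assoc]
        omega
    by_cases h : g (A + n) < σ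
    · refine ⟨A + (n + 1 : ℕ), by push_cast; omega, le_rfl, fun x a b => ⟨fun _ => b, fun _ => ?_⟩⟩
      have := mono (A + n - x).toNat x a (by
        rw [Int.toNat_of_nonneg (by push_cast at b; omega)]; push_cast; omega)
      rw [Int.toNat_of_nonneg (by push_cast at b; omega),
        show x + (A + (n : ℤ) - x) = A + n by ring] at this
      omega
    · refine ⟨X, h1, by push_cast; omega, fun x a b => ?_⟩
      push_cast at b
      by_cases hx : x < A + n
      · exact h3 x a hx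
      · have : x = A + n := by omega
        subst this
        constructor
        · intro h'; exact absurd h' h
        · intro h'; omega

/-- Regions which widen to the right. -/
structure MReg where
  A : ℤ
  B : ℤ
  lo : ℤ → ℤ
  hi : ℤ → ℤ
  AB : A < B
  hlo : ∀ x, A ≤ x → x + 1 < B → lo (x + 1) ≤ lo x
  hhi : ∀ x, A ≤ x → x + 1 < B → hi x ≤ hi (x + 1)
  lt0 : lo A < hi A

namespace MReg

variable (R : MReg)

/-- tiles -/
noncomputable def T : Finset (ℤ × ℤ) :=
  (Ico R.A R.B).biUnion fun x => (Ico (R.lo x) (R.hi x)).image fun y => (x, y)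

lemma mem_T {x y : ℤ} : (x, y) ∈ R.T ↔ (R.A ≤ x ∧ x < R.B) ∧ R.lo x ≤ y ∧ y < R.hi x := by
  unfold T
  simp only [mem_biUnion, mem_Ico, mem_image, Prod.mk.injEq]
  constructor
  · rintro ⟨x', h1, y', h2, rfl, rfl⟩; exact ⟨h1, h2⟩
  · rintro ⟨h1, h2⟩; exact ⟨x, h1, y, h2, rfl, rfl⟩

lemma lo_mono {x y : ℤ} (h1 : R.A ≤ x) (h2 : x ≤ y) (h3 : y < R.B) : R.lo y ≤ R.lo x := by
  obtain ⟨m, rfl⟩ : ∃ m : ℕ, y = x + m := ⟨(y - x).toNat, by omega⟩
  clear h2
  induction m with
  | zero => simp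
  | succ m ih =>
    push_cast at h3 ⊢
    have := R.hlo (x + m) (by omega) (by omega)
    rw [add_assoc] at this
    have := ih (by omega)
    omega

lemma hi_mono {x y : ℤ} (h1 : R.A ≤ x) (h2 : x ≤ y) (h3 : y < R.B) : R.hi x ≤ R.hi y := by
  obtain ⟨m, rfl⟩ : ∃ m : ℕ, y = x + m := ⟨(y - x).toNat, by omega⟩
  clear h2
  induction m with
  | zero => simp
  | succ m ih =>
    push_cast at h3 ⊢
    have := R.hhi (x + m) (by omega) (by omega)
    rw [add_assoc] at this
    have := ih (by omega)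
    omega

lemma lo_lt_hi {x : ℤ} (h1 : R.A ≤ x) (h3 : x < R.B) : R.lo x < R.hi x := by
  have := R.lo_mono le_rfl h1 h3
  have := R.hi_mono le_rfl h1 h3
  have := R.lt0
  omega

lemma lo_lt_hi' {x y : ℤ} (h1 : R.A ≤ x) (h3 : x < R.B) (h2 : R.A ≤ y) (h4 : y < R.B) :
    R.lo x < R.hi y := by
  have := R.lo_mono le_rfl h1 h3
  have := R.hi_mono le_rfl h2 h4
  have := R.lt0
  omega

lemma exists_U (σ : ℤ) : ∃ X, R.A ≤ X ∧ X ≤ R.B ∧
    ∀ x, R.A ≤ x → x < R.B → (x + R.hi x < σ ↔ x < X) := by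
  have hAB := R.AB
  obtain ⟨X, h1, h2, h3⟩ := exists_thr R.A (fun x => x + R.hi x) σ (R.B - R.A).toNat (by
    intro x a b
    rw [Int.toNat_of_nonneg (by omega)] at b
    have := R.hhi x a (by omega)
    omega)
  rw [Int.toNat_of_nonneg (by omega)] at h2 h3
  exact ⟨X, h1, by omega, fun x a b => h3 x a (by omega)⟩

/-- abscissa on the left wall and the ceiling -/
noncomputable def U (σ : ℤ) : ℤ := (R.exists_U σ).choose

lemma U_spec (σ : ℤ) : R.A ≤ R.U σ ∧ R.U σ ≤ R.B ∧
    ∀ x, R.A ≤ x → x < R.B → (x + R.hi x < σ ↔ x < R.U σ) := (R.exists_U σ).choose_spec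

lemma exists_V (δ : ℤ) : ∃ X, R.A ≤ X ∧ X ≤ R.B ∧
    ∀ x, R.A ≤ x → x < R.B → (R.lo x - x ≤ δ ↔ X ≤ x) := by
  have hAB := R.AB
  obtain ⟨X, h1, h2, h3⟩ := exists_thr R.A (fun x => x - R.lo x) (-δ) (R.B - R.A).toNat (by
    intro x a b
    rw [Int.toNat_of_nonneg (by omega)] at b
    have := R.hlo x a (by omega)
    omega)
  rw [Int.toNat_of_nonneg (by omega)] at h2 h3
  refine ⟨X, h1, by omega, fun x a b => ?_⟩
  have := h3 x a (by omega)
  constructor
  · intro h
    by_contra hc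
    have := this.2 (by omega)
    omega
  · intro h
    by_contra hc
    have := this.1 (by omega)
    omega

/-- abscissa on the floor -/
noncomputable def V (δ : ℤ) : ℤ := (R.exists_V δ).choose

lemma V_spec (δ : ℤ) : R.A ≤ R.V δ ∧ R.V δ ≤ R.B ∧
    ∀ x, R.A ≤ x → x < R.B → (R.lo x - x ≤ δ ↔ R.V δ ≤ x) := (R.exists_V δ).choose_spec

/-- start: lower left corner -/
def s0 : ℤ := R.A + R.lo R.A
/-- upper right corner -/
def s1 : ℤ := R.B + R.hi (R.B - 1)
/-- lower right corner -/
def s2 : ℤ := R.s1 + (R.hi (R.B - 1) - R.lo (R.B - 1))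
/-- half of the perimeter -/
def n : ℤ := (R.B - R.A) + (R.hi (R.B - 1) - R.lo (R.B - 1))

/-- `y - x = s + fl` on the floor -/
def fl : ℤ := R.lo (R.B - 1) - R.B - R.s2

/-- the walk on the fundamental interval `[s0, s0 + 2 n]` -/
noncomputable def c0 (s : ℤ) : ℤ × ℤ :=
  if s ≤ R.s1 then (R.U s, s - R.U s)
  else if s ≤ R.s2 then (R.B, R.hi (R.B - 1) - (s - R.s1))
  else (R.V (s + R.fl), s + R.fl + R.V (s + R.fl))

/-- **The clockwise boundary walk.** -/
noncomputable def cw (s : ℤ) : ℤ × ℤ := R.c0 (R.s0 + (s - R.s0) % (2 * R.n))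

lemma basic : R.A < R.B ∧ R.lo (R.B - 1) < R.hi (R.B - 1) ∧ R.lo (R.B - 1) ≤ R.lo R.A ∧
    R.hi R.A ≤ R.hi (R.B - 1) ∧ R.lo R.A < R.hi R.A := by
  have := R.AB
  exact ⟨R.AB, R.lo_lt_hi (by omega) (by omega), R.lo_mono le_rfl (by omega) (by omega),
    R.hi_mono le_rfl (by omega) (by omega), R.lt0⟩

lemma n_pos : 0 < R.n := by
  have := R.basic
  unfold n
  omega

lemma s01 : R.s0 < R.s1 := by
  have := R.basic
  unfold s0 s1
  omega

lemma s12 : R.s1 < R.s2 := by
  have := R.basic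
  unfold s2
  omega

lemma s23 : R.s2 < R.s0 + 2 * R.n := by
  have := R.basic
  unfold s2 s1 s0 n
  omega

lemma U_s1 : R.U R.s1 = R.B := by
  obtain ⟨h1, h2, h3⟩ := R.U_spec R.s1
  have := R.basic
  have := (h3 (R.B - 1) (by omega) (by omega)).1 (by unfold s1; omega)
  omega

lemma U_s0 : R.U R.s0 = R.A := by
  obtain ⟨h1, h2, h3⟩ := R.U_spec R.s0
  have := R.basic
  by_contra h
  have := (h3 R.A le_rfl (by omega)).2 (by omega)
  unfold s0 at this
  omega

lemma V_s2 : R.V (R.s2 + R.fl) = R.B := by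
  obtain ⟨h1, h2, h3⟩ := R.V_spec (R.s2 + R.fl)
  have := R.basic
  by_contra h
  have := (h3 (R.B - 1) (by omega) (by omega)).2 (by omega)
  unfold fl at this
  omega

lemma V_end : R.V (R.s0 + 2 * R.n + R.fl) = R.A := by
  obtain ⟨h1, h2, h3⟩ := R.V_spec (R.s0 + 2 * R.n + R.fl)
  have := R.basic
  have := (h3 R.A le_rfl (by omega)).1 (by unfold fl s2 s1 s0 n; omega)
  omega

lemma c0_end : R.c0 (R.s0 + 2 * R.n) = R.c0 R.s0 := by
  have h1 := R.s01
  have h2 := R.s12
  have h3 := R.s23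
  unfold c0
  rw [if_neg (by omega), if_neg (by omega), if_pos h1.le, R.V_end, R.U_s0]
  refine Prod.ext rfl ?_
  simp only
  unfold fl s2 s1 s0 n
  ring

lemma cw_eq {s : ℤ} (h1 : R.s0 ≤ s) (h2 : s ≤ R.s0 + 2 * R.n) : R.cw s = R.c0 s := by
  have hn := R.n_pos
  unfold cw
  rcases eq_or_lt_of_le h2 with h | h
  · rw [h, show R.s0 + 2 * R.n - R.s0 = 2 * R.n by ring, Int.emod_self, add_zero, R.c0_end]
  · rw [Int.emod_eq_of_lt (by omega) (by omega)]
    congr 1; ring

lemma cw_per (s : ℤ) : R.cw (s + 2 * R.n) = R.cw s := by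
  unfold cw
  rw [show s + 2 * R.n - R.s0 = s - R.s0 + 2 * R.n by ring, Int.add_emod_right]

lemma cw_mod (s : ℤ) : ∃ t, R.s0 ≤ t ∧ t < R.s0 + 2 * R.n ∧ R.cw t = R.cw s ∧ 2 * R.n ∣ s - t ∧
    R.cw (t + 1) = R.cw (s + 1) := by
  have hn := R.n_pos
  have e := Int.emod_add_mul_ediv (s - R.s0) (2 * R.n)
  have h1 := Int.emod_nonneg (s - R.s0) (show (2 * R.n) ≠ 0 by omega)
  have h2 := Int.emod_lt_of_pos (s - R.s0) (show 0 < 2 * R.n by omega)
  set t := R.s0 + (s - R.s0) % (2 * R.n) with ht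
  have hs : s = t + 2 * R.n * ((s - R.s0) / (2 * R.n)) := by linarith
  have key : ∀ (k u : ℤ), R.cw (u + 2 * R.n * k) = R.cw u := by
    intro k u
    unfold cw
    rw [show u + 2 * R.n * k - R.s0 = u - R.s0 + 2 * R.n * k by ring, Int.add_mul_emod_self_left]
  refine ⟨t, by omega, by omega, ?_, ⟨_, by rw [sub_eq_iff_eq_add]; rw [add_comm]; exact hs⟩, ?_⟩
  · conv_rhs => rw [hs]
    rw [key]
  · conv_rhs => rw [hs, show t + 2 * R.n * ((s - R.s0) / (2 * R.n)) + 1 =
      t + 1 + 2 * R.n * ((s - R.s0) / (2 * R.n)) by ring]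
    rw [key]

/-! ### The three parts -/

lemma c0_1 {s : ℤ} (h : s ≤ R.s1) : R.c0 s = (R.U s, s - R.U s) := by
  unfold c0
  rw [if_pos h]

lemma c0_2 {s : ℤ} (h1 : R.s1 ≤ s) (h2 : s ≤ R.s2) :
    R.c0 s = (R.B, R.hi (R.B - 1) - (s - R.s1)) := by
  rcases eq_or_lt_of_le h1 with h | h
  · subst h
    rw [R.c0_1 le_rfl, R.U_s1]
    refine Prod.ext rfl ?_
    simp only
    unfold s1
    ring
  · unfold c0
    rw [if_neg (by omega), if_pos h2]

lemma c0_3 {s : ℤ} (h1 : R.s2 ≤ s) : R.c0 s = (R.V (s + R.fl), s + R.fl + R.V (s + R.fl)) := by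
  have := R.s12
  rcases eq_or_lt_of_le h1 with h | h
  · subst h
    rw [R.c0_2 (by omega) le_rfl, R.V_s2]
    refine Prod.ext rfl ?_
    simp only
    unfold fl s2
    ring
  · unfold c0
    rw [if_neg (by omega), if_neg (by omega)]

lemma U_of {s x : ℤ} (h1 : R.A ≤ x) (h2 : x < R.B) (h3 : s ≤ x + R.hi x)
    (h4 : R.A < x → x - 1 + R.hi (x - 1) < s) : R.U s = x := by
  obtain ⟨k1, k2, k3⟩ := R.U_spec s
  have a1 : R.U s ≤ x := by
    by_contra h
    have := (k3 x h1 h2).2 (by omega)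
    omega
  by_cases h : R.A < x
  · have := (k3 (x - 1) (by omega) (by omega)).1 (h4 h)
    omega
  · omega

lemma V_of {δ x : ℤ} (h1 : R.A < x) (h2 : x ≤ R.B) (h3 : δ < R.lo (x - 1) - (x - 1))
    (h4 : x < R.B → R.lo x - x ≤ δ) : R.V δ = x := by
  obtain ⟨k1, k2, k3⟩ := R.V_spec δ
  have a1 : x ≤ R.V δ := by
    by_contra h
    have := (k3 (x - 1) (by omega) (by omega)).2 (by omega)
    omega
  by_cases h : x < R.B
  · have := (k3 x (by omega) h).1 (h4 h)
    omega
  · omega

/-- facts about a point of the left wall and the ceiling -/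
lemma part1 {s : ℤ} (h1 : R.s0 ≤ s) (h2 : s < R.s1) : R.A ≤ R.U s ∧ R.U s < R.B ∧
    s ≤ R.U s + R.hi (R.U s) ∧ R.lo (R.U s) ≤ s - R.U s ∧
    (R.A < R.U s → R.hi (R.U s - 1) ≤ s - R.U s) := by
  obtain ⟨k1, k2, k3⟩ := R.U_spec s
  have hb := R.basic
  have a1 : R.U s < R.B := by
    by_contra h
    have := (k3 (R.B - 1) (by omega) (by omega)).2 (by omega)
    unfold s1 at h2
    omega
  have a2 : s ≤ R.U s + R.hi (R.U s) := by
    by_contra h
    have := (k3 (R.U s) k1 a1).1 (by omega)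
    omega
  have a3 : R.A < R.U s → R.hi (R.U s - 1) ≤ s - R.U s := by
    intro h
    have := (k3 (R.U s - 1) (by omega) (by omega)).2 (by omega)
    omega
  refine ⟨k1, a1, a2, ?_, a3⟩
  rcases eq_or_lt_of_le k1 with h | h
  · rw [← h]
    unfold s0 at h1
    omega
  · have := a3 h
    have := R.lo_lt_hi' (x := R.U s) (y := R.U s - 1) k1 a1 (by omega) (by omega)
    omega

/-- facts about a point of the floor -/
lemma part3 {s : ℤ} (h1 : R.s2 ≤ s) (h2 : s < R.s0 + 2 * R.n) :
    R.A < R.V (s + R.fl) ∧ R.V (s + R.fl) ≤ R.B ∧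
    s + R.fl + R.V (s + R.fl) ≤ R.lo (R.V (s + R.fl) - 1) ∧
    (R.V (s + R.fl) < R.B → R.lo (R.V (s + R.fl)) ≤ s + R.fl + R.V (s + R.fl)) ∧
    (R.V (s + R.fl) = R.B → s + R.fl + R.V (s + R.fl) = R.lo (R.V (s + R.fl) - 1)) := by
  obtain ⟨k1, k2, k3⟩ := R.V_spec (s + R.fl)
  have hb := R.basic
  have a1 : R.A < R.V (s + R.fl) := by
    by_contra h
    have := (k3 R.A le_rfl (by omega)).2 (by omega)
    unfold fl s2 s1 s0 n at *
    omega
  have a2 : s + R.fl + R.V (s + R.fl) ≤ R.lo (R.V (s + R.fl) - 1) := by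
    by_contra h
    have := (k3 (R.V (s + R.fl) - 1) (by omega) (by omega)).1 (by omega)
    omega
  refine ⟨a1, k2, a2, ?_, ?_⟩
  · intro h
    have := (k3 (R.V (s + R.fl)) k1 h).2 le_rfl
    omega
  · intro h
    rw [h] at a2 ⊢
    unfold fl at a2 ⊢
    omega

/-- the clockwise step, on the fundamental interval -/
lemma step0 {s : ℤ} (h1 : R.s0 ≤ s) (h2 : s < R.s0 + 2 * R.n) :
    OkStep R.T (R.c0 (s + 1)) (R.c0 s) := by
  have hb := R.basic
  have h12 := R.s12
  unfold OkStep
  by_cases c1 : s < R.s1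
  · obtain ⟨k1, k2, k3, k4, k5⟩ := R.part1 h1 c1
    rw [R.c0_1 c1.le, R.c0_1 (by omega)]
    set x := R.U s with hx
    by_cases c : x + R.hi x = s
    · have e : R.U (s + 1) = x + 1 := by
        rcases eq_or_lt_of_le (show x + 1 ≤ R.B by omega) with h | h
        · have : s + 1 = R.s1 := by
            unfold s1; rw [← h, add_sub_cancel_right]; omega
          rw [this, R.U_s1]; exact h.symm
        · refine R.U_of (by omega) h ?_ (fun _ => ?_)
          · have := R.hhi x k1 h
            omega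
          · rw [add_sub_cancel_right]; omega
      right; right; left
      rw [e]
      refine ⟨Prod.ext (by simp) (by simp), ?_, ?_⟩
      · rw [R.mem_T]
        have := R.lo_lt_hi k1 k2
        simp only [add_sub_cancel_right]
        refine ⟨⟨k1, k2⟩, by omega, by omega⟩
      · rw [R.mem_T]
        simp only [add_sub_cancel_right]
        omega
    · have e : R.U (s + 1) = x := by
        refine R.U_of k1 k2 (by omega) (fun h => ?_)
        have := k5 h
        omega
      right; right; right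
      rw [e]
      refine ⟨Prod.ext (by simp) (by simp only; ring), ?_, ?_⟩
      · rw [R.mem_T]
        simp only
        refine ⟨⟨k1, k2⟩, by omega, by omega⟩
      · rw [R.mem_T]
        simp only
        rintro ⟨⟨h3, h4⟩, h5, h6⟩
        have := k5 (by omega)
        omega
  by_cases c2 : s < R.s2
  · rw [R.c0_2 (by omega) c2.le, R.c0_2 (by omega) (by omega)]
    right; left
    have : R.s2 = R.s1 + (R.hi (R.B - 1) - R.lo (R.B - 1)) := rfl
    refine ⟨Prod.ext rfl (by simp only; ring), ?_, ?_⟩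
    · rw [R.mem_T]
      simp only
      refine ⟨⟨by omega, by omega⟩, by omega, by omega⟩
    · rw [R.mem_T]
      simp only
      omega
  · obtain ⟨k1, k2, k3, k4, k5⟩ := R.part3 (by omega) h2
    rw [R.c0_3 (by omega), R.c0_3 (by omega)]
    set δ := s + R.fl with hδ
    rw [show s + 1 + R.fl = δ + 1 by omega]
    set x := R.V δ with hx
    by_cases c : R.lo (x - 1) = δ + x
    · have e : R.V (δ + 1) = x - 1 := by
        rcases eq_or_lt_of_le (show R.A ≤ x - 1 by omega) with h | h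
        · obtain ⟨j1, j2, j3⟩ := R.V_spec (δ + 1)
          have := (j3 (x - 1) (by omega) (by omega)).1 (by omega)
          omega
        · refine R.V_of h (by omega) ?_ (fun _ => by omega)
          have := R.hlo (x - 1 - 1) (by omega) (by omega)
          rw [sub_add_cancel] at this
          omega
      left
      rw [e]
      refine ⟨Prod.ext (by simp) (by simp only; ring), ?_, ?_⟩
      · rw [R.mem_T]
        have := R.lo_lt_hi (x := x - 1) (by omega) (by omega)
        simp only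
        refine ⟨⟨by omega, by omega⟩, by omega, by omega⟩
      · rw [R.mem_T]
        simp only
        omega
    · have hxB : x < R.B := by
        rcases eq_or_lt_of_le k2 with h | h
        · exact absurd (k5 h).symm c
        · exact h
      have e : R.V (δ + 1) = x := R.V_of k1 k2 (by omega) (fun _ => by have := k4 hxB; omega)
      right; right; right
      rw [e]
      have := k4 hxB
      have := R.lo_lt_hi' (x := x - 1) (y := x) (by omega) (by omega) (by omega) hxB
      refine ⟨Prod.ext (by simp) (by simp only; ring), ?_, ?_⟩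
      · rw [R.mem_T]
        simp only
        refine ⟨⟨by omega, by omega⟩, by omega, by omega⟩
      · rw [R.mem_T]
        simp only
        omega

/-- boundary edges on the ceiling -/
lemma edge_hi {x : ℤ} (h1 : R.A ≤ x) (h2 : x < R.B) :
    R.cw (x + R.hi x) = (x, R.hi x) ∧ R.cw (x + R.hi x + 1) = (x + 1, R.hi x) := by
  have hb := R.basic
  have h12 := R.s12
  have h23 := R.s23
  have k1 := R.hi_mono le_rfl h1 h2
  have k2 := R.hi_mono h1 (show x ≤ R.B - 1 by omega) (by omega)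
  have e0 : R.s0 ≤ x + R.hi x := by unfold s0; omega
  have e1 : x + R.hi x + 1 ≤ R.s1 := by unfold s1; omega
  have u1 : R.U (x + R.hi x) = x := R.U_of h1 h2 le_rfl (fun h => by
    have := R.hi_mono (x := x - 1) (y := x) (by omega) (by omega) h2
    omega)
  have u2 : R.U (x + R.hi x + 1) = x + 1 := by
    rcases eq_or_lt_of_le (show x + 1 ≤ R.B by omega) with h | h
    · have : x + R.hi x + 1 = R.s1 := by
        unfold s1; rw [← h, add_sub_cancel_right]; omega
      rw [this, R.U_s1]; exact h.symm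
    · refine R.U_of (by omega) h ?_ (fun _ => ?_)
      · have := R.hhi x h1 h
        omega
      · rw [add_sub_cancel_right]; omega
  rw [R.cw_eq e0 (by omega), R.cw_eq (by omega) (by omega), R.c0_1 (by omega), R.c0_1 e1, u1, u2]
  exact ⟨Prod.ext rfl (by simp), Prod.ext rfl (by simp only; ring)⟩

/-- boundary edges on the floor -/
lemma edge_lo {x : ℤ} (h1 : R.A ≤ x) (h2 : x < R.B) :
    R.cw (R.lo x - x - 1 - R.fl) = (x + 1, R.lo x) ∧
      R.cw (R.lo x - x - 1 - R.fl + 1) = (x, R.lo x) := by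
  have hb := R.basic
  have h01 := R.s01
  have h12 := R.s12
  have h23 := R.s23
  have k1 := R.lo_mono le_rfl h1 h2
  have k2 := R.lo_mono h1 (show x ≤ R.B - 1 by omega) (by omega)
  have e0 : R.s2 ≤ R.lo x - x - 1 - R.fl := by unfold fl; omega
  have e1 : R.lo x - x - 1 - R.fl + 1 ≤ R.s0 + 2 * R.n := by unfold fl s2 s1 s0 n; omega
  have u1 : R.V (R.lo x - x - 1) = x + 1 := by
    refine R.V_of (by omega) (by omega) ?_ (fun h => ?_)
    · rw [add_sub_cancel_right]; omega
    · have := R.hlo x h1 h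
      omega
  have u2 : R.V (R.lo x - x) = x := by
    rcases eq_or_lt_of_le h1 with h | h
    · obtain ⟨j1, j2, j3⟩ := R.V_spec (R.lo x - x)
      have := (j3 x h1 h2).1 le_rfl
      omega
    · refine R.V_of h (by omega) ?_ (fun _ => le_rfl)
      have := R.lo_mono (x := x - 1) (y := x) (by omega) (by omega) h2
      omega
  rw [R.cw_eq (by omega) (by omega), R.cw_eq (by omega) e1, R.c0_3 e0, R.c0_3 (by omega),
    show R.lo x - x - 1 - R.fl + R.fl = R.lo x - x - 1 by ring,
    show R.lo x - x - 1 - R.fl + 1 + R.fl = R.lo x - x by ring, u1, u2]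
  exact ⟨Prod.ext rfl (by simp only; ring), Prod.ext rfl (by simp only; ring)⟩

lemma hor' (x y : ℤ) (h : ¬ ((x, y) ∈ R.T ↔ (x, y - 1) ∈ R.T)) :
    ∃ s, (R.cw s = (x, y) ∧ R.cw (s + 1) = (x + 1, y)) ∨
      (R.cw s = (x + 1, y) ∧ R.cw (s + 1) = (x, y)) := by
  rw [R.mem_T, R.mem_T] at h
  have hx : R.A ≤ x ∧ x < R.B := by
    by_contra hc
    exact h ⟨fun h => absurd h.1 hc, fun h => absurd h.1 hc⟩
  have hlh := R.lo_lt_hi hx.1 hx.2
  have hy : y = R.lo x ∨ y = R.hi x := by
    by_contra hc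
    apply h
    constructor
    · rintro ⟨-, h1, h2⟩; exact ⟨hx, by omega, by omega⟩
    · rintro ⟨-, h1, h2⟩; exact ⟨hx, by omega, by omega⟩
  rcases hy with rfl | rfl
  · exact ⟨_, Or.inr (R.edge_lo hx.1 hx.2)⟩
  · exact ⟨_, Or.inl (R.edge_hi hx.1 hx.2)⟩

lemma ver' (x y : ℤ) (h : ¬ ((x, y) ∈ R.T ↔ (x - 1, y) ∈ R.T)) :
    ∃ s, (R.cw s = (x, y) ∧ R.cw (s + 1) = (x, y + 1)) ∨
      (R.cw s = (x, y + 1) ∧ R.cw (s + 1) = (x, y)) := by
  have hb := R.basic
  have h01 := R.s01
  have h12 := R.s12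
  have h23 := R.s23
  rw [R.mem_T, R.mem_T] at h
  by_cases cB : x = R.B
  · subst cB
    have h' : R.lo (R.B - 1) ≤ y ∧ y < R.hi (R.B - 1) := by
      by_contra hc
      exact h ⟨fun h => by omega, fun h => absurd h.2 hc⟩
    refine ⟨R.s1 + R.hi (R.B - 1) - y - 1, Or.inr ?_⟩
    rw [R.cw_eq (by omega) (by unfold s2 at h23; omega), R.cw_eq (by omega) (by unfold s2 at h23; omega),
      R.c0_2 (by omega) (by unfold s2; omega), R.c0_2 (by omega) (by unfold s2; omega)]
    exact ⟨Prod.ext rfl (by simp only; ring), Prod.ext rfl (by simp only; ring)⟩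
  by_cases hx : R.A ≤ x ∧ x < R.B
  swap
  · exact absurd ⟨fun h => absurd h.1 hx, fun h => absurd h.1 (by omega)⟩ h
  obtain ⟨hA, hB⟩ := hx
  -- an edge of the left wall or of the ceiling
  have up : R.lo x ≤ y → y < R.hi x → (R.A < x → R.hi (x - 1) ≤ y) →
      R.cw (x + y) = (x, y) ∧ R.cw (x + y + 1) = (x, y + 1) := by
    intro h1 h2 h3
    have h4 : R.s0 ≤ x + y := by
      unfold s0
      rcases eq_or_lt_of_le hA with h | h
      · rw [← h] at h1 ⊢; omega
      · have := h3 h
        have := R.lo_lt_hi' (x := R.A) (y := x - 1) le_rfl (by omega) (by omega) (by omega)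
        omega
    have h5 : x + y + 1 ≤ R.s1 := by
      have := R.hi_mono hA (show x ≤ R.B - 1 by omega) (by omega)
      unfold s1; omega
    have u1 : R.U (x + y) = x := R.U_of hA hB (by omega) (fun h => by have := h3 h; omega)
    have u2 : R.U (x + y + 1) = x := R.U_of hA hB (by omega) (fun h => by have := h3 h; omega)
    rw [R.cw_eq h4 (by omega), R.cw_eq (by omega) (by omega), R.c0_1 (by omega), R.c0_1 h5, u1, u2]
    exact ⟨Prod.ext rfl (by simp), Prod.ext rfl (by simp only; ring)⟩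
  rcases eq_or_lt_of_le hA with hA' | hA'
  · have h1 : R.lo x ≤ y ∧ y < R.hi x := by
      by_contra hc
      exact h ⟨fun h => absurd h.2 hc, fun h => by omega⟩
    exact ⟨_, Or.inl (up h1.1 h1.2 (fun h => by omega))⟩
  have m1 := R.lo_mono (x := x - 1) (y := x) (by omega) (by omega) hB
  have m2 := R.hi_mono (x := x - 1) (y := x) (by omega) (by omega) hB
  have m3 := R.lo_lt_hi (x := x - 1) (by omega) (by omega)
  have h1 : R.lo x ≤ y ∧ y < R.hi x ∧ ¬ (R.lo (x - 1) ≤ y ∧ y < R.hi (x - 1)) := by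
    by_contra hc
    apply h
    constructor
    · rintro ⟨-, h1, h2⟩
      exact ⟨by omega, by omega, by omega⟩
    · rintro ⟨-, h1, h2⟩
      exact ⟨by omega, by omega, by omega⟩
  obtain ⟨h1, h2, h3⟩ := h1
  by_cases c : R.hi (x - 1) ≤ y
  · exact ⟨_, Or.inl (up h1 h2 (fun _ => c))⟩
  · have c' : y < R.lo (x - 1) := by omega
    have u1 : R.V (y - x) = x := R.V_of hA' hB.le (by omega) (fun _ => by omega)
    have u2 : R.V (y - x + 1) = x := R.V_of hA' hB.le (by omega) (fun _ => by omega)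
    have k2 := R.lo_mono hA (show x ≤ R.B - 1 by omega) (by omega)
    have k3 := R.lo_mono le_rfl (show R.A ≤ x - 1 by omega) (by omega)
    have e0 : R.s2 ≤ y - x - R.fl := by unfold fl; omega
    have e1 : y - x - R.fl + 1 ≤ R.s0 + 2 * R.n := by unfold fl s2 s1 s0 n; omega
    refine ⟨y - x - R.fl, Or.inl ?_⟩
    rw [R.cw_eq (by omega) (by omega), R.cw_eq (by omega) e1, R.c0_3 e0, R.c0_3 (by omega),
      show y - x - R.fl + R.fl = y - x by ring,
      show y - x - R.fl + 1 + R.fl = y - x + 1 by ring, u1, u2]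
    exact ⟨Prod.ext rfl (by simp), Prod.ext rfl (by simp only; ring)⟩

/-- the walk is injective on the fundamental interval -/
lemma inj0 {s t : ℤ} (h1 : R.s0 ≤ s) (h2 : s < R.s0 + 2 * R.n) (h3 : R.s0 ≤ t)
    (h4 : t < R.s0 + 2 * R.n) (h : R.c0 s = R.c0 t) : s = t := by
  have hb := R.basic
  have h12 := R.s12
  have hs2 : R.s2 = R.s1 + (R.hi (R.B - 1) - R.lo (R.B - 1)) := rfl
  -- wlog s ≤ t
  have key : ∀ s t, R.s0 ≤ s → s ≤ t → t < R.s0 + 2 * R.n → R.c0 s = R.c0 t → s = t := by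
    clear h h1 h2 h3 h4 s t
    intro s t h1 hst h4 h
    by_cases c1 : t < R.s1
    · rw [R.c0_1 (by omega), R.c0_1 (by omega), Prod.mk.injEq] at h
      omega
    by_cases c2 : t < R.s2
    · rw [R.c0_2 (s := t) (by omega) (by omega)] at h
      by_cases d1 : s < R.s1
      · obtain ⟨k1, k2, -⟩ := R.part1 h1 d1
        rw [R.c0_1 d1.le, Prod.mk.injEq] at h
        omega
      · rw [R.c0_2 (by omega) (by omega), Prod.mk.injEq] at h
        omega
    obtain ⟨j1, j2, j3, j4, j5⟩ := R.part3 (by omega) h4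
    rw [R.c0_3 (s := t) (by omega)] at h
    by_cases d1 : s < R.s1
    · obtain ⟨k1, k2, k3, k4, k5⟩ := R.part1 h1 d1
      rw [R.c0_1 d1.le, Prod.mk.injEq] at h
      obtain ⟨e1, e2⟩ := h
      rw [← e1] at j1 j2 j3 j4 j5 e2
      have := k5 j1
      have := R.lo_lt_hi (x := R.U s - 1) (by omega) (by omega)
      omega
    by_cases d2 : s < R.s2
    · rw [R.c0_2 (by omega) (by omega), Prod.mk.injEq] at h
      have := j5 h.1.symm
      rw [← h.1] at this
      omega
    · rw [R.c0_3 (by omega), Prod.mk.injEq] at h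
      omega
  rcases le_total s t with hst | hst
  · exact key s t h1 hst h4 h
  · exact (key t s h3 hst h2 h.symm).symm

/-- **The boundary walk** (counterclockwise). -/
theorem twalk (he : (R.A + R.lo R.A) % 2 = 0) : TWalk R.T R.n (fun s => R.cw (-s)) where
  pos := R.n_pos
  per := by
    intro s
    show R.cw (-(s + 2 * R.n)) = R.cw (-s)
    have := R.cw_per (-(s + 2 * R.n))
    rw [show -(s + 2 * R.n) + 2 * R.n = -s by ring] at this
    exact this.symm
  inj := by
    intro s t h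
    obtain ⟨s', a1, a2, a3, a4, -⟩ := R.cw_mod (-s)
    obtain ⟨t', b1, b2, b3, b4, -⟩ := R.cw_mod (-t)
    have h' : R.cw (-s) = R.cw (-t) := h
    have e : s' = t' := by
      apply R.inj0 a1 a2 b1 b2
      rw [← R.cw_eq a1 a2.le, ← R.cw_eq b1 b2.le, a3, b3, h']
    obtain ⟨u, hu⟩ := a4
    obtain ⟨v, hv⟩ := b4
    refine ⟨v - u, ?_⟩
    rw [mul_sub]
    omega
  par := by
    have key : ∀ s, ((R.c0 s).1 + (R.c0 s).2) % 2 = s % 2 := by
      intro s
      unfold c0
      split_ifs
      · simp only; omega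
      · simp only; unfold s1; omega
      · simp only; unfold fl s2 s1; omega
    show ((R.cw (-0)).1 + (R.cw (-0)).2) % 2 = 0
    unfold cw
    rw [key]
    have e := Int.emod_add_mul_ediv (-0 - R.s0) (2 * R.n)
    have : R.s0 = R.A + R.lo R.A := rfl
    have h2 : (2 * R.n) * ((-0 - R.s0) / (2 * R.n)) = 2 * (R.n * ((-0 - R.s0) / (2 * R.n))) := by ring
    omega
  step := by
    intro s
    show OkStep R.T (R.cw (-s)) (R.cw (-(s + 1)))
    obtain ⟨t, a1, a2, a3, -, a5⟩ := R.cw_mod (-(s + 1))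
    rw [show -(s + 1) + 1 = -s by ring] at a5
    rw [← a3, ← a5, R.cw_eq a1 a2.le, R.cw_eq (by omega) (by omega)]
    exact R.step0 a1 a2
  hor := by
    intro x y h
    obtain ⟨s, h1 | h1⟩ := R.hor' x y h
    · refine ⟨-(s + 1), Or.inr ⟨?_, ?_⟩⟩
      · show R.cw (-(-(s + 1))) = _
        rw [neg_neg]; exact h1.2
      · show R.cw (-(-(s + 1) + 1)) = _
        rw [show -(-(s + 1) + 1) = s by ring]; exact h1.1
    · refine ⟨-(s + 1), Or.inl ⟨?_, ?_⟩⟩
      · show R.cw (-(-(s + 1))) = _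
        rw [neg_neg]; exact h1.2
      · show R.cw (-(-(s + 1) + 1)) = _
        rw [show -(-(s + 1) + 1) = s by ring]; exact h1.1
  ver := by
    intro x y h
    obtain ⟨s, h1 | h1⟩ := R.ver' x y h
    · refine ⟨-(s + 1), Or.inr ⟨?_, ?_⟩⟩
      · show R.cw (-(-(s + 1))) = _
        rw [neg_neg]; exact h1.2
      · show R.cw (-(-(s + 1) + 1)) = _
        rw [show -(-(s + 1) + 1) = s by ring]; exact h1.1
    · refine ⟨-(s + 1), Or.inl ⟨?_, ?_⟩⟩
      · show R.cw (-(-(s + 1))) = _
        rw [neg_neg]; exact h1.2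
      · show R.cw (-(-(s + 1) + 1)) = _
        rw [show -(-(s + 1) + 1) = s by ring]; exact h1.1

end MReg

/-- the disc in the other direction -/
theorem disc_rev {B : Finset (ℤ × ℤ)} {n : ℤ} {v f : ℤ → ℤ × ℤ} (D : Disc B n v f) :
    Disc B n (fun s => v (-s)) (fun s => f (1 - s)) where
  pos := D.pos
  odd := D.odd
  vper := by
    intro s
    show v (-(s + n)) = v (-s)
    have := D.vper (-(s + n))
    rw [show -(s + n) + n = -s by ring] at this
    exact this.symm
  fper := by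
    intro s
    show f (1 - (s + n)) = f (1 - s)
    have := D.fper (1 - (s + n))
    rw [show 1 - (s + n) + n = 1 - s by ring] at this
    exact this.symm
  vinj := by
    intro s t h
    obtain ⟨c, hc⟩ := D.vinj _ _ h
    exact ⟨-c, by linarith⟩
  out := by
    intro S s
    show dg _ (v (-s)) = S (f (1 - s)) + S (f (1 - (s + 1)))
    rw [D.out S (-s), show 1 - (s + 1) = -s by ring, show -s + 1 = 1 - s by ring, add_comm]
  bd := by
    intro w h1 h2
    obtain ⟨s, hs⟩ := D.bd w h1 h2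
    exact ⟨-s, by simpa using hs⟩
  ext := by
    obtain ⟨Q, h1, h2⟩ := D.ext
    exact ⟨Q, h1, fun s t => h2 _ _⟩

/-- **The labels of a region which widens to the right form a disc**, clockwise: `v s` is the point
number `2 s` of the clockwise walk, `f s` the point number `2 s - 1`. -/
theorem MReg.disc (R : MReg) (he : (R.A + R.lo R.A) % 2 = 0) :
    Disc (R.T.image lt) R.n (fun s => gv (R.cw (2 * s))) (fun s => gf (R.cw (2 * s - 1))) := by
  have h := disc_rev (R.twalk he).disc
  have e1 : (fun s : ℤ => gv (R.cw (-(2 * -s)))) = fun s => gv (R.cw (2 * s)) := by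
    funext s; congr 2; ring
  have e2 : (fun s : ℤ => gf (R.cw (-(2 * (1 - s) - 1)))) = fun s => gf (R.cw (2 * s - 1)) := by
    funext s; congr 2; ring
  rw [← e1, ← e2]
  exact h

end Pool.Agent.H72.W
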