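import Mathlib
import Pool.Agent.H72.W.MonoWalk
import Pool.Agent.H6.W.JDef

set_option autoImplicit false
open Finset

/-!
# The junction box and the wide box as regions which widen to the right (W-E, E2)

`kn b x` : number of steps which start at or to the left of the column `x` of cells. `Wb b L` : cells of
the box with `-L H ≤ x < L H`. `mR b h A B` : the region of tiles `A n ≤ x < B n`, `|y| < (H + kn (x / n)) n`,
`n = 2 h`. `mR_lab` : its labels are the labels of the cells of the box with `A ≤ x < B`.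
`bR` = the whole box, `wR` = the wide box.

`bR_disc`, `wR_disc` : discs. `bR_v`, `bR_f`, `wR_v`, `wR_f` : the vertices / faces of the walk are boundary
vertices / faces; `bR_face`, `wR_face`, `MReg.bd_vert` : conversely. `tc_iff` (vertices), `tcf_iff` (faces) :
strictly between the two vertical walls of the wide box its labels are those of the box.
-/

namespace Pool.Agent.H72.W

open Pool.Agent.H75.Perc hiding dl WL CT hh PB
open Pool.Agent.H75.TwoArm Pool.Agent.H75.Four Pool.Agent.H75.Four.PivAux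
open Pool.Agent.H33.Q1 (lt tt ct TL lt_odd tt_lt lt_tt lt_inj mem_TL tv tf)
open Pool.Agent.Q1.M4 (Cell)
open Pool.Agent.H41.W Pool.Agent.H6.W

/-! ### Cells -/

theorem st_lt' {b : JBox} {δ σ : ℝ} (hb : b.Ok δ σ) {i j : ℕ} (hij : i < j) (hj : j < b.K) :
    b.st i < b.st j := by
  induction j with
  | zero => omega
  | succ j ih =>
    have h1 := hb.st_mono j hj
    rcases Nat.lt_succ_iff_lt_or_eq.1 hij with h | rfl
    · exact (ih h (by omega)).trans h1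
    · exact h1

theorem st_le' {b : JBox} {δ σ : ℝ} (hb : b.Ok δ σ) {i j : ℕ} (hij : i ≤ j) (hj : j < b.K) :
    b.st i ≤ b.st j := by
  rcases hij.lt_or_eq with h | rfl
  · exact (st_lt' hb h hj).le
  · exact le_rfl

theorem mem_Q0 {b : JBox} {c : Cell} : c ∈ b.Q ↔
    (-(b.X : ℤ) ≤ c.1 ∧ c.1 < b.X ∧ -(b.H : ℤ) ≤ c.2 ∧ c.2 < b.H) ∨
    ∃ i < b.K, b.st i ≤ c.1 ∧ c.1 < b.X ∧ (c.2 = b.H + i ∨ c.2 = -(b.H : ℤ) - i - 1) := by
  unfold JBox.Q RC
  simp only [mem_union, mem_product, mem_Ico, mem_biUnion, mem_range]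
  constructor
  · rintro (⟨⟨a, b'⟩, c', d⟩ | ⟨i, hi, ⟨⟨a, b'⟩, c', d⟩ | ⟨⟨a, b'⟩, c', d⟩⟩)
    · exact Or.inl ⟨a, b', c', d⟩
    · exact Or.inr ⟨i, hi, a, b', Or.inl (by omega)⟩
    · exact Or.inr ⟨i, hi, a, b', Or.inr (by omega)⟩
  · rintro (⟨a, b', c', d⟩ | ⟨i, hi, a, b', h | h⟩)
    · exact Or.inl ⟨⟨a, b'⟩, c', d⟩
    · exact Or.inr ⟨i, hi, Or.inl ⟨⟨a, b'⟩, by omega, by omega⟩⟩
    · exact Or.inr ⟨i, hi, Or.inr ⟨⟨a, b'⟩, by omega, by omega⟩⟩

lemma kn_ex (b : JBox) (x : ℤ) : ∃ k, b.K ≤ k ∨ x < b.st k := ⟨b.K, Or.inl le_rfl⟩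

open Classical in
/-- number of steps which start at or to the left of the column `x` -/
noncomputable def kn (b : JBox) (x : ℤ) : ℕ := Nat.find (kn_ex b x)

variable {b : JBox} {δ σ : ℝ} {x y : ℤ}

lemma kn_lt {i : ℕ} (h : i < kn b x) : i < b.K ∧ b.st i ≤ x := by
  classical
  have := Nat.find_min (kn_ex b x) (m := i) (by unfold kn at h; convert h)
  push Not at this
  exact this

lemma lt_kn (hb : b.Ok δ σ) {i : ℕ} (h1 : i < b.K) (h2 : b.st i ≤ x) : i < kn b x := by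
  classical
  by_contra hc
  push Not at hc
  have h3 : b.K ≤ kn b x ∨ x < b.st (kn b x) := by
    have := Nat.find_spec (kn_ex b x)
    unfold kn
    convert this
  rcases h3 with h3 | h3
  · omega
  · have := st_le' hb hc h1
    omega

lemma kn_iff (hb : b.Ok δ σ) {i : ℕ} : i < kn b x ↔ i < b.K ∧ b.st i ≤ x :=
  ⟨kn_lt, fun h => lt_kn hb h.1 h.2⟩

lemma kn_mono (h : x ≤ y) : kn b x ≤ kn b y := by
  classical
  unfold kn
  refine Nat.find_mono fun k hk => ?_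
  rcases hk with hk | hk
  · exact Or.inl hk
  · exact Or.inr (by omega)

lemma kn_le : kn b x ≤ b.K := by
  classical
  unfold kn
  exact Nat.find_min' _ (Or.inl le_rfl)

/-- the column `x` of the box -/
lemma mem_Q' (hb : b.Ok δ σ) {c : Cell} : c ∈ b.Q ↔ (-(b.X : ℤ) ≤ c.1 ∧ c.1 < b.X) ∧
    -((b.H : ℤ) + kn b c.1) ≤ c.2 ∧ c.2 < (b.H : ℤ) + kn b c.1 := by
  rw [mem_Q0]
  constructor
  · rintro (⟨h1, h2, h3, h4⟩ | ⟨i, hi, h1, h2, h3⟩)
    · exact ⟨⟨h1, h2⟩, by omega, by omega⟩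
    · have h5 := lt_kn hb hi h1
      have h6 := (hb.st_lo i hi).1
      refine ⟨⟨by omega, h2⟩, ?_, ?_⟩ <;> omega
  · rintro ⟨⟨h1, h2⟩, h3, h4⟩
    by_cases c1 : (b.H : ℤ) ≤ c.2
    · right
      obtain ⟨h5, h6⟩ := kn_lt (b := b) (x := c.1) (i := (c.2 - b.H).toNat) (by omega)
      exact ⟨_, h5, h6, h2, Or.inl (by omega)⟩
    by_cases c2 : c.2 < -(b.H : ℤ)
    · right
      obtain ⟨h5, h6⟩ := kn_lt (b := b) (x := c.1) (i := (-(b.H : ℤ) - 1 - c.2).toNat) (by omega)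
      exact ⟨_, h5, h6, h2, Or.inr (by omega)⟩
    · exact Or.inl ⟨h1, h2, by omega, by omega⟩

/-- **the wide box** -/
noncomputable def Wb (b : JBox) (L : ℕ) : Finset Cell :=
  b.Q.filter fun c => -((L : ℤ) * b.H) ≤ c.1 ∧ c.1 < (L : ℤ) * b.H

lemma mem_Wb {L : ℕ} {c : Cell} :
    c ∈ Wb b L ↔ c ∈ b.Q ∧ -((L : ℤ) * b.H) ≤ c.1 ∧ c.1 < (L : ℤ) * b.H := by
  unfold Wb
  rw [mem_filter]

lemma Wb_sub {L : ℕ} : Wb b L ⊆ b.Q := filter_subset _ _

lemma TL_mono {Q Q' : Finset Cell} {n : ℤ} (h : Q ⊆ Q') : TL Q n ⊆ TL Q' n :=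
  biUnion_subset_biUnion_of_subset_left _ h

lemma WB_sub {L h : ℕ} : TL (Wb b L) (2 * (h : ℤ)) ⊆ b.B h := TL_mono Wb_sub

/-! ### The regions -/

/-- half height of the column `x` of tiles -/
noncomputable def ht (b : JBox) (h : ℕ) (x : ℤ) : ℤ :=
  ((b.H : ℤ) + kn b (x / (2 * (h : ℤ)))) * (2 * (h : ℤ))

lemma ht_pos {h : ℕ} (hH : 0 < b.H) (hh : 0 < h) : 0 < ht b h x := by
  unfold ht
  positivity

lemma ht_mono {h : ℕ} (hh : 0 < h) (hxy : x ≤ y) : ht b h x ≤ ht b h y := by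
  unfold ht
  have h1 : x / (2 * (h : ℤ)) ≤ y / (2 * (h : ℤ)) := Int.ediv_le_ediv (by omega) hxy
  have h2 := kn_mono (b := b) h1
  have h3 : (b.H : ℤ) + kn b (x / (2 * (h : ℤ))) ≤ (b.H : ℤ) + kn b (y / (2 * (h : ℤ))) := by
    have : (kn b (x / (2 * (h : ℤ))) : ℤ) ≤ kn b (y / (2 * (h : ℤ))) := by exact_mod_cast h2
    omega
  exact mul_le_mul_of_nonneg_right h3 (by omega)

/-- `A n ≤ x < B n`, `|y| < ht x` -/
noncomputable def mR (b : JBox) (h : ℕ) (A B : ℤ) (hH : 0 < b.H) (hh : 0 < h) (hAB : A < B) : MReg where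
  A := A * (2 * (h : ℤ))
  B := B * (2 * (h : ℤ))
  lo x := -ht b h x
  hi x := ht b h x
  AB := mul_lt_mul_of_pos_right hAB (by omega)
  hlo x _ _ := neg_le_neg (ht_mono hh (by omega))
  hhi x _ _ := ht_mono hh (by omega)
  lt0 := by
    have := ht_pos (b := b) (x := A * (2 * (h : ℤ))) hH hh
    show -ht b h (A * (2 * (h : ℤ))) < ht b h (A * (2 * (h : ℤ)))
    omega

section

variable {h : ℕ} {A B : ℤ} {hH : 0 < b.H} {hh : 0 < h} {hAB : A < B}

@[simp] lemma mR_A : (mR b h A B hH hh hAB).A = A * (2 * (h : ℤ)) := rfl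
@[simp] lemma mR_B : (mR b h A B hH hh hAB).B = B * (2 * (h : ℤ)) := rfl
@[simp] lemma mR_lo : (mR b h A B hH hh hAB).lo x = -ht b h x := rfl
@[simp] lemma mR_hi : (mR b h A B hH hh hAB).hi x = ht b h x := rfl

lemma mR_even : ((mR b h A B hH hh hAB).A + (mR b h A B hH hh hAB).lo (mR b h A B hH hh hAB).A) % 2 = 0 := by
  rw [mR_lo, mR_A]
  unfold ht
  rw [show A * (2 * (h : ℤ)) + -(((b.H : ℤ) + kn b (A * (2 * (h : ℤ)) / (2 * (h : ℤ)))) * (2 * (h : ℤ))) =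
    2 * (A * h - ((b.H : ℤ) + kn b (A * (2 * (h : ℤ)) / (2 * (h : ℤ)))) * h) by ring]
  omega

lemma div_lt_iff' {n a c : ℤ} (hn : 0 < n) : a / n < c ↔ a < c * n := by
  constructor
  · intro h1
    exact Int.lt_mul_of_ediv_lt hn h1
  · intro h1
    exact Int.ediv_lt_of_lt_mul hn h1

/-- the labels of the region -/
theorem mR_lab (hb : b.Ok δ σ) (h1 : -(b.X : ℤ) ≤ A) (h2 : B ≤ b.X) :
    (mR b h A B hH hh hAB).T.image lt = TL (b.Q.filter fun c => A ≤ c.1 ∧ c.1 < B) (2 * (h : ℤ)) := by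
  have hn : 0 < 2 * (h : ℤ) := by omega
  ext e
  rw [mem_TL hn]
  have key : ∀ x y : ℤ, (x, y) ∈ (mR b h A B hH hh hAB).T ↔
      ct (2 * (h : ℤ)) (x, y) ∈ b.Q.filter fun c => A ≤ c.1 ∧ c.1 < B := by
    intro x y
    rw [MReg.mem_T, mem_filter, mem_Q' hb]
    unfold ct
    simp only [mR_A, mR_B, mR_lo, mR_hi]
    have e1 : A ≤ x / (2 * (h : ℤ)) ↔ A * (2 * (h : ℤ)) ≤ x := Int.le_ediv_iff_mul_le hn
    have e2 : x / (2 * (h : ℤ)) < B ↔ x < B * (2 * (h : ℤ)) := div_lt_iff' hn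
    have e3 : -((b.H : ℤ) + kn b (x / (2 * (h : ℤ)))) ≤ y / (2 * (h : ℤ)) ↔ -ht b h x ≤ y := by
      rw [Int.le_ediv_iff_mul_le hn]
      unfold ht
      rw [neg_mul]
    have e4 : y / (2 * (h : ℤ)) < (b.H : ℤ) + kn b (x / (2 * (h : ℤ))) ↔ y < ht b h x := by
      rw [div_lt_iff' hn]
      rfl
    rw [← e1, ← e2, ← e3, ← e4]
    constructor
    · rintro ⟨⟨a1, a2⟩, a3, a4⟩
      exact ⟨⟨⟨by omega, by omega⟩, a3, a4⟩, a1, a2⟩
    · rintro ⟨⟨-, a3, a4⟩, a1, a2⟩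
      exact ⟨⟨a1, a2⟩, a3, a4⟩
  constructor
  · intro he
    rw [mem_image] at he
    obtain ⟨⟨x, y⟩, h3, rfl⟩ := he
    refine ⟨lt_odd _, ?_⟩
    rw [tt_lt]
    exact (key x y).1 h3
  · rintro ⟨h3, h4⟩
    rw [mem_image]
    exact ⟨tt e, (key _ _).2 h4, lt_tt h3⟩

end

lemma Ok.X_pos (hb : b.Ok δ σ) : 0 < b.X := by
  have h1 := hb.X_ge
  have h2 := hb.H0
  rcases Nat.eq_zero_or_pos b.X with h3 | h3
  · rw [h3] at h1
    have : (0 : ℝ) < b.H := by exact_mod_cast h2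
    simp at h1
    omega
  · exact h3

/-- the box -/
noncomputable def bR (b : JBox) (h : ℕ) (hb : b.Ok δ σ) (hh : 0 < h) : MReg :=
  mR b h (-(b.X : ℤ)) b.X hb.H0 hh (by have := Ok.X_pos hb; omega)

/-- the wide box -/
noncomputable def wR (b : JBox) (L h : ℕ) (hb : b.Ok δ σ) (hh : 0 < h) (hL : 0 < L) : MReg :=
  mR b h (-((L : ℤ) * b.H)) ((L : ℤ) * b.H) hb.H0 hh (by
    have h1 := hb.H0
    have : (0 : ℤ) < (L : ℤ) * b.H := by positivity
    omega)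

section

variable {h L : ℕ} {hb : b.Ok δ σ} {hh : 0 < h} {hL : 0 < L}

@[simp] lemma bR_A : (bR b h hb hh).A = -(b.X : ℤ) * (2 * (h : ℤ)) := rfl
@[simp] lemma bR_B : (bR b h hb hh).B = (b.X : ℤ) * (2 * (h : ℤ)) := rfl
@[simp] lemma bR_lo : (bR b h hb hh).lo x = -ht b h x := rfl
@[simp] lemma bR_hi : (bR b h hb hh).hi x = ht b h x := rfl
@[simp] lemma wR_A : (wR b L h hb hh hL).A = -((L : ℤ) * b.H) * (2 * (h : ℤ)) := rfl
@[simp] lemma wR_B : (wR b L h hb hh hL).B = (L : ℤ) * b.H * (2 * (h : ℤ)) := rfl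
@[simp] lemma wR_lo : (wR b L h hb hh hL).lo x = -ht b h x := rfl
@[simp] lemma wR_hi : (wR b L h hb hh hL).hi x = ht b h x := rfl

theorem bR_lab : (bR b h hb hh).T.image lt = b.B h := by
  unfold bR
  rw [mR_lab hb le_rfl le_rfl]
  unfold JBox.B
  congr 1
  refine filter_true_of_mem fun c hc => ?_
  exact ((mem_Q' hb).1 hc).1

theorem wR_lab (hX : (L : ℤ) * b.H ≤ b.X) :
    (wR b L h hb hh hL).T.image lt = TL (Wb b L) (2 * (h : ℤ)) := by
  unfold wR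
  rw [mR_lab hb (by omega) hX]
  rfl

/-- **the box is a disc** -/
theorem bR_disc : Disc (b.B h) (bR b h hb hh).n (fun s => gv ((bR b h hb hh).cw (2 * s)))
    (fun s => gf ((bR b h hb hh).cw (2 * s - 1))) := by
  have := (bR b h hb hh).disc mR_even
  rwa [bR_lab] at this

/-- **the wide box is a disc** -/
theorem wR_disc (hX : (L : ℤ) * b.H ≤ b.X) : Disc (TL (Wb b L) (2 * (h : ℤ))) (wR b L h hb hh hL).n
    (fun s => gv ((wR b L h hb hh hL).cw (2 * s))) (fun s => gf ((wR b L h hb hh hL).cw (2 * s - 1))) := by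
  have := (wR b L h hb hh hL).disc mR_even
  rwa [wR_lab hX] at this

end

/-! ### Boundary faces are on the walk -/

/-- the labels around the face `(a, b)` are the tiles around the grid point `(a + b - 1, b - a)` -/
lemma lab_around_f {a b : ℤ} {q : ℤ × ℤ} (hq : IsUnit4 (q - (a, b))) :
    (a, b) + q - (1, 1) = lt (a + b - 1, b - a - 1) ∨ (a, b) + q - (1, 1) = lt (a + b - 1 - 1, b - a) ∨
      (a, b) + q - (1, 1) = lt (a + b - 1, b - a) ∨ (a, b) + q - (1, 1) = lt (a + b - 1 - 1, b - a - 1) := by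
  obtain ⟨c, d⟩ := q
  have hu := unit_cases hq
  simp only at hu
  unfold lt
  simp only [Prod.mk_add_mk, Prod.mk_sub_mk, Prod.mk.injEq]
  omega

lemma gf_eq {a b : ℤ} : gf (a + b - 1, b - a) = (a, b) := by
  unfold gf; refine Prod.ext ?_ ?_ <;> simp only <;> omega

lemma mem_sh1 {E : Finset (ℤ × ℤ)} {l : ℤ × ℤ} : l ∈ E.map sh1 ↔ l - (1, 1) ∈ E := by
  rw [mem_map]
  constructor
  · rintro ⟨m, hm, rfl⟩
    have : sh1 m - (1, 1) = m := by unfold sh1; refine Prod.ext ?_ ?_ <;> simp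
    rwa [this]
  · intro h
    refine ⟨_, h, ?_⟩
    unfold sh1; refine Prod.ext ?_ ?_ <;> simp

/-- boundary faces are on the walk -/
lemma TWalk.bd_face {T : Finset (ℤ × ℤ)} {n : ℤ} {p : ℤ → ℤ × ℤ} (W : TWalk T n p) (g : ℤ × ℤ)
    (h1 : Tc ((T.image lt).map sh1) g) (h2 : Ni ((T.image lt).map sh1) g) :
    ∃ s, gf (p (2 * s - 1)) = g := by
  by_contra hw
  push Not at hw
  obtain ⟨a, b⟩ := g
  have hoff : ∀ s, p s ≠ (a + b - 1, b - a) := by
    intro s hs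
    have h1 := W.par_int s
    rw [hs] at h1
    simp only at h1
    obtain ⟨t, rfl⟩ : ∃ t, s = 2 * t - 1 := ⟨(s + 1) / 2, by omega⟩
    apply hw t
    rw [hs, gf_eq]
  have e0 : (a + b - 1, b - a) ∈ T ↔ (a + b - 1, b - a - 1) ∈ T := by
    by_contra hc
    obtain ⟨s, h | h⟩ := W.hor _ _ hc
    exacts [hoff _ h.1, hoff _ h.2]
  have e1 : (a + b - 1, b - a) ∈ T ↔ (a + b - 1 - 1, b - a) ∈ T := by
    by_contra hc
    obtain ⟨s, h | h⟩ := W.ver _ _ hc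
    exacts [hoff _ h.1, hoff _ h.2]
  have e2 : (a + b - 1 - 1, b - a) ∈ T ↔ (a + b - 1 - 1, b - a - 1) ∈ T := by
    by_contra hc
    obtain ⟨s, h | h⟩ := W.hor _ _ hc
    · rw [sub_add_cancel] at h; exact hoff _ h.2
    · rw [sub_add_cancel] at h; exact hoff _ h.1
  obtain ⟨q, hq, hqB⟩ := h1
  obtain ⟨q', hq', hqN⟩ := h2
  rw [mem_sh1] at hqB hqN
  have key : (a + b - 1, b - a) ∈ T := by
    rcases lab_around_f hq with h | h | h | h <;> rw [h, TWalk.lt_mem] at hqB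
    · exact e0.2 hqB
    · exact e1.2 hqB
    · exact hqB
    · exact e1.2 (e2.2 hqB)
  rcases lab_around_f hq' with h | h | h | h <;> rw [h, TWalk.lt_mem] at hqN
  · exact hqN (e0.1 key)
  · exact hqN (e1.1 key)
  · exact hqN key
  · exact hqN (e2.1 (e1.1 key))

/-- **boundary faces are on the clockwise walk** -/
theorem MReg.bd_face (R : MReg) (he : (R.A + R.lo R.A) % 2 = 0) (g : ℤ × ℤ)
    (h1 : Tc ((R.T.image lt).map sh1) g) (h2 : Ni ((R.T.image lt).map sh1) g) :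
    ∃ s, gf (R.cw (2 * s - 1)) = g := by
  obtain ⟨s, hs⟩ := (R.twalk he).bd_face g h1 h2
  refine ⟨1 - s, ?_⟩
  rw [← hs]
  congr 2
  ring

/-- boundary vertices are on the clockwise walk -/
theorem MReg.bd_vert (R : MReg) (he : (R.A + R.lo R.A) % 2 = 0) (w : ℤ × ℤ)
    (h1 : Tc (R.T.image lt) w) (h2 : Ni (R.T.image lt) w) : ∃ s, gv (R.cw (2 * s)) = w :=
  (R.disc he).bd w h1 h2

section

variable {h L : ℕ} {hb : b.Ok δ σ} {hh : 0 < h} {hL : 0 < L}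

theorem bR_face (g : ℤ × ℤ) (h1 : Tc ((b.B h).map sh1) g) (h2 : Ni ((b.B h).map sh1) g) :
    ∃ s, gf ((bR b h hb hh).cw (2 * s - 1)) = g := by
  refine (bR b h hb hh).bd_face mR_even g ?_ ?_ <;> rw [bR_lab] <;> assumption

theorem wR_face (hX : (L : ℤ) * b.H ≤ b.X) (g : ℤ × ℤ)
    (h1 : Tc ((TL (Wb b L) (2 * (h : ℤ))).map sh1) g) (h2 : Ni ((TL (Wb b L) (2 * (h : ℤ))).map sh1) g) :
    ∃ s, gf ((wR b L h hb hh hL).cw (2 * s - 1)) = g := by
  refine (wR b L h hb hh hL).bd_face mR_even g ?_ ?_ <;> rw [wR_lab hX] <;> assumption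

end

/-! ### Points of the walk and boundary points -/

namespace MReg

variable (R : MReg)

/-- the points of the walk are boundary points: one of the four tiles around is in the region, one is not -/
lemma cw_tiles (he : (R.A + R.lo R.A) % 2 = 0) (s : ℤ) {x y : ℤ} (hs : R.cw s = (x, y)) :
    ((x, y) ∈ R.T ∨ (x - 1, y) ∈ R.T ∨ (x - 1, y - 1) ∈ R.T ∨ (x, y - 1) ∈ R.T) ∧
      ((x, y) ∉ R.T ∨ (x - 1, y) ∉ R.T ∨ (x - 1, y - 1) ∉ R.T ∨ (x, y - 1) ∉ R.T) := by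
  have h := (R.twalk he).step (-s)
  simp only [neg_neg, hs] at h
  rcases h with h | h | h | h
  · exact ⟨Or.inl h.2.1, Or.inr (Or.inr (Or.inr h.2.2))⟩
  · exact ⟨Or.inr (Or.inl h.2.1), Or.inl h.2.2⟩
  · exact ⟨Or.inr (Or.inr (Or.inl h.2.1)), Or.inr (Or.inl h.2.2)⟩
  · exact ⟨Or.inr (Or.inr (Or.inr h.2.1)), Or.inr (Or.inr (Or.inl h.2.2))⟩

/-- the label of a tile at the even point of a vertex -/
lemma unit_v {a c x y : ℤ} (h' : (x = a + c ∨ x = a + c - 1) ∧ (y = c - a ∨ y = c - a - 1)) :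
    ∃ q, IsUnit4 (q - (a, c)) ∧ (a, c) + q = lt (x, y) := by
  refine ⟨lt (x, y) - (a, c), ?_, by ring⟩
  unfold IsUnit4 lt
  simp only [Prod.ext_iff, Prod.fst_sub, Prod.snd_sub]
  obtain ⟨h1 | h1, h2 | h2⟩ := h' <;> subst h1 <;> subst h2 <;> omega

/-- the label of a tile at the odd point of a face -/
lemma unit_f {a c x y : ℤ} (h' : (x = a + c - 1 ∨ x = a + c - 1 - 1) ∧ (y = c - a ∨ y = c - a - 1)) :
    ∃ q, IsUnit4 (q - (a, c)) ∧ (a, c) + q - (1, 1) = lt (x, y) := by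
  refine ⟨lt (x, y) - (a, c) + (1, 1), ?_, by ring⟩
  unfold IsUnit4 lt
  simp only [Prod.ext_iff, Prod.fst_sub, Prod.snd_sub, Prod.fst_add, Prod.snd_add]
  obtain ⟨h1 | h1, h2 | h2⟩ := h' <;> subst h1 <;> subst h2 <;> omega

lemma tc_of {T : Finset (ℤ × ℤ)} {a c x y : ℤ} (h : (x, y) ∈ T)
    (h' : (x = a + c ∨ x = a + c - 1) ∧ (y = c - a ∨ y = c - a - 1)) : Tc (T.image lt) (a, c) := by
  obtain ⟨q, hq, he⟩ := unit_v h'
  exact ⟨q, hq, by rw [he, TWalk.lt_mem]; exact h⟩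

lemma ni_of {T : Finset (ℤ × ℤ)} {a c x y : ℤ} (h : (x, y) ∉ T)
    (h' : (x = a + c ∨ x = a + c - 1) ∧ (y = c - a ∨ y = c - a - 1)) : Ni (T.image lt) (a, c) := by
  obtain ⟨q, hq, he⟩ := unit_v h'
  exact ⟨q, hq, by rw [he, TWalk.lt_mem]; exact h⟩

lemma tcf_of {T : Finset (ℤ × ℤ)} {a c x y : ℤ} (h : (x, y) ∈ T)
    (h' : (x = a + c - 1 ∨ x = a + c - 1 - 1) ∧ (y = c - a ∨ y = c - a - 1)) :
    Tc ((T.image lt).map sh1) (a, c) := by
  obtain ⟨q, hq, he⟩ := unit_f h'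
  exact ⟨q, hq, by rw [mem_sh1, he, TWalk.lt_mem]; exact h⟩

lemma nif_of {T : Finset (ℤ × ℤ)} {a c x y : ℤ} (h : (x, y) ∉ T)
    (h' : (x = a + c - 1 ∨ x = a + c - 1 - 1) ∧ (y = c - a ∨ y = c - a - 1)) :
    Ni ((T.image lt).map sh1) (a, c) := by
  obtain ⟨q, hq, he⟩ := unit_f h'
  exact ⟨q, hq, by rw [mem_sh1, he, TWalk.lt_mem]; exact h⟩

variable {R}

/-- the vertices of the walk are boundary vertices -/
theorem v_bd (he : (R.A + R.lo R.A) % 2 = 0) (s : ℤ) :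
    Tc (R.T.image lt) (gv (R.cw (2 * s))) ∧ Ni (R.T.image lt) (gv (R.cw (2 * s))) := by
  have hpar : ((R.cw (2 * s)).1 + (R.cw (2 * s)).2) % 2 = 0 := by
    have := (R.twalk he).par_int (-(2 * s))
    simp only [neg_neg] at this
    rw [this]; omega
  obtain ⟨a, c, hac⟩ : ∃ a c, gv (R.cw (2 * s)) = (a, c) := ⟨_, _, rfl⟩
  have hg := TWalk.gv_grid hpar
  rw [hac] at hg ⊢
  simp only at hg
  obtain ⟨h1, h2⟩ := R.cw_tiles he (2 * s) hg
  constructor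
  · rcases h1 with h1 | h1 | h1 | h1 <;> exact tc_of h1 ⟨by omega, by omega⟩
  · rcases h2 with h1 | h1 | h1 | h1 <;> exact ni_of h1 ⟨by omega, by omega⟩

/-- the faces of the walk are boundary faces -/
theorem f_bd (he : (R.A + R.lo R.A) % 2 = 0) (s : ℤ) :
    Tc ((R.T.image lt).map sh1) (gf (R.cw (2 * s - 1))) ∧
      Ni ((R.T.image lt).map sh1) (gf (R.cw (2 * s - 1))) := by
  have hpar : ((R.cw (2 * s - 1)).1 + (R.cw (2 * s - 1)).2) % 2 = 1 := by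
    have := (R.twalk he).par_int (-(2 * s - 1))
    simp only [neg_neg] at this
    rw [this]; omega
  obtain ⟨a, c, hac⟩ : ∃ a c, gf (R.cw (2 * s - 1)) = (a, c) := ⟨_, _, rfl⟩
  have hg : R.cw (2 * s - 1) = (a + c - 1, c - a) := by
    have e1 : a = (gf (R.cw (2 * s - 1))).1 := by rw [hac]
    have e2 : c = (gf (R.cw (2 * s - 1))).2 := by rw [hac]
    unfold gf at e1 e2
    simp only at e1 e2
    refine Prod.ext ?_ ?_ <;> simp only <;> omega
  rw [hac]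
  obtain ⟨h1, h2⟩ := R.cw_tiles he (2 * s - 1) hg
  constructor
  · rcases h1 with h1 | h1 | h1 | h1 <;> exact tcf_of h1 ⟨by omega, by omega⟩
  · rcases h2 with h1 | h1 | h1 | h1 <;> exact nif_of h1 ⟨by omega, by omega⟩

end MReg

section

variable {h L : ℕ} {hb : b.Ok δ σ} {hh : 0 < h} {hL : 0 < L}

theorem bR_v (s : ℤ) : Tc (b.B h) (gv ((bR b h hb hh).cw (2 * s))) ∧
    Ni (b.B h) (gv ((bR b h hb hh).cw (2 * s))) := by
  rw [← bR_lab (hb := hb) (hh := hh)]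
  exact MReg.v_bd mR_even s

theorem bR_f (s : ℤ) : Tc ((b.B h).map sh1) (gf ((bR b h hb hh).cw (2 * s - 1))) ∧
    Ni ((b.B h).map sh1) (gf ((bR b h hb hh).cw (2 * s - 1))) := by
  rw [← bR_lab (hb := hb) (hh := hh)]
  exact MReg.f_bd mR_even s

theorem wR_v (hX : (L : ℤ) * b.H ≤ b.X) (s : ℤ) :
    Tc (TL (Wb b L) (2 * (h : ℤ))) (gv ((wR b L h hb hh hL).cw (2 * s))) ∧
    Ni (TL (Wb b L) (2 * (h : ℤ))) (gv ((wR b L h hb hh hL).cw (2 * s))) := by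
  rw [← wR_lab (hb := hb) (hh := hh) (hL := hL) hX]
  exact MReg.v_bd mR_even s

theorem wR_f (hX : (L : ℤ) * b.H ≤ b.X) (s : ℤ) :
    Tc ((TL (Wb b L) (2 * (h : ℤ))).map sh1) (gf ((wR b L h hb hh hL).cw (2 * s - 1))) ∧
    Ni ((TL (Wb b L) (2 * (h : ℤ))).map sh1) (gf ((wR b L h hb hh hL).cw (2 * s - 1))) := by
  rw [← wR_lab (hb := hb) (hh := hh) (hL := hL) hX]
  exact MReg.f_bd mR_even s

/-! ### The wide box against the box -/

/-- the two label sets agree in the columns of the wide box -/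
lemma mem_WB_iff (hh : 0 < h) {l : ℤ × ℤ} (h1 : -((L : ℤ) * b.H) * (2 * (h : ℤ)) ≤ (tt l).1)
    (h2 : (tt l).1 < (L : ℤ) * b.H * (2 * (h : ℤ))) :
    l ∈ TL (Wb b L) (2 * (h : ℤ)) ↔ l ∈ b.B h := by
  have hn : 0 < 2 * (h : ℤ) := by omega
  unfold JBox.B
  rw [mem_TL hn, mem_TL hn, mem_Wb]
  unfold ct
  simp only
  rw [Int.le_ediv_iff_mul_le hn, div_lt_iff' hn]
  tauto

/-- **vertices strictly between the vertical walls of the wide box** -/
theorem tc_iff (hh : 0 < h) {w : ℤ × ℤ} (h1 : -((L : ℤ) * b.H) * (2 * (h : ℤ)) < (tv w).1)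
    (h2 : (tv w).1 < (L : ℤ) * b.H * (2 * (h : ℤ))) :
    (Tc (TL (Wb b L) (2 * (h : ℤ))) w ↔ Tc (b.B h) w) ∧
      (Ni (TL (Wb b L) (2 * (h : ℤ))) w ↔ Ni (b.B h) w) := by
  have key : ∀ q, IsUnit4 (q - w) → (w + q ∈ TL (Wb b L) (2 * (h : ℤ)) ↔ w + q ∈ b.B h) := by
    intro q hq
    obtain ⟨a, c⟩ := w
    unfold tv at h1 h2
    simp only at h1 h2
    apply mem_WB_iff hh
    · rcases TWalk.lab_around hq with h | h | h | h <;> rw [h, tt_lt] <;> simp only <;> omega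
    · rcases TWalk.lab_around hq with h | h | h | h <;> rw [h, tt_lt] <;> simp only <;> omega
  constructor
  · constructor
    · rintro ⟨q, hq, h⟩; exact ⟨q, hq, (key q hq).1 h⟩
    · rintro ⟨q, hq, h⟩; exact ⟨q, hq, (key q hq).2 h⟩
  · constructor
    · rintro ⟨q, hq, h⟩; exact ⟨q, hq, fun h' => h ((key q hq).2 h')⟩
    · rintro ⟨q, hq, h⟩; exact ⟨q, hq, fun h' => h ((key q hq).1 h')⟩

/-- **faces strictly between the vertical walls of the wide box** -/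
theorem tcf_iff (hh : 0 < h) {g : ℤ × ℤ} (h1 : -((L : ℤ) * b.H) * (2 * (h : ℤ)) < (tf g).1)
    (h2 : (tf g).1 < (L : ℤ) * b.H * (2 * (h : ℤ))) :
    (Tc ((TL (Wb b L) (2 * (h : ℤ))).map sh1) g ↔ Tc ((b.B h).map sh1) g) ∧
      (Ni ((TL (Wb b L) (2 * (h : ℤ))).map sh1) g ↔ Ni ((b.B h).map sh1) g) := by
  have key : ∀ q, IsUnit4 (q - g) →
      (g + q ∈ (TL (Wb b L) (2 * (h : ℤ))).map sh1 ↔ g + q ∈ (b.B h).map sh1) := by
    intro q hq
    obtain ⟨a, c⟩ := g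
    unfold tf at h1 h2
    simp only at h1 h2
    rw [mem_sh1, mem_sh1]
    apply mem_WB_iff hh
    · rcases lab_around_f hq with h | h | h | h <;> rw [h, tt_lt] <;> simp only <;> omega
    · rcases lab_around_f hq with h | h | h | h <;> rw [h, tt_lt] <;> simp only <;> omega
  constructor
  · constructor
    · rintro ⟨q, hq, h⟩; exact ⟨q, hq, (key q hq).1 h⟩
    · rintro ⟨q, hq, h⟩; exact ⟨q, hq, (key q hq).2 h⟩
  · constructor
    · rintro ⟨q, hq, h⟩; exact ⟨q, hq, fun h' => h ((key q hq).2 h')⟩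
    · rintro ⟨q, hq, h⟩; exact ⟨q, hq, fun h' => h ((key q hq).1 h')⟩

/-- the hypothesis `hX` for admissible boxes -/
lemma Ok.LH_le (hb : b.Ok δ σ) (hL : 0 < L) (hδ : δ ≤ 1 / (4 * L)) : 4 * ((L : ℤ) * b.H) ≤ b.X := by
  have h1 := hb.X_ge
  have hL' : (0 : ℝ) < L := by exact_mod_cast hL
  have h2 : (b.H : ℝ) ≤ 1 / (4 * L) * b.X := h1.trans (mul_le_mul_of_nonneg_right hδ (by positivity))
  have h3 : 4 * (L * b.H : ℝ) ≤ b.X := by
    rw [one_div, inv_mul_eq_div, le_div_iff₀ (by positivity)] at h2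
    linarith
  exact_mod_cast h3

end

end Pool.Agent.H72.W
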