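import Mathlib
import Pool.Agent.H72.W.EndsX

set_option autoImplicit false
open Finset

/-! # Complements to `EndsX`

`exists_Ex` : the half row of a tile of the polygon leaves it through a right wall. `one_of` : the exit tile
is in one layer only if the row is not next to a grid line. `sum_pj` : the probabilities of the far ends have
the sum one. -/

namespace Pool.Agent.H72.W.V

open Pool.Agent.H75.Perc hiding WL CT hh PB
open Pool.Agent.H75.TwoArm
open Pool.Agent.H99.W Pool.Agent.H13.W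
open Pool.Agent.H45.W (od)
open Pool.Agent.H33.Q1 (lt tt lt_odd tt_lt lt_tt lt_inj ct ct_eq ct_of LY mem_LY mem_LY' wp ot_eq lt_mem_TL
  mem_TL)
open Pool.Agent.Q1.M4 (Cell tail)
open Pool.Agent.H21.FM (Shape EE)
open Pool.Agent.H74.W (Lam3 Del Ex Aft Wp yy GW Cv pj)
open Pool.Agent.H58.W (PB PB_congr PB_not PB_true PB_and_add)

variable {S : Shape} {h : ℕ} {p : ℤ × ℤ}

/-- **The exit exists.** -/
theorem exists_Ex (hh : 1 ≤ h) (hp : ct (2 * (h : ℤ)) p ∈ S.P.Q) : ∃ t, Ex S h p t := by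
  classical
  have hn : (0 : ℤ) < (2 * (h : ℤ)) := by omega
  have hex : ∃ m : ℕ, ct (2 * (h : ℤ)) (p.1 + m, p.2) ∉ S.P.Q := by
    by_contra hc
    push Not at hc
    refine Set.infinite_of_injective_forall_mem (f := fun m : ℕ => ct (2 * (h : ℤ)) (p.1 + (2 * (h : ℤ)) * m, p.2))
      (fun m m' h => ?_) (s := (S.P.Q : Set Cell)) (fun m => ?_) S.P.Q.finite_toSet
    · have h1 := congrArg Prod.fst h
      unfold ct at h1
      simp only at h1
      rw [Int.add_mul_ediv_left _ _ hn.ne', Int.add_mul_ediv_left _ _ hn.ne'] at h1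
      omega
    · have := hc (2 * h * m)
      push_cast at this
      exact mem_coe.2 this
  set m := Nat.find hex with hm
  have h1 : ct (2 * (h : ℤ)) (p.1 + m, p.2) ∉ S.P.Q := Nat.find_spec hex
  have h0 : 0 < m := by
    rcases Nat.eq_zero_or_pos m with h | h
    · exfalso
      rw [h] at h1
      apply h1
      simpa using hp
    · exact h
  have h2 : ∀ m' : ℕ, m' < m → ct (2 * (h : ℤ)) (p.1 + m', p.2) ∈ S.P.Q := fun m' h => by
    have := Nat.find_min hex h
    simpa using this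
  have d0 : dir 0 = (1, 0) := by
    rcases dir_cases 0 with ⟨h, e⟩ | ⟨h, e⟩ | ⟨h, e⟩ | ⟨h, e⟩ <;> first | (exfalso; omega) | exact e
  obtain ⟨t, ht, hk, hl⟩ := LY_of (S := S) (h := h) (by omega) h1 (l := 0) (by
    rw [d0]
    have := h2 (m - 1) (by omega)
    have e : ((m - 1 : ℕ) : ℤ) = (m : ℤ) - 1 := by omega
    rw [e] at this
    have e2 : ((p.1 + (m : ℤ), p.2) - ((1 : ℤ), (0 : ℤ)) : ℤ × ℤ) = (p.1 + ((m : ℤ) - 1), p.2) := by
      refine Prod.ext ?_ ?_ <;> simp; ring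
    rw [e2]; exact this)
  refine ⟨t, ht, by omega, lt (p.1 + m, p.2), ⟨lt_odd _, by rw [tt_lt], by rw [tt_lt]; simp, ?_⟩, hl⟩
  rw [tt_lt]
  intro x k1 k2
  simp only at k2
  have := h2 (x - p.1).toNat (by omega)
  have e : p.1 + ((x - p.1).toNat : ℤ) = x := by omega
  rwa [e] at this

/-- the row of a tile in two layers -/
lemma row_two (hh : 1 ≤ h) {i j : ℕ} (hi : i < S.N) (hj : j < S.N) (hne : i ≠ j) {e : ℤ × ℤ}
    (h1 : e ∈ LY (2 * (h : ℤ)) (S.P.side i)) (h2 : e ∈ LY (2 * (h : ℤ)) (S.P.side j)) :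
    (tt e).2 % (2 * (h : ℤ)) = 0 ∨ (tt e).2 % (2 * (h : ℤ)) = (2 * (h : ℤ)) - 1 := by
  have hn : (0 : ℤ) < (2 * (h : ℤ)) := by omega
  -- the row of the first, last tile of a vertical side
  have key : ∀ i' : ℕ, ∀ a : ℤ, (a = 0 ∨ a = (2 * (h : ℤ)) - 1) → S.k i' % 2 = 1 →
      (tt (T (2 * (h : ℤ)) (S.P.side i') a)).2 % (2 * (h : ℤ)) = 0 ∨ (tt (T (2 * (h : ℤ)) (S.P.side i') a)).2 % (2 * (h : ℤ)) = (2 * (h : ℤ)) - 1 := by
    intro i' a ha hk
    unfold T
    rw [tt_lt]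
    have hmod : ∀ c d : ℤ, ((2 * (h : ℤ)) * c + d) % (2 * (h : ℤ)) = d % (2 * (h : ℤ)) := fun c d => by
      rw [add_comm, Int.add_mul_emod_self_left]
    rcases dir_cases (S.P.side i').2 with ⟨b, d⟩ | ⟨b, d⟩ | ⟨b, d⟩ | ⟨b, d⟩
    · unfold Shape.k at hk; omega
    · rw [(ot_eq (2 * (h : ℤ)) (S.P.side i') a).2.1 b]
      unfold wp
      rw [d]
      simp only [mul_one]
      rw [hmod]
      rcases ha with rfl | rfl
      · left; simp
      · right; exact Int.emod_eq_of_lt (by omega) (by omega)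
    · unfold Shape.k at hk; omega
    · rw [(ot_eq (2 * (h : ℤ)) (S.P.side i') a).2.2.2 b]
      unfold wp
      rw [d]
      simp only [Prod.snd_add]
      rcases ha with rfl | rfl
      · right
        have : (2 * (h : ℤ)) * (tail (S.P.side i')).2 + 0 * -1 + -1 =
          (2 * (h : ℤ)) * ((tail (S.P.side i')).2 - 1) + ((2 * (h : ℤ)) - 1) := by ring
        rw [this, hmod]
        exact Int.emod_eq_of_lt (by omega) (by omega)
      · left
        have : (2 * (h : ℤ)) * (tail (S.P.side i')).2 + ((2 * (h : ℤ)) - 1) * -1 + -1 =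
          (2 * (h : ℤ)) * ((tail (S.P.side i')).2 - 1) + 0 := by ring
        rw [this, hmod]
        simp
  -- the turn
  have turn : ∀ i j : ℕ, ∀ a b : ℤ, T (2 * (h : ℤ)) (S.P.side i) a = T (2 * (h : ℤ)) (S.P.side j) b → j = i + 1 →
      a = (2 * (h : ℤ)) - 1 → b = 0 → S.P.side (i + 1) =
        ((S.P.side i).1 + dir (S.k i) + dir (S.k i - 1), S.k i - 1) →
      (tt (T (2 * (h : ℤ)) (S.P.side i) a)).2 % (2 * (h : ℤ)) = 0 ∨ (tt (T (2 * (h : ℤ)) (S.P.side i) a)).2 % (2 * (h : ℤ)) = (2 * (h : ℤ)) - 1 := by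
    intro i j a b he hj ha hb hs
    have hk : S.k (i + 1) = S.k i - 1 := by
      show (S.P.side (i + 1)).2 = _
      rw [hs]
    rcases Int.emod_two_eq_zero_or_one (S.k i) with h3 | h3
    · rw [he, hj]
      exact key (i + 1) b (Or.inl hb) (by omega)
    · exact key i a (Or.inr ha) h3
  obtain ⟨a, ⟨a0, a1⟩, rfl⟩ := (LY_T hn).1 h1
  obtain ⟨b, ⟨b0, b1⟩, he⟩ := (LY_T hn).1 h2
  rcases LY_two hh hi hj a0 a1 b0 b1 he with ⟨e1, -⟩ | ⟨e1, e2, e3, e4⟩ | ⟨e1, e2, e3, e4⟩
  · exact absurd e1.symm hne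
  · exact turn i j a b he e1 e2 e3 e4
  · rw [he]
    exact turn j i b a he.symm e1 e2 e3 e4

/-- **Rows away from the grid lines**: the exit tile is in one layer only. -/
theorem one_of (hh : 1 ≤ h) (h0 : p.2 % (2 * (h : ℤ)) ≠ 0) (h1 : p.2 % (2 * (h : ℤ)) ≠ (2 * (h : ℤ)) - 1) : One S h p := by
  intro e he i hi j hj k1 k2
  by_contra hne
  rcases row_two hh hi hj hne k1 k2 with h2 | h2 <;> rw [he.2.1] at h2
  · exact h0 h2
  · exact h1 h2

section prob

variable {κ : Type*} [DecidableEq κ]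

/-- three exclusive events, one of which occurs -/
lemma PB_three {α β : Type*} [DecidableEq α] [DecidableEq β] {E : Finset α} {b : α → β}
    {A : Fin 3 → Finset α → Prop} (h : ∀ ω, ω ⊆ E → ∃! j, A j ω) : ∑ j, PB E b (A j) = 1 := by
  rw [Fin.sum_univ_three]
  have h1 := PB_and_add E b (fun ω => A 0 ω ∨ A 1 ω) (A 0)
  have h3 : PB E b (fun ω => (A 0 ω ∨ A 1 ω) ∧ A 0 ω) = PB E b (A 0) :=
    PB_congr fun ω _ => ⟨fun h => h.2, fun h => ⟨Or.inl h, h⟩⟩
  have h4 : PB E b (fun ω => (A 0 ω ∨ A 1 ω) ∧ ¬ A 0 ω) = PB E b (A 1) :=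
    PB_congr fun ω hω => ⟨fun h => h.1.resolve_left h.2, fun h1 => ⟨Or.inr h1, fun h2 =>
      absurd ((h ω hω).unique h1 h2) (by decide)⟩⟩
  have h2 : PB E b (A 2) = 1 - PB E b (fun ω => A 0 ω ∨ A 1 ω) := by
    rw [← PB_not]
    refine PB_congr fun ω hω => ?_
    obtain ⟨j, hj, hu⟩ := h ω hω
    constructor
    · rintro h3 (h4 | h4)
      · exact absurd ((h ω hω).unique h3 h4) (by decide)
      · exact absurd ((h ω hω).unique h3 h4) (by decide)
    · intro h3
      push Not at h3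
      fin_cases j
      · exact absurd hj h3.1
      · exact absurd hj h3.2
      · exact hj
  linarith

/-- **The sum of the probabilities of the far ends.** -/
theorem sum_pj (hh : 2 ≤ h) (hE : ∃ t, Ex S h p t) (hO : One S h p) (pl : Cell → Option κ) :
    ∑ j, pj S h pl p j = 1 :=
  PB_three fun _ hω => ex_unique_V hh hE hO hω

end prob

end Pool.Agent.H72.W.V
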