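import Mathlib
import Pool.Agent.H2.W.Mult
import Pool.Agent.H40.W.NWcrC
import Pool.Agent.H54.W.FlatT
import Pool.Agent.H60.W.BdI
import Pool.Agent.H60.W.C.Dat
import Pool.Agent.H60.W.LevR
import Pool.Agent.H72.W.NRef
import Pool.Agent.H72.W.RootI
import Pool.Agent.Q1.M6e.Wn.PW

set_option autoImplicit false
open Finset

/-!
# The inputs `InpV` of the class of functionals over the tied natural windows, left arc (chart I)

Port of `H15/W/C/OldP` to the class `H54.W.Win`. `ScI` : the hypotheses on the window at the scale `R` (no tie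
on the right wall, the right column is frozen and solid: `refD` of `NRef`). `VOnI` : the hypotheses on the
functional; the labels `Sg` are deep in the window or at the right of the window. `caseI` : the case, `PI` : the
class. `inpPI : InpVP PI`, `finePI : FineVP PI`, `bdPI : BdVP PI`.
-/

namespace Pool.Agent.H72.W.N

open Pool.Agent.H33.Q1 (lt tt tt_lt)
open Pool.Agent.H75.Perc Pool.Agent.H75.TwoArm Pool.Agent.H75.Four Pool.Agent.H69.Q1
open Pool.Agent.Q1 Pool.Agent.H99.NC Pool.Agent.H49.Perc Pool.Agent.H60.Q1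
open Pool.Agent.H39.Q1 Pool.Agent.H59.Q1
open Pool.Agent.H54.W (Win)
open Pool.Agent.H42.Sp (Sd)
open Pool.Agent.H13.R45 (gp ev_true ev_false Ag OutF)
open Pool.Agent.H44.FM.AsmW (TW mem_TW)
open Pool.Agent.H49.W (WallsV)
open Pool.Agent.H60.W.N
open Pool.Agent.H60.W.BI (InpVP BdVP bdVP_of)
open Pool.Agent.H40.W (InpV fineVP_of)
open Pool.Agent.H40.W.N
open Pool.Agent.Q1.M6e.Wn (mW LW le_mW le_LW mW_le rkW)
open Pool.Agent.H27.W.N
open Pool.Agent.H95.W (CoarseR CoarseRC)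
open Pool.Agent.H95.W.N
open Pool.Agent.H31.Sp (CQ Ed EdF mem_EdF verS)
open Pool.Agent.H15.W

section Coarse

variable {η : ℝ} {R : ℕ} {D : Win} {n H : ℤ} {A B : ℤ → ℤ}

/-- the number of rows of cells -/
lemma H_leI (hC : Coarse D n H A B) (n1 : η * R ≤ n) (h2 : (D.h : ℝ) ≤ R / η) (hη : 0 < η) (hR : 1 ≤ R) :
    (H : ℝ) ≤ 1 / η ^ 2 := by
  have hRr : (0 : ℝ) < R := by exact_mod_cast hR
  have hH : (0 : ℝ) < H := by exact_mod_cast hC.HH
  have h1 : ((n * H : ℤ) : ℝ) ≤ R / η := by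
    rw [← hC.hh]; exact h2
  push_cast at h1
  have h2 : η * R * H ≤ R / η := (mul_le_mul_of_nonneg_right n1 hH.le).trans h1
  rw [le_div_iff₀ hη] at h2
  rw [le_div_iff₀ (by positivity)]
  have h3 : (H * η ^ 2) * (R : ℝ) ≤ 1 * R := by nlinarith
  exact le_of_mul_le_mul_right h3 hRr

/-- the number of cells of a row -/
lemma AB_leI (hC : Coarse D n H A B) (n1 : η * R ≤ n) (w2 : ((D.w - D.lo : ℤ) : ℝ) ≤ R / η)
    (hη : 0 < η) (hR : 1 ≤ R) {Y : ℤ} (h0 : 0 ≤ Y) (h1 : Y < H) :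
    ((B Y - A Y : ℤ) : ℝ) ≤ 1 / η ^ 2 := by
  have hRr : (0 : ℝ) < R := by exact_mod_cast hR
  have hn := hC.pos
  have hAB := hC.AB Y h0 h1
  have y0 : 0 ≤ n * Y := mul_nonneg hn.le h0
  have y1 : n * Y < D.h := by
    rw [hC.hh]; exact mul_lt_mul_of_pos_left h1 hn
  have g1 := hC.b (n * Y) y0 y1
  have g2 := hC.a (n * Y) y0 y1
  rw [Int.mul_ediv_cancel_left _ hn.ne'] at g1 g2
  have g3 := D.hlo (n * Y) y0 y1
  have h2 : ((n * (B Y - A Y) : ℤ) : ℝ) ≤ R / η := by
    refine le_trans ?_ w2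
    exact_mod_cast (by rw [mul_sub]; omega : n * (B Y - A Y) ≤ D.w - D.lo)
  push_cast at h2 ⊢
  have hp : (0 : ℝ) < (B Y : ℝ) - A Y := by
    have : (A Y : ℝ) < B Y := by exact_mod_cast hAB
    linarith
  have h3 : η * R * ((B Y : ℝ) - A Y) ≤ R / η := (mul_le_mul_of_nonneg_right n1 hp.le).trans h2
  rw [le_div_iff₀ hη] at h3
  rw [le_div_iff₀ (by positivity)]
  have h4 : (((B Y : ℝ) - A Y) * η ^ 2) * (R : ℝ) ≤ 1 * R := by nlinarith
  exact le_of_mul_le_mul_right h4 hRr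

/-- the number of edges -/
lemma EdF_leI (hC : Coarse D n H A B) (n1 : η * R ≤ n) (h2 : (D.h : ℝ) ≤ R / η)
    (w2 : ((D.w - D.lo : ℤ) : ℝ) ≤ R / η) (hη : 0 < η) (hR : 1 ≤ R) :
    (EdF H A B).card ≤ 8 * (⌊1 / η ^ 2⌋₊ * (⌊1 / η ^ 2⌋₊ + 1)) := by
  classical
  have hH : H.toNat ≤ ⌊1 / η ^ 2⌋₊ := by
    refine Nat.le_floor ?_
    have h1 := H_leI hC n1 h2 hη hR
    have h2 : ((H.toNat : ℤ) : ℝ) = (H : ℝ) := by
      exact_mod_cast Int.toNat_of_nonneg hC.HH.le
    have h3 : (H.toNat : ℝ) = ((H.toNat : ℤ) : ℝ) := by push_cast; rfl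
    rw [h3, h2]; exact h1
  have hsub : EdF H A B ⊆ (univ : Finset Pool.Agent.H42.Sp.Sd) ×ˢ
      ((Ico 0 H).biUnion fun Y => Icc (A Y) (B Y) ×ˢ Icc Y (Y + 1)) := by
    unfold EdF
    exact filter_subset _ _
  refine (Finset.card_le_card hsub).trans ?_
  rw [card_product]
  have c4 : (univ : Finset Pool.Agent.H42.Sp.Sd).card = 4 := rfl
  rw [c4]
  have hb : ((Ico 0 H).biUnion fun Y => Icc (A Y) (B Y) ×ˢ Icc Y (Y + 1)).card ≤
      (Ico 0 H).card * (2 * (⌊1 / η ^ 2⌋₊ + 1)) := by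
    refine card_biUnion_le_card_mul _ _ _ fun Y hY => ?_
    rw [mem_Ico] at hY
    rw [card_product, Int.card_Icc, Int.card_Icc, show (Y + 1 + 1 - Y).toNat = 2 by omega]
    have h1 := AB_leI hC n1 w2 hη hR hY.1 hY.2
    have h2 : (B Y - A Y).toNat ≤ ⌊1 / η ^ 2⌋₊ := by
      refine Nat.le_floor ?_
      have h3 := hC.AB Y hY.1 hY.2
      have h4 : (((B Y - A Y).toNat : ℤ) : ℝ) = ((B Y - A Y : ℤ) : ℝ) := by
        exact_mod_cast Int.toNat_of_nonneg (by omega : 0 ≤ B Y - A Y)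
      have h5 : ((B Y - A Y).toNat : ℝ) = (((B Y - A Y).toNat : ℤ) : ℝ) := by push_cast; rfl
      rw [h5, h4]; exact h1
    have h6 : (B Y + 1 - A Y).toNat ≤ ⌊1 / η ^ 2⌋₊ + 1 := by omega
    nlinarith
  rw [Int.card_Ico, sub_zero] at hb
  calc 4 * _ ≤ 4 * (H.toNat * (2 * (⌊1 / η ^ 2⌋₊ + 1))) := Nat.mul_le_mul_left _ hb
    _ ≤ 4 * (⌊1 / η ^ 2⌋₊ * (2 * (⌊1 / η ^ 2⌋₊ + 1))) :=
      Nat.mul_le_mul_left _ (Nat.mul_le_mul_right _ hH)
    _ = 8 * (⌊1 / η ^ 2⌋₊ * (⌊1 / η ^ 2⌋₊ + 1)) := by ring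

end Coarse

/-- **A tied natural window at the scale `R`, left arc only**: cells of side `n`, right wall `n W`, outside `O`,
world `p`, cut `s0` of the ring, frozen state `S`; no tie on the right wall, the right column is solid -/
structure ScI (η : ℝ) (R : ℕ) {D : Win} (O : OutB D) (n H W : ℤ) (A : ℤ → ℤ) (CL : ℤ → Bool) (p : Bool)
    (s0 : ℤ) (S : Finset (ℤ × ℤ)) : Prop where
  co : CoarseRC D n H W A CL
  n1 : η * R ≤ n
  h2 : (D.h : ℝ) ≤ R / η
  w2 : ((D.w - D.lo : ℤ) : ℝ) ≤ R / η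
  out : OutOK O (LW η R)
  cut : colp D (s0 - 1) ≠ colp D s0
  nR : ∀ q, ¬ CA D p (.R, q)
  sub : S ⊆ FR D p
  nat : NatS D p S
  sol : SolR D p S

/-- **the functional `V` over the tied natural window**, layers of thickness `m`; `Sg` : labels of the roots of
`V` and labels which differ from the true window; they are deep in the window or at the right of it -/
structure VOnI (V : Finset (ℤ × ℤ) → Finset (ℤ × ℤ) → ℂ) (Sg : Finset (ℤ × ℤ)) {D : Win} (O : OutB D)
    (n H W : ℤ) (A : ℤ → ℤ) (p : Bool) (s0 L m : ℤ) (S : Finset (ℤ × ℤ)) (hS : S ⊆ FR D p) : Prop where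
  tog : VTog V (WA O p S) (LBA D p (m + 1)) (TA D p) (fmA D p s0) (colp D) (WlA D p s0 L S)
    (LaA D p s0 m) (bA D p) (oA D p)
  togX : ∀ g ∈ GmC D n H, VTogX V (WA O p S) (EN D p) (LBA D p (m + 1)) (TA D p) (fmA D p s0) (colp D)
    (WlA D p s0 L S) (LamX D p s0 n H A (fun _ => W) m g) (bA D p)
  loc : VLoc V (XA O p S hS) (WA O p S) (EN D p) (LBA D p (m + 1)) (TA D p) Sg (fmA D p s0) (colp D)
    (WlA D p s0 L S) (LaA D p s0 m) (bA D p) (oA D p)
  deep : ∀ l ∈ Sg, ∀ x y, lt (x, y) = l → DpI D p m x y ∨ D.w ≤ x + sh p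

/-- **the functional as a case** -/
noncomputable def caseI {D : Win} (O : OutB D) (n H W : ℤ) (A : ℤ → ℤ) (p : Bool) (s0 L m : ℤ)
    (S : Finset (ℤ × ℤ)) (hS : S ⊆ FR D p) (w0 : KL H A (fun _ => W))
    (V : Finset (ℤ × ℤ) → Finset (ℤ × ℤ) → ℂ) (Sg : Finset (ℤ × ℤ)) : CaseV where
  ι := ℤ
  κ := KL H A (fun _ => W)
  d := datD O n H A (fun _ => W) p s0 L m S hS w0
  V := V
  Sg := Sg

/-- **The class of the functionals over the tied natural windows, left arc.** -/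
def PI (η : ℝ) (R : ℕ) (x : CaseV) : Prop :=
  ∃ (D : Win) (O : OutB D) (n H W : ℤ) (A : ℤ → ℤ) (CL : ℤ → Bool) (p : Bool) (s0 : ℤ)
    (S : Finset (ℤ × ℤ)) (h : ScI η R O n H W A CL p s0 S) (w0 : KL H A (fun _ => W))
    (V : Finset (ℤ × ℤ) → Finset (ℤ × ℤ) → ℂ) (Sg : Finset (ℤ × ℤ)),
    VOnI V Sg O n H W A p s0 (LW η R) (mW η R) S h.sub ∧
    x = caseI O n H W A p s0 (LW η R) (mW η R) S h.sub w0 V Sg

variable {D : Win} {n H W : ℤ} {A : ℤ → ℤ} {p : Bool} {s0 L m R : ℤ} {CL : ℤ → Bool}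
  {O : OutB D} {S : Finset (ℤ × ℤ)} {hS : S ⊆ FR D p} {w0 : KL H A (fun _ => W)}
  {V : Finset (ℤ × ℤ) → Finset (ℤ × ℤ) → ℂ} {Sg : Finset (ℤ × ℤ)}

/-- no tie on the right wall -/
lemma nR_of (h : ∀ q, ¬ CA D p (.R, q)) : ∀ k, CA D p k → k.1 ≠ .R := fun k hk hs => h k.2 (by
  obtain ⟨s, q⟩ := k; simp only at hs; subst hs; exact hk)

/-- **The box of a flat tie does not reach the right wall.** -/
theorem cs_right (hC : CoarseRC D n H W A CL) (hcut : colp D (s0 - 1) ≠ colp D s0)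
    (hnR : ∀ q, ¬ CA D p (.R, q)) (hR : 0 ≤ R) (hn : 2 * R + 2 ≤ n) {w : KL H A (fun _ => W)}
    {e : ℤ × ℤ} (he : e ∈ FlD D n H A (fun _ => W) p w0 (2 * R + 9) w) {x y : ℤ}
    (hl : lt (x, y) ∈ bx (colp D (fmA D p s0 e)) (bA D p e) R) : x + sh p < D.w := by
  obtain ⟨u, v, c, rfl, h1, h2, h3⟩ := Pool.Agent.H54.W.N.exists_FlD (CoarseC.ofR hC) hcut
    (nR_of hnR) he
  obtain ⟨d1, -, -, -⟩ := dist_bx h1 hl
  have h4 := onT_bt (k := w.1.1) (c := c) (u := u) (v := v)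
  unfold OnT at h4
  have hn0 := hC.pos
  have hw := hC.ww
  have key : w.1.2.1 + 1 ≤ W := by
    have hm := mem_EdL.1 w.2
    obtain ⟨⟨⟨s, X, Y⟩, hm'⟩, hs⟩ : ∃ q : KL H A (fun _ => W), q = w := ⟨w, rfl⟩
    subst hs
    simp only at hm ⊢
    obtain ⟨m1, m3⟩ := hm
    cases s
    · obtain ⟨⟨-, -, -, m4⟩, -⟩ := m1
      simp only at m4
      omega
    · exact absurd rfl m3
    · obtain ⟨⟨-, -, -, m4⟩, -⟩ := m1
      simp only at m4
      omega
    · obtain ⟨-, -, -, -, m4⟩ := m1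
      simp only at m4
      omega
  have hW : n * w.1.2.1 + n ≤ D.w := by
    rw [hw]
    have := mul_le_mul_of_nonneg_left key hn0.le
    linarith
  split_ifs at h2 h3
  · omega
  · omega

/-- **The inputs for one case.** `m` : thickness of the layers. -/
theorem inpI (hC : CoarseRC D n H W A CL) (hcut : colp D (s0 - 1) ≠ colp D s0)
    (hnR : ∀ q, ¬ CA D p (.R, q)) (hNat : NatS D p S) (hSol : SolR D p S)
    (hm : 256 ≤ m) (hmn : 16 * m ≤ n) (hL : 2 * m ≤ L) (hO : OutOK O L)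
    (hV : VOnI V Sg O n H W A p s0 L m S hS)
    {θ Q C : ℝ} {ν R : ℕ}
    (hθ : 32 * θ * R ≤ m) (hQ : (n : ℝ) ≤ Q / 16 * m) (hnC : (n : ℝ) ≤ C * R)
    (hν : Fintype.card (KL H A (fun _ => W)) ≤ ν) (hH : H + 1 ≤ ν) :
    Nonempty (InpV θ Q (θ / 4) C ν 8 R (caseI O n H W A p s0 L m S hS w0 V Sg)) := by
  have hCC := CoarseC.ofR hC
  have hB : ArcB D n H A (fun _ => W) p s0 := arcB hCC hcut (nR_of hnR)
  have hE : EdgA D n H A (fun _ => W) p s0 := edgA hB hCC.toCoarse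
  have hq := fun w => hqD (p := p) hCC.toCoarse (show 16 ≤ n by omega) w
  have hlayer : LBA D p (m + 1) ⊆ EN D p := by
    intro e he
    obtain ⟨x, y, rfl⟩ := Pool.Agent.H74.R45.exists_lt (odd_TB he)
    exact mem_EN.2 (mem_LBA.1 he).1
  have hm' : (256 : ℝ) ≤ m := by exact_mod_cast hm
  have hmul : Multi (XA O p S hS) (WA O p S) (EN D p) (LBA D p (m + 1)) (TA D p) (fmA D p s0) (colp D)
      (WlA D p s0 L S) (LaA D p s0 m) (bA D p) (oA D p) :=
    multiA hS (by omega) hO.free (by omega) (Subset.refl _) hlayer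
  have h1D : (m : ℝ) ≤ 16 * ((m / 16 : ℤ) : ℝ) + 16 := by
    have : m ≤ 16 * (m / 16) + 16 := by omega
    exact_mod_cast this
  have h2D : (16 : ℝ) ≤ ((m / 16 : ℤ) : ℝ) := by
    have : 16 ≤ m / 16 := by omega
    exact_mod_cast this
  have hQ0 : 0 ≤ Q := by
    have h4 : (0 : ℝ) < n := by exact_mod_cast (show 0 < n by omega)
    by_contra hc
    push Not at hc
    nlinarith
  have hcr := wcrC (O := O) (p := p) (S := S) (h := m) (Dd := m / 16) (Q := Q) hC hcut hnR hSol hS hNat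
    (show 5 ≤ L by omega) (by omega) (by omega) (by omega) (by nlinarith) w0
  refine ⟨
    { γ := Bool × ℤ
      dγ := inferInstance
      Γ := GmC D n H
      h := m
      Tn := TnX D p s0 n H A (fun _ => W) m
      Λ := LamX D p s0 n H A (fun _ => W) m
      L := LX D p n H A (fun _ => W) m
      iL := iLs D p s0 n H A (fun _ => W)
      iF := iFs D p s0 n H A (fun _ => W)
      χ := kS D p n H A (fun _ => W)
      Um := fun _ => 2 * (2 * m + 2)
      Vm := fun _ => 2 * (2 * m + 2)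
      Dm := fun _ => 2 * (2 * m + 2)
      x0 := x0D D n H A (fun _ => W) p s0
      N := ND D n H A (fun _ => W) p s0
      D := m / 16
      ne := ⟨w0⟩
      card := hν
      cardΓ := ?_
      mul := hmul
      wcr := hcr
      tog := hV.tog
      togΛ := hV.togX
      loc := hV.loc
      rk := rk_injD hB hCC.toCoarse (by omega) w0
      len := ?_
      flt := ?_ }⟩
  · have := card_GmC (D := D) (n := n) (H := H) hC.HH.le
    exact_mod_cast this.trans hH
  · nlinarith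
  · intro R' h1 h2
    have h3 : 128 * R' ≤ m := by
      have : (128 : ℝ) * R' ≤ m := by nlinarith
      exact_mod_cast this
    have h8 : 8 ≤ R' := by exact_mod_cast h1
    refine ⟨FlD D n H A (fun _ => W) p w0 (2 * R' + 9), ?_, ?_, ?_⟩
    · refine walls_mkV (fun w => fww_D hE hq w0 w m) (hE.hfw w0) (hsubD w0 _)
        (hlocD hB hCC.toCoarse w0 (by omega) (by omega))
        (fun w e he => Pool.Agent.H54.W.N.flatD hCC hcut (nR_of hnR) (by omega) (by omega) hS (by omega)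
          (by omega) hO.port (N := L) (by omega) he) (fun w e he => ?_) (fun w e he l hl => ?_)
      · have h4 := hE.hfw w0 e (mem_TW.1 (hsubD w0 _ w he)).1
        rw [(mem_TW.1 (hsubD w0 _ w he)).2] at h4
        have h5 := root_A (O := O) (L := L) (R := R') (s0 := s0) hO.root (by omega)
          (mem_TW.1 (hsubD w0 _ w he)).1
        rwa [h4] at h5
      · have h4 := hE.hfw w0 e (mem_TW.1 (hsubD w0 _ w he)).1
        rw [(mem_TW.1 (hsubD w0 _ w he)).2] at h4
        change l ∉ bx (colp D (fwD D n H A (fun _ => W) s0 w)) (bA D p e) R'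
        rw [← h4]
        intro hmem
        obtain ⟨x, y, rfl⟩ := Pool.Agent.H13.R45.bx_lt hmem
        rcases hV.deep _ hl x y rfl with h5 | h5
        · refine cs_A (m := m) (R := R') (s0 := s0) (fun x' y' he' => ?_) (by omega)
            (mem_TW.1 (hsubD w0 _ w he)).1 hmem
          have h6 := Pool.Agent.H33.Q1.lt_inj he'
          simp only [Prod.mk.injEq] at h6
          obtain ⟨rfl, rfl⟩ := h6
          exact h5
        · have h6 := cs_right hC hcut hnR (by omega) (by omega) he hmem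
          omega
    · intro w
      exact (cardD hB hCC.toCoarse w0 (by omega) w).trans hnC
    · intro w e he hn
      exact endD hB hCC.toCoarse (by omega) w0 w h8 he hn

/-- **The inputs for the class of the functionals over the tied natural windows, left arc.** -/
theorem inpPI : InpVP PI := by
  intro η hη
  set k : ℕ := ⌊1 / η ^ 2⌋₊ with hk
  refine ⟨η / 4096, 2048 / η ^ 2, η / 16384, 1 / η, 8 * (k * (k + 1)) + 2 * (k + 1),
    max 8 ⌈16384 / η⌉₊, by positivity, by positivity, ?_⟩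
  rintro R hR x ⟨D, O, n, H, W, A, CL, p, s0, S, h, w0, V, Sg, hV, rfl⟩
  have hCC := CoarseC.ofR h.co
  have hR8 : 8 ≤ R := (le_max_left _ _).trans hR
  have hR1 : 16384 / η ≤ R := (Nat.le_ceil _).trans (by exact_mod_cast (le_max_right _ _).trans hR)
  have hRη : 16384 ≤ η * R := by
    rw [div_le_iff₀ hη] at hR1
    linarith
  have hR0 : 1 ≤ R := by omega
  have hRr : (0 : ℝ) < R := by exact_mod_cast hR0
  have hm : 256 ≤ mW η R := le_mW (by push_cast; linarith)
  have hmr : η * R / 128 ≤ (mW η R : ℝ) := by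
    have h1 := Int.lt_floor_add_one (η * R / 64)
    have h2 : (mW η R : ℝ) = (⌊η * (R : ℝ) / 64⌋ : ℝ) := rfl
    rw [h2]
    linarith
  have hmu : (mW η R : ℝ) ≤ η * R / 64 := mW_le
  have hL : 2 * mW η R ≤ LW η R := le_LW (by push_cast; linarith)
  have hmn : 64 * mW η R ≤ n := by
    have h1 : (mW η R : ℝ) ≤ η * R / 64 := Int.floor_le _
    have h2 : ((64 * mW η R : ℤ) : ℝ) ≤ (n : ℝ) := by
      push_cast
      linarith [h.n1]
    exact_mod_cast h2
  have hH := H_leI hCC.toCoarse h.n1 h.h2 hη hR0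
  have hHk : H ≤ k := by
    have h1 : H.toNat ≤ k := by
      refine Nat.le_floor ?_
      have h3 : (H.toNat : ℝ) = ((H.toNat : ℤ) : ℝ) := by push_cast; rfl
      rw [h3, Int.toNat_of_nonneg h.co.HH.le]
      exact hH
    omega
  have hnR : (n : ℝ) ≤ R / η := by
    refine le_trans ?_ h.h2
    rw [h.co.hh]
    have hn := hCC.toCoarse.pos
    have hH1 := h.co.HH
    exact_mod_cast (by nlinarith : n ≤ n * H)
  have hcard : Fintype.card (KL H A (fun _ => W)) ≤ 8 * (k * (k + 1)) := by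
    have h1 := EdF_leI hCC.toCoarse h.n1 h.h2 h.w2 hη hR0
    rw [Fintype.card_coe]
    exact (card_le_card (filter_subset _ _)).trans h1
  obtain ⟨I⟩ := inpI (O := O) (hS := h.sub) (w0 := w0) (θ := η / 4096) (Q := 2048 / η ^ 2) (C := 1 / η)
    (ν := 8 * (k * (k + 1)) + 2 * (k + 1)) (R := R) h.co h.cut h.nR h.nat h.sol hm (by omega) hL h.out hV
    (by linarith) (by
      refine hnR.trans ?_
      have h1 : 2048 / η ^ 2 / 16 * (η * R / 128) ≤ 2048 / η ^ 2 / 16 * (mW η R : ℝ) :=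
        mul_le_mul_of_nonneg_left hmr (by positivity)
      refine le_trans (le_of_eq ?_) h1
      field_simp
      norm_num) (by
      refine hnR.trans (le_of_eq ?_)
      ring) (hcard.trans (Nat.le_add_right _ _)) (by
      push_cast
      have : (0 : ℤ) ≤ 8 * (k * (k + 1)) := by positivity
      linarith)
  exact ⟨
    { I with
      flt := fun R' h1 h2 => I.flt R' (by omega) (by linarith) }⟩

/-- **The class satisfies `FineVP`.** -/
theorem finePI : FineVP PI := inpPI.fine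

/-- **The uniform bound for the class.** -/
theorem bdPI : BdVP PI := bdVP_of inpPI

end Pool.Agent.H72.W.N
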